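import Mathlib.Topology.Sheaves.Presheaf
import Mathlib.Tactic.Monotonicity.Lemmas
import Mathlib.Data.Int.Star
import Mathlib.Algebra.Order.Ring.Star
import Mathlib.Analysis.Normed.Order.Lattice
import Mathlib.Analysis.SpecificLimits.Basic
import Mathlib.Analysis.InnerProductSpace.Basic
import Mathlib.Algebra.Order.Star.Real
import Mathlib.Combinatorics.SimpleGraph.Basic
import Mathlib.RingTheory.PiTensorProduct
import Mathlib.Tactic.Algebra.Basic

-- ======== part 0: formerly Pool.Agent.MP_d4b492_an.Basic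
section MrgPart0

set_option autoImplicit false

open Set Filter Topology

namespace Pool.Agent.MP_d4b492_an

abbrev Pt : Type := ℝ × ℝ

/-- The periodic open middle thirds. -/
def mid (x : ℝ) : Prop := ∃ i : ℤ, (i : ℝ) + 1 / 3 < x ∧ x < i + 2 / 3

/-- The periodic carpet. -/
def P : Set Pt := {p | ∀ n : ℕ, ¬ (mid (3 ^ n * p.1) ∧ mid (3 ^ n * p.2))}

/-- The periodic Cantor set. -/
def Ct : Set ℝ := {y | ∀ n : ℕ, ¬ mid (3 ^ n * y)}

/-- The Cantor set. -/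
def C : Set ℝ := {y | y ∈ Ct ∧ 0 ≤ y ∧ y ≤ 1}

/-- A window in the row of unit carpets. -/
def W (a b : ℝ) : Set Pt := {p | p ∈ P ∧ a ≤ p.1 ∧ p.1 ≤ b ∧ 0 ≤ p.2 ∧ p.2 ≤ 1}

/-- The infinite row of unit carpets. -/
def T : Set Pt := {p | p ∈ P ∧ 0 ≤ p.2 ∧ p.2 ≤ 1}

/-- The carpet. -/
def S : Set Pt := W 0 1

theorem mid_add_int (x : ℝ) (k : ℤ) : mid (x + k) ↔ mid x := by
  constructor
  · rintro ⟨i, h1, h2⟩
    exact ⟨i - k, by push_cast; linarith, by push_cast; linarith⟩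
  · rintro ⟨i, h1, h2⟩
    exact ⟨i + k, by push_cast; linarith, by push_cast; linarith⟩

theorem mid_neg (x : ℝ) : mid (-x) ↔ mid x := by
  constructor
  · rintro ⟨i, h1, h2⟩
    exact ⟨-i - 1, by push_cast; linarith, by push_cast; linarith⟩
  · rintro ⟨i, h1, h2⟩
    exact ⟨-i - 1, by push_cast; linarith, by push_cast; linarith⟩

theorem not_mid_of {x : ℝ} (k : ℤ) (h1 : (k : ℝ) - 1 / 3 ≤ x) (h2 : x ≤ k + 1 / 3) : ¬ mid x := by
  rintro ⟨i, h3, h4⟩
  have h5 : (i : ℝ) < k := by linarith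
  have h6 : (k : ℝ) < i + 1 := by linarith
  have h7 : i < k := by exact_mod_cast h5
  have h8 : k < i + 1 := by exact_mod_cast h6
  omega

theorem exists_of_not_mid {x : ℝ} (h : ¬ mid x) :
    ∃ k : ℤ, (k : ℝ) - 1 / 3 ≤ x ∧ x ≤ k + 1 / 3 := by
  have h1 := Int.floor_le x
  have h2 := Int.lt_floor_add_one x
  by_cases h3 : x ≤ ⌊x⌋ + 1 / 3
  · exact ⟨⌊x⌋, by linarith, h3⟩
  · refine ⟨⌊x⌋ + 1, ?_, by push_cast; linarith⟩
    by_contra h4
    push_cast at h4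
    exact h ⟨⌊x⌋, by linarith, by linarith⟩

theorem not_mid_int (k : ℤ) : ¬ mid (k : ℝ) := not_mid_of k (by linarith) (by linarith)

theorem isOpen_mid : IsOpen {x : ℝ | mid x} := by
  have : {x : ℝ | mid x} = ⋃ i : ℤ, Ioo ((i : ℝ) + 1 / 3) (i + 2 / 3) := by
    ext x; simp [mid]
  rw [this]
  exact isOpen_iUnion fun i => isOpen_Ioo

theorem isClosed_Ct : IsClosed Ct := by
  have : Ct = ⋂ n : ℕ, (fun y : ℝ => 3 ^ n * y) ⁻¹' {x | mid x}ᶜ := by
    ext x; simp [Ct]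
  rw [this]
  exact isClosed_iInter fun n => isOpen_mid.isClosed_compl.preimage (by fun_prop)

theorem isClosed_C : IsClosed C := by
  have : C = Ct ∩ Icc 0 1 := rfl
  rw [this]
  exact isClosed_Ct.inter isClosed_Icc

theorem isCompact_C : IsCompact C :=
  isCompact_Icc.of_isClosed_subset isClosed_C (fun _ h => ⟨h.2.1, h.2.2⟩)

theorem isClosed_P : IsClosed P := by
  have : P = ⋂ n : ℕ, ((fun p : Pt => 3 ^ n * p.1) ⁻¹' {x | mid x} ∩
      (fun p : Pt => 3 ^ n * p.2) ⁻¹' {x | mid x})ᶜ := by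
    ext x; simp [P]
  rw [this]
  exact isClosed_iInter fun n =>
    ((isOpen_mid.preimage (by fun_prop)).inter (isOpen_mid.preimage (by fun_prop))).isClosed_compl

theorem mid_pow_add_int (n : ℕ) (x : ℝ) (k : ℤ) : mid (3 ^ n * (x + k)) ↔ mid (3 ^ n * x) := by
  have : (3 : ℝ) ^ n * (x + k) = 3 ^ n * x + ((3 ^ n * k : ℤ) : ℝ) := by push_cast; ring
  rw [this, mid_add_int]

theorem Ct_add_int {y : ℝ} (k : ℤ) : y + k ∈ Ct ↔ y ∈ Ct := by
  simp only [Ct, mem_ofPred_eq, mid_pow_add_int]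

theorem Ct_sub_int {y : ℝ} (k : ℤ) : y - k ∈ Ct ↔ y ∈ Ct := by
  have := Ct_add_int (y := y) (-k)
  rwa [Int.cast_neg, ← sub_eq_add_neg] at this

theorem Ct_neg {y : ℝ} : -y ∈ Ct ↔ y ∈ Ct := by
  simp only [Ct, mem_ofPred_eq, mul_neg, mid_neg]

theorem Ct_mul_pow {y : ℝ} (h : y ∈ Ct) (k : ℕ) : 3 ^ k * y ∈ Ct := by
  intro n
  rw [← mul_assoc, ← pow_add]
  exact h _

theorem Ct_of_three {y : ℝ} (h0 : ¬ mid y) (h : 3 * y ∈ Ct) : y ∈ Ct := by
  intro n
  cases n with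
  | zero => simpa using h0
  | succ n => rw [pow_succ, mul_assoc]; exact h n

theorem int_mem_Ct (k : ℤ) : (k : ℝ) ∈ Ct := by
  intro n
  have : (3 : ℝ) ^ n * k = ((3 ^ n * k : ℤ) : ℝ) := by push_cast; ring
  rw [this]
  exact not_mid_int _

theorem zero_mem_C : (0 : ℝ) ∈ C := ⟨by simpa using int_mem_Ct 0, le_rfl, zero_le_one⟩

theorem one_mem_C : (1 : ℝ) ∈ C := ⟨by simpa using int_mem_Ct 1, zero_le_one, le_rfl⟩

theorem C_low {y : ℝ} (h : y ∈ C) : y / 3 ∈ C := by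
  obtain ⟨h1, h2, h3⟩ := h
  refine ⟨Ct_of_three (not_mid_of 0 (by simp; linarith) (by simp; linarith)) ?_,
    by linarith, by linarith⟩
  rwa [mul_div_cancel₀ _ (by norm_num : (3 : ℝ) ≠ 0)]

theorem C_high {y : ℝ} (h : y ∈ C) : (y + 2) / 3 ∈ C := by
  obtain ⟨h1, h2, h3⟩ := h
  refine ⟨Ct_of_three (not_mid_of 1 (by simp; linarith) (by simp; linarith)) ?_,
    by linarith, by linarith⟩
  rw [mul_div_cancel₀ _ (by norm_num : (3 : ℝ) ≠ 0)]
  exact_mod_cast (Ct_add_int 2).2 h1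

theorem C_symm {y : ℝ} (h : y ∈ C) : 1 - y ∈ C := by
  obtain ⟨h1, h2, h3⟩ := h
  refine ⟨?_, by linarith, by linarith⟩
  have := (Ct_add_int 1).2 (Ct_neg.2 h1)
  rwa [Int.cast_one, neg_add_eq_sub] at this

theorem third_mem_C : (1 / 3 : ℝ) ∈ C := C_low one_mem_C

theorem two_thirds_mem_C : (2 / 3 : ℝ) ∈ C := by simpa using C_high zero_mem_C

theorem inv_pow_mem_C (k : ℕ) : (1 / 3 ^ k : ℝ) ∈ C := by
  induction k with
  | zero => simpa using one_mem_C
  | succ k ih =>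
    have := C_low ih
    rwa [div_div, ← pow_succ] at this

theorem C_split {y : ℝ} (h : y ∈ C) : 3 * y ∈ C ∨ 3 * y - 2 ∈ C := by
  obtain ⟨h1, h2, h3⟩ := h
  have h4 : 3 * y ∈ Ct := by simpa using Ct_mul_pow h1 1
  by_cases h5 : y ≤ 1 / 3
  · exact Or.inl ⟨h4, by linarith, by linarith⟩
  · right
    have h6 : 2 / 3 ≤ y := by
      by_contra h6
      exact h1 0 ⟨0, by simp; linarith, by simp; linarith⟩
    exact ⟨by exact_mod_cast (Ct_sub_int 2).2 h4, by linarith, by linarith⟩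

theorem P_add_int {x y : ℝ} (i j : ℤ) : (x + i, y + j) ∈ P ↔ (x, y) ∈ P := by
  simp only [P, mem_ofPred_eq, mid_pow_add_int]

theorem P_sub_int {x y : ℝ} (i j : ℤ) : (x - i, y - j) ∈ P ↔ (x, y) ∈ P := by
  have := P_add_int (x := x) (y := y) (-i) (-j)
  rwa [Int.cast_neg, Int.cast_neg, ← sub_eq_add_neg, ← sub_eq_add_neg] at this

theorem P_negx {x y : ℝ} : (-x, y) ∈ P ↔ (x, y) ∈ P := by
  simp only [P, mem_ofPred_eq, mul_neg, mid_neg]

theorem P_negy {x y : ℝ} : (x, -y) ∈ P ↔ (x, y) ∈ P := by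
  simp only [P, mem_ofPred_eq, mul_neg, mid_neg]

theorem P_swap {x y : ℝ} : (y, x) ∈ P ↔ (x, y) ∈ P := by
  simp only [P, mem_ofPred_eq, and_comm]

theorem P_mul_pow {x y : ℝ} (h : (x, y) ∈ P) (k : ℕ) : (3 ^ k * x, 3 ^ k * y) ∈ P := by
  intro n
  simp only
  rw [← mul_assoc, ← mul_assoc, ← pow_add]
  exact h _

theorem P_of_three {x y : ℝ} (h0 : ¬ (mid x ∧ mid y)) (h : (3 * x, 3 * y) ∈ P) : (x, y) ∈ P := by
  intro n
  cases n with
  | zero => simpa using h0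
  | succ n =>
    have := h n
    simp only at this ⊢
    rwa [pow_succ, mul_assoc, mul_assoc]

theorem P_of_Ct2 {y : ℝ} (h : y ∈ Ct) (x : ℝ) : (x, y) ∈ P := fun n hn => h n hn.2

theorem P_of_Ct1 {x : ℝ} (h : x ∈ Ct) (y : ℝ) : (x, y) ∈ P := fun n hn => h n hn.1

theorem Ct_of_line {y : ℝ} (h : ∀ x, (x, y) ∈ P) : y ∈ Ct := by
  intro n hn
  refine h (1 / 2 / 3 ^ n) n ⟨?_, hn⟩
  simp only
  rw [mul_div_cancel₀ _ (by positivity)]
  exact ⟨0, by norm_num, by norm_num⟩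

theorem line_mem_T {c : ℝ} (h : c ∈ C) (x : ℝ) : (x, c) ∈ T := ⟨P_of_Ct2 h.1 x, h.2.1, h.2.2⟩

theorem vert_mem_T (i : ℤ) {y : ℝ} (h0 : 0 ≤ y) (h1 : y ≤ 1) : ((i : ℝ), y) ∈ T :=
  ⟨P_of_Ct1 (int_mem_Ct i) y, h0, h1⟩

theorem vert0_mem_T {y : ℝ} (h0 : 0 ≤ y) (h1 : y ≤ 1) : ((0 : ℝ), y) ∈ T := by
  simpa using vert_mem_T 0 h0 h1

theorem W_subset_T (a b : ℝ) : W a b ⊆ T := fun _ h => ⟨h.1, h.2.2.2⟩

theorem line_mem_W {a b c x : ℝ} (h : c ∈ C) (h1 : a ≤ x) (h2 : x ≤ b) : (x, c) ∈ W a b :=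
  ⟨P_of_Ct2 h.1 x, h1, h2, h.2.1, h.2.2⟩

theorem vert_mem_W {a b x y : ℝ} (h : x ∈ Ct) (h1 : a ≤ x) (h2 : x ≤ b) (h3 : 0 ≤ y) (h4 : y ≤ 1) :
    (x, y) ∈ W a b :=
  ⟨P_of_Ct1 h y, h1, h2, h3, h4⟩

/-- The affine map onto the square of level `n` with index `(i, j)`. -/
noncomputable def psi (n : ℕ) (i j : ℤ) (p : Pt) : Pt := ((p.1 + i) / 3 ^ n, (p.2 + j) / 3 ^ n)

/-- Indices of the level `n` intervals of the Cantor set. -/
def V : ℕ → Finset ℤ
  | 0 => {0}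
  | n + 1 => (V n).image (fun j => 3 * j) ∪ (V n).image (fun j => 3 * j + 2)

theorem mem_V_succ {n : ℕ} {j : ℤ} : j ∈ V (n + 1) ↔ ∃ i ∈ V n, j = 3 * i ∨ j = 3 * i + 2 := by
  simp only [V, Finset.mem_union, Finset.mem_image]
  constructor
  · rintro (⟨i, hi, rfl⟩ | ⟨i, hi, rfl⟩)
    · exact ⟨i, hi, Or.inl rfl⟩
    · exact ⟨i, hi, Or.inr rfl⟩
  · rintro ⟨i, hi, rfl | rfl⟩
    · exact Or.inl ⟨i, hi, rfl⟩
    · exact Or.inr ⟨i, hi, rfl⟩

theorem zero_mem_V (n : ℕ) : (0 : ℤ) ∈ V n := by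
  induction n with
  | zero => simp [V]
  | succ n ih => exact mem_V_succ.2 ⟨0, ih, Or.inl rfl⟩

theorem V_even {n : ℕ} {j : ℤ} (h : j ∈ V n) : j % 2 = 0 := by
  induction n generalizing j with
  | zero => simp [V] at h; omega
  | succ n ih =>
    obtain ⟨i, hi, rfl | rfl⟩ := mem_V_succ.1 h
    · have := ih hi; omega
    · have := ih hi; omega

theorem V_add {n r : ℕ} {j i : ℤ} (hj : j ∈ V n) (hi : i ∈ V r) : 3 ^ r * j + i ∈ V (n + r) := by
  induction r generalizing i with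
  | zero => simp [V] at hi; simpa [hi] using hj
  | succ r ih =>
    obtain ⟨i', hi', rfl | rfl⟩ := mem_V_succ.1 hi
    · exact mem_V_succ.2 ⟨_, ih hi', Or.inl (by ring)⟩
    · exact mem_V_succ.2 ⟨_, ih hi', Or.inr (by ring)⟩

theorem V_C {n : ℕ} {j : ℤ} (hj : j ∈ V n) {c : ℝ} (hc : c ∈ C) : (c + j) / 3 ^ n ∈ C := by
  induction n generalizing j c with
  | zero => simp [V] at hj; simpa [hj] using hc
  | succ n ih =>
    obtain ⟨i, hi, rfl | rfl⟩ := mem_V_succ.1 hj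
    · have := ih hi (C_low hc)
      convert this using 1
      push_cast; field_simp; ring
    · have := ih hi (C_high hc)
      convert this using 1
      push_cast; field_simp; ring

theorem exists_V (n : ℕ) {c : ℝ} (hc : c ∈ C) : ∃ j ∈ V n, 3 ^ n * c - j ∈ C := by
  induction n with
  | zero => exact ⟨0, by simp [V], by simpa using hc⟩
  | succ n ih =>
    obtain ⟨j, hj, h⟩ := ih
    rcases C_split h with h1 | h1
    · refine ⟨3 * j, mem_V_succ.2 ⟨j, hj, Or.inl rfl⟩, ?_⟩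
      convert h1 using 1
      push_cast; ring
    · refine ⟨3 * j + 2, mem_V_succ.2 ⟨j, hj, Or.inr rfl⟩, ?_⟩
      convert h1 using 1
      push_cast; ring

theorem T_step {q : Pt} (hq : q ∈ T) (r d : ℤ) (hd : d = 0 ∨ d = 2) :
    ((q.1 + r) / 3, (q.2 + d) / 3) ∈ T := by
  obtain ⟨h1, h2, h3⟩ := hq
  have h3' : (3 : ℝ) ≠ 0 := by norm_num
  refine ⟨P_of_three ?_ ?_, ?_, ?_⟩
  · rintro ⟨-, h⟩
    rcases hd with rfl | rfl
    · exact not_mid_of 0 (by simp; linarith) (by simp; linarith) h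
    · exact not_mid_of 1 (by push_cast; linarith) (by push_cast; linarith) h
  · rw [mul_div_cancel₀ _ h3', mul_div_cancel₀ _ h3']
    exact (P_add_int r d).2 h1
  · rcases hd with rfl | rfl <;> simp <;> linarith
  · rcases hd with rfl | rfl <;> simp <;> linarith

theorem psi_T {n : ℕ} {j : ℤ} (hj : j ∈ V n) (i : ℤ) {p : Pt} (hp : p ∈ T) : psi n i j p ∈ T := by
  induction n generalizing i j p with
  | zero =>
    simp [V] at hj
    subst hj
    refine ⟨?_, by simpa [psi] using hp.2.1, by simpa [psi] using hp.2.2⟩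
    simpa [psi] using (P_add_int i 0).2 hp.1
  | succ n ih =>
    obtain ⟨j', hj', rfl | rfl⟩ := mem_V_succ.1 hj
    · have := ih hj' 0 (T_step hp i 0 (Or.inl rfl))
      convert this using 1
      simp only [psi]
      ext <;> push_cast <;> field_simp <;> ring
    · have := ih hj' 0 (T_step hp i 2 (Or.inr rfl))
      convert this using 1
      simp only [psi]
      ext <;> push_cast <;> field_simp <;> ring

/-- A digit pair of the carpet. -/
def Dig (d e : ℤ) : Prop := 0 ≤ d ∧ d ≤ 2 ∧ 0 ≤ e ∧ e ≤ 2 ∧ ¬ (d = 1 ∧ e = 1)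

theorem not_mid_digit {x : ℝ} (h0 : 0 ≤ x) (h1 : x ≤ 1) {d : ℤ} (hd0 : 0 ≤ d) (hd2 : d ≤ 2)
    (hd : d ≠ 1) : ¬ mid ((x + d) / 3) := by
  have : d = 0 ∨ d = 2 := by omega
  rcases this with rfl | rfl
  · exact not_mid_of 0 (by simp; linarith) (by simp; linarith)
  · exact not_mid_of 1 (by push_cast; linarith) (by push_cast; linarith)

theorem S_sub {q : Pt} (hq : q ∈ S) {d e : ℤ} (h : Dig d e) :
    ((q.1 + d) / 3, (q.2 + e) / 3) ∈ S := by
  obtain ⟨h1, h2, h3, h4, h5⟩ := hq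
  obtain ⟨d0, d2, e0, e2, hde⟩ := h
  have h3' : (3 : ℝ) ≠ 0 := by norm_num
  have d0' : (0 : ℝ) ≤ d := by exact_mod_cast d0
  have d2' : (d : ℝ) ≤ 2 := by exact_mod_cast d2
  have e0' : (0 : ℝ) ≤ e := by exact_mod_cast e0
  have e2' : (e : ℝ) ≤ 2 := by exact_mod_cast e2
  refine ⟨P_of_three ?_ ?_, by simp only; linarith, by simp only; linarith,
    by simp only; linarith, by simp only; linarith⟩
  · rintro ⟨ha, hb⟩
    by_cases hd : d = 1
    · exact not_mid_digit h4 h5 e0 e2 (fun he => hde ⟨hd, he⟩) hb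
    · exact not_mid_digit h2 h3 d0 d2 hd ha
  · rw [mul_div_cancel₀ _ h3', mul_div_cancel₀ _ h3']
    exact (P_add_int d e).2 h1

theorem exists_digit {x : ℝ} (h0 : 0 ≤ x) (h1 : x ≤ 1) :
    ∃ d : ℤ, 0 ≤ d ∧ d ≤ 2 ∧ (d = 1 → mid x) ∧ 0 ≤ 3 * x - d ∧ 3 * x - d ≤ 1 := by
  by_cases ha : x ≤ 1 / 3
  · exact ⟨0, le_rfl, by norm_num, by norm_num, by simp; linarith, by simp; linarith⟩
  · by_cases hb : 2 / 3 ≤ x
    · exact ⟨2, by norm_num, le_rfl, by norm_num, by push_cast; linarith, by push_cast; linarith⟩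
    · exact ⟨1, by norm_num, by norm_num, fun _ => ⟨0, by simp; linarith, by simp; linarith⟩,
        by push_cast; linarith, by push_cast; linarith⟩

theorem S_split {p : Pt} (hp : p ∈ S) : ∃ d e : ℤ, Dig d e ∧ (3 * p.1 - d, 3 * p.2 - e) ∈ S := by
  obtain ⟨h1, h2, h3, h4, h5⟩ := hp
  obtain ⟨d, d0, d2, hd, d3, d4⟩ := exists_digit h2 h3
  obtain ⟨e, e0, e2, he, e3, e4⟩ := exists_digit h4 h5
  refine ⟨d, e, ⟨d0, d2, e0, e2, fun h => h1 0 ⟨by simpa using hd h.1, by simpa using he h.2⟩⟩,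
    ?_, d3, d4, e3, e4⟩
  exact (P_sub_int d e).2 (by simpa using P_mul_pow (x := p.1) (y := p.2) h1 1)

/-- Addresses of the squares of the carpet. -/
inductive Cell : ℕ → ℤ → ℤ → Prop
  | root : Cell 0 0 0
  | step {n : ℕ} {i j d e : ℤ} : Cell n i j → Dig d e → Cell (n + 1) (3 * i + d) (3 * j + e)

theorem Cell.psi_mem {n : ℕ} {i j : ℤ} (h : Cell n i j) {p : Pt} (hp : p ∈ S) :
    psi n i j p ∈ S := by
  induction h generalizing p with
  | root => simpa [psi] using hp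
  | step _ hd ih =>
    have := ih (S_sub hp hd)
    convert this using 1
    simp only [psi]
    ext <;> push_cast <;> field_simp <;> ring

theorem exists_cell (n : ℕ) {p : Pt} (hp : p ∈ S) :
    ∃ i j : ℤ, Cell n i j ∧ (3 ^ n * p.1 - i, 3 ^ n * p.2 - j) ∈ S := by
  induction n with
  | zero => exact ⟨0, 0, Cell.root, by simpa using hp⟩
  | succ n ih =>
    obtain ⟨i, j, hc, h⟩ := ih
    obtain ⟨d, e, hd, h'⟩ := S_split h
    refine ⟨3 * i + d, 3 * j + e, Cell.step hc hd, ?_⟩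
    convert h' using 2 <;> push_cast <;> ring

theorem cell_of_mem {n : ℕ} {i j : ℤ} (h : psi n i j (1 / 3, 1 / 3) ∈ S) : Cell n i j := by
  obtain ⟨i', j', hc, -, h2, h3, h4, h5⟩ := exists_cell n h
  simp only [psi] at h2 h3 h4 h5
  rw [mul_div_cancel₀ _ (by positivity)] at h2 h3 h4 h5
  have a1 : (i' : ℝ) < i + 1 := by linarith
  have a2 : (i : ℝ) < i' + 1 := by linarith
  have a3 : (j' : ℝ) < j + 1 := by linarith
  have a4 : (j : ℝ) < j' + 1 := by linarith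
  have b1 : i' < i + 1 := by exact_mod_cast a1
  have b2 : i < i' + 1 := by exact_mod_cast a2
  have b3 : j' < j + 1 := by exact_mod_cast a3
  have b4 : j < j' + 1 := by exact_mod_cast a4
  obtain rfl : i = i' := by omega
  obtain rfl : j = j' := by omega
  exact hc

end Pool.Agent.MP_d4b492_an

end MrgPart0

-- ======== part 1: formerly Pool.Agent.MP_d4b492_an.Good
section MrgPart1

set_option autoImplicit false

open Set Filter Topology

namespace Pool.Agent.MP_d4b492_an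

/-- The taxicab norm. -/
def n1 (w : Pt) : ℝ := |w.1| + |w.2|

theorem continuous_n1 : Continuous n1 := by unfold n1; fun_prop

/-- Bi-Lipschitz maps into the periodic carpet with a taxicab bound along axis-parallel
segments. -/
structure Good (K L : ℝ) (D : Set Pt) (h : Pt → Pt) : Prop where
  maps : ∀ p ∈ D, h p ∈ P
  lo : ∀ p ∈ D, ∀ q ∈ D, dist p q ≤ K * dist (h p) (h q)
  hi : ∀ p ∈ D, ∀ q ∈ D, dist (h p) (h q) ≤ K * dist p q
  lipH : ∀ y x x' : ℝ, x ≤ x' → (∀ t, x ≤ t → t ≤ x' → (t, y) ∈ D) →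
    n1 (h (x', y) - h (x, y)) ≤ L * (x' - x)
  lipV : ∀ x y y' : ℝ, y ≤ y' → (∀ t, y ≤ t → t ≤ y' → (x, t) ∈ D) →
    n1 (h (x, y') - h (x, y)) ≤ L * (y' - y)

theorem Good.inj {K L : ℝ} {D : Set Pt} {h : Pt → Pt} (hg : Good K L D h) {p q : Pt}
    (hp : p ∈ D) (hq : q ∈ D) (e : h p = h q) : p = q := by
  have := hg.lo p hp q hq
  rw [e, dist_self, mul_zero] at this
  exact dist_le_zero.1 this

theorem cont_of_hi {K : ℝ} {D : Set Pt} {h : Pt → Pt}
    (hi : ∀ p ∈ D, ∀ q ∈ D, dist (h p) (h q) ≤ K * dist p q) : ContinuousOn h D := by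
  have : LipschitzOnWith (Real.toNNReal K) h D := by
    apply LipschitzOnWith.of_dist_le_mul
    intro p hp q hq
    exact (hi p hp q hq).trans
      (mul_le_mul_of_nonneg_right (Real.le_coe_toNNReal K) dist_nonneg)
  exact this.continuousOn

theorem Good.cont {K L : ℝ} {D : Set Pt} {h : Pt → Pt} (hg : Good K L D h) : ContinuousOn h D :=
  cont_of_hi hg.hi

theorem Good.mono {K L : ℝ} {D D' : Set Pt} {h : Pt → Pt} (hg : Good K L D h) (hD : D' ⊆ D) :
    Good K L D' h :=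
  ⟨fun p hp => hg.maps p (hD hp), fun p hp q hq => hg.lo p (hD hp) q (hD hq),
    fun p hp q hq => hg.hi p (hD hp) q (hD hq),
    fun y x x' hx ht => hg.lipH y x x' hx (fun t a b => hD (ht t a b)),
    fun x y y' hy ht => hg.lipV x y y' hy (fun t a b => hD (ht t a b))⟩

/-- Rescaling a map. -/
noncomputable def zm (n k : ℕ) (i j : ℤ) (v : ℤ × ℤ) (h : Pt → Pt) (p : Pt) : Pt :=
  (3 ^ k * (h (psi n i j p)).1 - v.1, 3 ^ k * (h (psi n i j p)).2 - v.2)

theorem zm_zero (h : Pt → Pt) : zm 0 0 0 0 (0, 0) h = h := by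
  funext p; simp [zm, psi]

theorem psi_zero (p : Pt) : psi 0 0 0 p = p := by simp [psi]

theorem dist_psi (n : ℕ) (i j : ℤ) (p q : Pt) :
    dist (psi n i j p) (psi n i j q) = dist p q / 3 ^ n := by
  have h3 : (0 : ℝ) < 3 ^ n := by positivity
  simp only [psi, Prod.dist_eq, Real.dist_eq]
  rw [← sub_div, ← sub_div, abs_div, abs_div, abs_of_pos h3, max_div_div_right h3.le]
  congr 3 <;> ring

theorem zm_sub (n k : ℕ) (i j : ℤ) (v : ℤ × ℤ) (h : Pt → Pt) (p q : Pt) :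
    zm n k i j v h p - zm n k i j v h q = (3 : ℝ) ^ k • (h (psi n i j p) - h (psi n i j q)) := by
  ext <;> simp [zm] <;> ring

theorem dist_zm (n k : ℕ) (i j : ℤ) (v : ℤ × ℤ) (h : Pt → Pt) (p q : Pt) :
    dist (zm n k i j v h p) (zm n k i j v h q) =
      3 ^ k * dist (h (psi n i j p)) (h (psi n i j q)) := by
  rw [dist_eq_norm, zm_sub, norm_smul, dist_eq_norm, Real.norm_of_nonneg (by positivity)]

theorem n1_smul {t : ℝ} (ht : 0 ≤ t) (w : Pt) : n1 (t • w) = t * n1 w := by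
  simp [n1, abs_mul, abs_of_nonneg ht, mul_add]

theorem Good.zoom' {K L K' L' : ℝ} {D D' : Set Pt} {h : Pt → Pt} (hg : Good K L D h)
    (n k : ℕ) (i j : ℤ) (v : ℤ × ℤ) (hD : ∀ p ∈ D', psi n i j p ∈ D)
    (h1 : K * 3 ^ k ≤ K' * 3 ^ n) (h2 : K * 3 ^ n ≤ K' * 3 ^ k) (h3 : L * 3 ^ k = L' * 3 ^ n) :
    Good K' L' D' (zm n k i j v h) := by
  have hn : (0 : ℝ) < 3 ^ n := by positivity
  have hk : (0 : ℝ) < 3 ^ k := by positivity
  refine ⟨?_, ?_, ?_, ?_, ?_⟩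
  · intro p hp
    exact (P_sub_int v.1 v.2).2 (P_mul_pow (hg.maps _ (hD p hp)) k)
  · intro p hp q hq
    have := hg.lo _ (hD p hp) _ (hD q hq)
    rw [dist_psi, div_le_iff₀ hn] at this
    rw [dist_zm]
    have h4 := mul_le_mul_of_nonneg_right h2
      (dist_nonneg (x := h (psi n i j p)) (y := h (psi n i j q)))
    nlinarith
  · intro p hp q hq
    have := hg.hi _ (hD p hp) _ (hD q hq)
    rw [dist_psi] at this
    rw [dist_zm]
    have h4 := mul_le_mul_of_nonneg_right h1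
      (div_nonneg (dist_nonneg (x := p) (y := q)) hn.le)
    have h5 : K' * 3 ^ n * (dist p q / 3 ^ n) = K' * dist p q := by field_simp
    nlinarith
  · intro y x x' hx ht
    rw [zm_sub, n1_smul hk.le]
    have := hg.lipH ((y + j) / 3 ^ n) ((x + i) / 3 ^ n) ((x' + i) / 3 ^ n) (by gcongr) (by
      intro t a b
      rw [div_le_iff₀ hn] at a
      rw [le_div_iff₀ hn] at b
      have := hD _ (ht (t * 3 ^ n - i) (by linarith) (by linarith))
      simpa [psi, hn.ne'] using this)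
    have h5 : 3 ^ k * (L * ((x' + i) / 3 ^ n - (x + i) / 3 ^ n)) = L' * (x' - x) := by
      field_simp
      linear_combination (x' - x) * h3
    rw [← h5]
    exact mul_le_mul_of_nonneg_left this hk.le
  · intro x y y' hy ht
    rw [zm_sub, n1_smul hk.le]
    have := hg.lipV ((x + i) / 3 ^ n) ((y + j) / 3 ^ n) ((y' + j) / 3 ^ n) (by gcongr) (by
      intro t a b
      rw [div_le_iff₀ hn] at a
      rw [le_div_iff₀ hn] at b
      have := hD _ (ht (t * 3 ^ n - j) (by linarith) (by linarith))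
      simpa [psi, hn.ne'] using this)
    have h5 : 3 ^ k * (L * ((y' + j) / 3 ^ n - (y + j) / 3 ^ n)) = L' * (y' - y) := by
      field_simp
      linear_combination (y' - y) * h3
    rw [← h5]
    exact mul_le_mul_of_nonneg_left this hk.le

theorem Good.zoom {K L : ℝ} {D D' : Set Pt} {h : Pt → Pt} (hg : Good K L D h)
    (n : ℕ) (i j : ℤ) (v : ℤ × ℤ) (hD : ∀ p ∈ D', psi n i j p ∈ D) :
    Good K L D' (zm n n i j v h) :=
  hg.zoom' n n i j v hD le_rfl le_rfl rfl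

/-- Reflection in the vertical axis. -/
def ngx (p : Pt) : Pt := (-p.1, p.2)

/-- Reflection in the horizontal axis. -/
def ngy (p : Pt) : Pt := (p.1, -p.2)

theorem dist_ngx (p q : Pt) : dist (ngx p) (ngx q) = dist p q := by
  simp [ngx, Prod.dist_eq]

theorem dist_ngy (p q : Pt) : dist (ngy p) (ngy q) = dist p q := by
  simp [ngy, Prod.dist_eq]

theorem dist_swap (p q : Pt) : dist (Prod.swap p) (Prod.swap q) = dist p q := by
  simp [Prod.dist_eq, max_comm]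

theorem n1_sub_comm (a b : Pt) : n1 (a - b) = n1 (b - a) := by
  simp [n1, abs_sub_comm]

theorem Good.target {K L : ℝ} {D : Set Pt} {h : Pt → Pt} (hg : Good K L D h) (ρ : Pt → Pt)
    (h1 : ∀ p ∈ P, ρ p ∈ P) (h2 : ∀ p q, dist (ρ p) (ρ q) = dist p q)
    (h3 : ∀ p q, n1 (ρ p - ρ q) = n1 (p - q)) : Good K L D (fun p => ρ (h p)) :=
  ⟨fun p hp => h1 _ (hg.maps p hp), fun p hp q hq => by rw [h2]; exact hg.lo p hp q hq,
    fun p hp q hq => by rw [h2]; exact hg.hi p hp q hq,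
    fun y x x' hx ht => by rw [h3]; exact hg.lipH y x x' hx ht,
    fun x y y' hy ht => by rw [h3]; exact hg.lipV x y y' hy ht⟩

theorem Good.tswap {K L : ℝ} {D : Set Pt} {h : Pt → Pt} (hg : Good K L D h) :
    Good K L D (fun p => Prod.swap (h p)) :=
  hg.target _ (fun _ hp => P_swap.2 hp) dist_swap (fun p q => by simp [n1, add_comm])

theorem Good.tngx {K L : ℝ} {D : Set Pt} {h : Pt → Pt} (hg : Good K L D h) :
    Good K L D (fun p => ngx (h p)) :=
  hg.target _ (fun _ hp => P_negx.2 hp) dist_ngx (fun p q => by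
    simp only [n1, ngx, Prod.fst_sub, Prod.snd_sub]
    rw [show -p.1 - -q.1 = -(p.1 - q.1) by ring, abs_neg])

theorem Good.tngy {K L : ℝ} {D : Set Pt} {h : Pt → Pt} (hg : Good K L D h) :
    Good K L D (fun p => ngy (h p)) :=
  hg.target _ (fun _ hp => P_negy.2 hp) dist_ngy (fun p q => by
    simp only [n1, ngy, Prod.fst_sub, Prod.snd_sub]
    rw [show -p.2 - -q.2 = -(p.2 - q.2) by ring, abs_neg])

theorem Good.dswap {K L : ℝ} {D D' : Set Pt} {h : Pt → Pt} (hg : Good K L D h)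
    (hD : ∀ p ∈ D', Prod.swap p ∈ D) : Good K L D' (fun p => h (Prod.swap p)) :=
  ⟨fun p hp => hg.maps _ (hD p hp),
    fun p hp q hq => by rw [← dist_swap]; exact hg.lo _ (hD p hp) _ (hD q hq),
    fun p hp q hq => by rw [← dist_swap p]; exact hg.hi _ (hD p hp) _ (hD q hq),
    fun y x x' hx ht => hg.lipV y x x' hx (fun t a b => hD _ (ht t a b)),
    fun x y y' hy ht => hg.lipH x y y' hy (fun t a b => hD _ (ht t a b))⟩

theorem Good.dngx {K L : ℝ} {D D' : Set Pt} {h : Pt → Pt} (hg : Good K L D h)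
    (hD : ∀ p ∈ D', ngx p ∈ D) : Good K L D' (fun p => h (ngx p)) := by
  refine ⟨fun p hp => hg.maps _ (hD p hp),
    fun p hp q hq => by rw [← dist_ngx]; exact hg.lo _ (hD p hp) _ (hD q hq),
    fun p hp q hq => by rw [← dist_ngx p]; exact hg.hi _ (hD p hp) _ (hD q hq), ?_,
    fun x y y' hy ht => hg.lipV (-x) y y' hy (fun t a b => hD _ (ht t a b))⟩
  intro y x x' hx ht
  have := hg.lipH y (-x') (-x) (by linarith) (fun t a b => by
    simpa [ngx] using hD _ (ht (-t) (by linarith) (by linarith)))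
  rw [n1_sub_comm] at this
  simp only [ngx]
  linarith

/-- Pointwise convergence on the row along the hyperfilter. -/
def Lim (g : ℕ → Pt → Pt) (G : Pt → Pt) : Prop :=
  ∀ p ∈ T, Tendsto (fun k => g k p) (hyperfilter ℕ : Filter ℕ) (𝓝 (G p))

theorem hyper_le : (hyperfilter ℕ : Filter ℕ) ≤ atTop := Nat.hyperfilter_le_atTop

theorem exists_lim (g : ℕ → Pt → Pt) (hb : ∀ p ∈ T, ∃ R : ℝ, ∀ᶠ k in atTop, ‖g k p‖ ≤ R) :
    ∃ G, Lim g G := by
  have : ∀ p : Pt, ∃ z : Pt, p ∈ T →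
      Tendsto (fun k => g k p) (hyperfilter ℕ : Filter ℕ) (𝓝 z) := by
    intro p
    by_cases hp : p ∈ T
    · obtain ⟨R, hR⟩ := hb p hp
      obtain ⟨z, -, hz⟩ := (isCompact_closedBall (0 : Pt) R).ultrafilter_le_nhds
        ((hyperfilter ℕ).map (fun k => g k p)) (by
          rw [Ultrafilter.coe_map, le_principal_iff, mem_map]
          filter_upwards [hyper_le hR] with k hk
          simpa using hk)
      exact ⟨z, fun _ => hz⟩
    · exact ⟨0, fun h => absurd h hp⟩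
  choose G hG using this
  exact ⟨G, hG⟩

theorem ev_abs (x : ℝ) : ∀ᶠ k : ℕ in atTop, -(k : ℝ) ≤ x ∧ x ≤ k := by
  filter_upwards [tendsto_natCast_atTop_atTop.eventually_ge_atTop |x|] with k hk
  exact abs_le.1 hk

theorem ev_mem_W {p : Pt} (hp : p ∈ T) :
    ∀ᶠ k : ℕ in (hyperfilter ℕ : Filter ℕ), p ∈ W (-k) k := by
  filter_upwards [hyper_le (ev_abs p.1)] with k hk
  exact ⟨hp.1, hk.1, hk.2, hp.2⟩

/-- Properties that pass to rescalings along Cantor rows and to limits. -/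
structure Her (Q : Set Pt → (Pt → Pt) → Prop) : Prop where
  lim : ∀ g G, (∀ k : ℕ, Q (W (-k) k) (g k)) → Lim g G → Q T G
  zoom : ∀ D D' h n i j v, j ∈ V n → Q D h → (∀ p ∈ D', psi n i j p ∈ D) →
    Q D' (zm n n i j v h)

theorem Her.mono {Q : Set Pt → (Pt → Pt) → Prop} (hQ : Her Q) {D D' : Set Pt} {h : Pt → Pt}
    (H : Q D h) (hD : D' ⊆ D) : Q D' h := by
  have := hQ.zoom D D' h 0 0 0 (0, 0) (zero_mem_V 0) H (fun p hp => by
    rw [psi_zero]; exact hD hp)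
  rwa [zm_zero] at this

theorem Her.and {Q R : Set Pt → (Pt → Pt) → Prop} (hQ : Her Q) (hR : Her R) :
    Her (fun D h => Q D h ∧ R D h) :=
  ⟨fun g G H l => ⟨hQ.lim g G (fun k => (H k).1) l, hR.lim g G (fun k => (H k).2) l⟩,
    fun D D' h n i j v hj H hD =>
      ⟨hQ.zoom D D' h n i j v hj H.1 hD, hR.zoom D D' h n i j v hj H.2 hD⟩⟩

theorem good_lim {K L : ℝ} (g : ℕ → Pt → Pt) (G : Pt → Pt)
    (H : ∀ k : ℕ, Good K L (W (-k) k) (g k)) (l : Lim g G) : Good K L T G := by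
  refine ⟨?_, ?_, ?_, ?_, ?_⟩
  · intro p hp
    refine isClosed_P.mem_of_tendsto (l p hp) ?_
    filter_upwards [ev_mem_W hp] with k hk using (H k).maps p hk
  · intro p hp q hq
    refine ge_of_tendsto (((l p hp).dist (l q hq)).const_mul K) ?_
    filter_upwards [ev_mem_W hp, ev_mem_W hq] with k hk hk' using (H k).lo p hk q hk'
  · intro p hp q hq
    refine le_of_tendsto ((l p hp).dist (l q hq)) ?_
    filter_upwards [ev_mem_W hp, ev_mem_W hq] with k hk hk' using (H k).hi p hk q hk'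
  · intro y x x' hx ht
    have hp := ht x le_rfl hx
    have hq := ht x' hx le_rfl
    refine le_of_tendsto ((continuous_n1.tendsto _).comp ((l _ hq).sub (l _ hp))) ?_
    filter_upwards [ev_mem_W hp, ev_mem_W hq] with k hk hk'
    exact (H k).lipH y x x' hx (fun t a b =>
      ⟨(ht t a b).1, hk.2.1.trans a, b.trans hk'.2.2.1, (ht t a b).2⟩)
  · intro x y y' hy ht
    have hp := ht y le_rfl hy
    have hq := ht y' hy le_rfl
    refine le_of_tendsto ((continuous_n1.tendsto _).comp ((l _ hq).sub (l _ hp))) ?_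
    filter_upwards [ev_mem_W hp] with k hk
    exact (H k).lipV x y y' hy (fun t a b => ⟨(ht t a b).1, hk.2.1, hk.2.2.1, (ht t a b).2⟩)

theorem her_good (K L : ℝ) : Her (Good K L) :=
  ⟨good_lim, fun _ _ _ n i j v _ H hD => H.zoom n i j v hD⟩

/-- A two-point condition on Cantor lines. -/
def Two (R : Pt → Pt → Prop) (D : Set Pt) (h : Pt → Pt) : Prop :=
  ∀ p ∈ D, ∀ q ∈ D, p.2 ∈ C → q.2 ∈ C → R (p - q) (h p - h q)

theorem her_two {R : Pt → Pt → Prop} (hcl : ∀ d, IsClosed {w | R d w})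
    (hsc : ∀ (d w : Pt) (t : ℝ), 0 < t → R d w → R (t • d) (t • w)) : Her (Two R) := by
  refine ⟨?_, ?_⟩
  · intro g G H l p hp q hq hp2 hq2
    refine (hcl _).mem_of_tendsto ((l p hp).sub (l q hq)) ?_
    filter_upwards [ev_mem_W hp, ev_mem_W hq] with k hk hk' using H k p hk q hk' hp2 hq2
  · intro D D' h n i j v hj H hD p hp q hq hp2 hq2
    have := hsc _ _ (3 ^ n) (by positivity)
      (H _ (hD p hp) _ (hD q hq) (V_C hj hp2) (V_C hj hq2))
    rw [zm_sub]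
    convert this using 1
    ext <;> simp [psi] <;> field_simp <;> ring

theorem Her.target {Q : Set Pt → (Pt → Pt) → Prop} (hQ : Her Q) (ρ : Pt → Pt)
    (hc : Continuous ρ) (σ : ℤ × ℤ → ℤ × ℤ)
    (hz : ∀ (t : ℝ) (a : Pt) (v : ℤ × ℤ), ρ (t * a.1 - v.1, t * a.2 - v.2) =
      (t * (ρ a).1 - (σ v).1, t * (ρ a).2 - (σ v).2)) :
    Her (fun D h => Q D (fun p => ρ (h p))) := by
  refine ⟨?_, ?_⟩
  · intro g G H l
    exact hQ.lim _ _ H (fun p hp => (hc.tendsto _).comp (l p hp))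
  · intro D D' h n i j v hj H hD
    have := hQ.zoom D D' _ n i j (σ v) hj H hD
    convert this using 2 with p
    exact hz _ _ _

theorem Her.tswap {Q : Set Pt → (Pt → Pt) → Prop} (hQ : Her Q) :
    Her (fun D h => Q D (fun p => Prod.swap (h p))) :=
  hQ.target _ continuous_swap Prod.swap (fun _ _ _ => rfl)

theorem Her.tngy {Q : Set Pt → (Pt → Pt) → Prop} (hQ : Her Q) :
    Her (fun D h => Q D (fun p => ngy (h p))) :=
  hQ.target _ (by unfold ngy; fun_prop) (fun v => (v.1, -v.2)) (fun t a v => by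
    simp only [ngy]; ext <;> simp; ring)

end Pool.Agent.MP_d4b492_an

end MrgPart1

-- ======== part 2: formerly Pool.Agent.MP_d4b492_an.Tangent
section MrgPart2

set_option autoImplicit false

open Set Filter Topology

namespace Pool.Agent.MP_d4b492_an

/-- A linear functional on the plane. -/
def ph (α β : ℝ) (w : Pt) : ℝ := α * w.1 + β * w.2

theorem continuous_ph (α β : ℝ) : Continuous (ph α β) := by unfold ph; fun_prop

theorem ph_sub (α β : ℝ) (a b : Pt) : ph α β (a - b) = ph α β a - ph α β b := by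
  simp [ph]; ring

theorem ph_smul (α β t : ℝ) (a : Pt) : ph α β (t • a) = t * ph α β a := by
  simp [ph]; ring

theorem abs_ph_le (α β : ℝ) (a b : Pt) : |ph α β (a - b)| ≤ (|α| + |β|) * dist a b := by
  have h1 : |a.1 - b.1| ≤ dist a b := by rw [Prod.dist_eq]; exact le_max_left _ _
  have h2 : |a.2 - b.2| ≤ dist a b := by rw [Prod.dist_eq]; exact le_max_right _ _
  calc |ph α β (a - b)| ≤ |α * (a.1 - b.1)| + |β * (a.2 - b.2)| := abs_add_le _ _
    _ = |α| * |a.1 - b.1| + |β| * |a.2 - b.2| := by rw [abs_mul, abs_mul]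
    _ ≤ |α| * dist a b + |β| * dist a b := by gcongr
    _ = _ := by ring

/-- One-sided bound for the functional along horizontal Cantor lines. -/
def Bd (α β m : ℝ) : Set Pt → (Pt → Pt) → Prop :=
  Two (fun d w => d.2 = 0 → 0 ≤ d.1 → ph α β w ≤ m * d.1)

theorem her_bd (α β m : ℝ) : Her (Bd α β m) := by
  apply her_two
  · intro d
    by_cases h : d.2 = 0 ∧ 0 ≤ d.1
    · simp only [h.1, h.2, forall_const]
      exact isClosed_le (continuous_ph α β) continuous_const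
    · have : {w | d.2 = 0 → 0 ≤ d.1 → ph α β w ≤ m * d.1} = univ := by
        ext w; simp only [mem_ofPred_eq, mem_univ, iff_true]
        exact fun a b => absurd ⟨a, b⟩ h
      rw [this]; exact isClosed_univ
  · intro d w t ht H h1 h2
    simp only [Prod.smul_snd, Prod.smul_fst, smul_eq_mul] at h1 h2 ⊢
    have h3 : d.2 = 0 := by simpa [ht.ne'] using h1
    have h4 : 0 ≤ d.1 := by
      by_contra hc
      nlinarith
    rw [ph_smul]
    nlinarith [H h3 h4]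

theorem Bd.le {α β m : ℝ} {D : Set Pt} {h : Pt → Pt} (H : Bd α β m D h) {c x x' : ℝ}
    (hc : c ∈ C) (hx : x ≤ x') (h1 : (x, c) ∈ D) (h2 : (x', c) ∈ D) :
    ph α β (h (x', c) - h (x, c)) ≤ m * (x' - x) :=
  H _ h2 _ h1 hc hc (by simp) (by simpa using hx)

/-- Horizontal integer shift, normalised to stay bounded. -/
noncomputable def sh (i : ℤ) (g : Pt → Pt) : Pt → Pt :=
  zm 0 0 i 0 (⌊(g (i, 0)).1⌋, ⌊(g (i, 0)).2⌋) g

theorem norm_zm_floor (n : ℕ) (i j : ℤ) (h : Pt → Pt) :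
    ‖zm n n i j (⌊3 ^ n * (h (psi n i j (0, 0))).1⌋, ⌊3 ^ n * (h (psi n i j (0, 0))).2⌋) h (0, 0)‖
      ≤ 1 := by
  simp only [zm, Prod.norm_def, Real.norm_eq_abs, max_le_iff, abs_le]
  refine ⟨⟨?_, ?_⟩, ?_, ?_⟩
  · linarith [Int.floor_le (3 ^ n * (h (psi n i j (0, 0))).1)]
  · linarith [Int.lt_floor_add_one (3 ^ n * (h (psi n i j (0, 0))).1)]
  · linarith [Int.floor_le (3 ^ n * (h (psi n i j (0, 0))).2)]
  · linarith [Int.lt_floor_add_one (3 ^ n * (h (psi n i j (0, 0))).2)]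

theorem norm_le_of {g : Pt → Pt} {p : Pt} {R : ℝ} (h0 : ‖g (0, 0)‖ ≤ 1)
    (h1 : dist (g p) (g (0, 0)) ≤ R) : ‖g p‖ ≤ R + 1 := by
  have := norm_le_norm_add_norm_sub' (g p) (g (0, 0))
  rw [dist_eq_norm] at h1
  linarith

theorem zero_mem_T : ((0 : ℝ), (0 : ℝ)) ∈ T := line_mem_T zero_mem_C 0

theorem second_limit (Q : (Pt → Pt) → Prop) (hlim : ∀ g G, (∀ k, Q (g k)) → Lim g G → Q G)
    (hsh : ∀ g (i : ℤ), Q g → Q (sh i g)) {K α β m : ℝ} {g : Pt → Pt} (hg : Q g)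
    (hhi : ∀ p ∈ T, ∀ q ∈ T, dist (g p) (g q) ≤ K * dist p q) (hbd : Bd α β m T g)
    {c0 : ℝ} (hc0 : c0 ∈ C) (heq : ∀ x x', ph α β (g (x', c0) - g (x, c0)) = m * (x' - x)) :
    ∃ G, Q G ∧ ∀ c ∈ C, ∀ x x', ph α β (G (x', c) - G (x, c)) = m * (x' - x) := by
  obtain ⟨G, hG⟩ := exists_lim (fun k => sh k g) (by
    intro p hp
    refine ⟨K * dist p (0, 0) + 1, Eventually.of_forall fun k => norm_le_of ?_ ?_⟩
    · have := norm_zm_floor 0 k 0 g
      simpa [sh, psi] using this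
    · simp only [sh]
      rw [dist_zm]
      have := hhi _ (psi_T (zero_mem_V 0) k hp) _ (psi_T (zero_mem_V 0) k zero_mem_T)
      rw [dist_psi] at this
      simpa using this)
  refine ⟨G, hlim _ G (fun k => hsh g k hg) hG, ?_⟩
  intro c hc x x'
  let D : ℝ → ℝ := fun t => m * t - ph α β (g (t, c))
  have hmono : Monotone D := by
    intro t t' ht
    have := hbd.le hc ht (line_mem_T hc t) (line_mem_T hc t')
    rw [ph_sub] at this
    simp only [D]
    linarith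
  have hbdd : BddAbove (range D) := by
    refine ⟨(|α| + |β|) * (K * dist c0 c) - ph α β (g (0, c0)), ?_⟩
    rintro _ ⟨t, rfl⟩
    have h1 := heq 0 t
    have h2 := abs_ph_le α β (g (t, c0)) (g (t, c))
    have h3 := hhi _ (line_mem_T hc0 t) _ (line_mem_T hc t)
    have h4 : dist (t, c0) (t, c) = dist c0 c := by simp [Prod.dist_eq]
    rw [h4] at h3
    have h5 := mul_le_mul_of_nonneg_left h3 (by positivity : 0 ≤ |α| + |β|)
    have h6 := le_abs_self (ph α β (g (t, c0) - g (t, c)))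
    rw [ph_sub] at h1 h6 h2
    simp only [D]
    linarith
  have ht := tendsto_atTop_ciSup hmono hbdd
  have hk : ∀ y : ℝ, Tendsto (fun k : ℕ => D (y + k)) atTop (𝓝 (⨆ i, D i)) := fun y =>
    ht.comp (tendsto_atTop_add_const_left _ y tendsto_natCast_atTop_atTop)
  have h1 : Tendsto (fun k : ℕ => m * (x' - x) - (D (x' + k) - D (x + k))) atTop
      (𝓝 (m * (x' - x) - ((⨆ i, D i) - ⨆ i, D i))) := ((hk x').sub (hk x)).const_sub _
  rw [sub_self, sub_zero] at h1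
  have h2 := ((continuous_ph α β).tendsto _).comp
    ((hG _ (line_mem_T hc x')).sub (hG _ (line_mem_T hc x)))
  refine tendsto_nhds_unique h2 ((h1.mono_left hyper_le).congr fun k => ?_)
  simp only [Function.comp, sh, zm_sub, psi, D]
  simp [ph_sub]
  ring

theorem first_window {Q : Set Pt → (Pt → Pt) → Prop} (hQ : Her Q) {α β m : ℝ}
    (hb : ∀ D h, Q D h → Bd α β m D h)
    (H : ∀ δ > 0, ∃ h, Q S h ∧ ∃ c ∈ C, ∃ x x', 0 ≤ x ∧ x < x' ∧ x' ≤ 1 ∧
      (m - δ) * (x' - x) ≤ ph α β (h (x', c) - h (x, c))) (M : ℕ) :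
    ∃ g c, Q (W (-M) M) g ∧ ‖g (0, 0)‖ ≤ 1 ∧ c ∈ C ∧ ∀ y y' : ℝ, -(M : ℝ) ≤ y → y ≤ y' → y' ≤ M →
      m * (y' - y) - 1 / (M + 1) ≤ ph α β (g (y', c) - g (y, c)) := by
  have hM : (0 : ℝ) ≤ M := Nat.cast_nonneg M
  obtain ⟨h, hh, c, hc, x, x', hx0, hx, hx1, hph⟩ :=
    H (1 / ((M + 1) * (3 * (2 * M + 2)))) (by positivity)
  have hl : 0 < x' - x := by linarith
  obtain ⟨n, hn1, hn2⟩ := exists_nat_pow_near (x := (2 * M + 2) / (x' - x)) (y := (3 : ℝ))
    (by rw [le_div_iff₀ hl]; linarith) (by norm_num)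
  rw [le_div_iff₀ hl] at hn1
  rw [div_lt_iff₀ hl] at hn2
  set N := n + 1 with hN
  have h3 : (0 : ℝ) < 3 ^ N := by positivity
  have hn3 : 3 ^ N * (x' - x) ≤ 3 * (2 * M + 2) := by
    rw [hN, pow_succ]; linarith
  obtain ⟨j, hj, hc'⟩ := exists_V N hc
  set i : ℤ := ⌈3 ^ N * x⌉ + M with hi
  have hi1 : 3 ^ N * x + M ≤ i := by
    rw [hi]; push_cast; linarith [Int.le_ceil (3 ^ N * x)]
  have hi2 : (i : ℝ) + M ≤ 3 ^ N * x' := by
    rw [hi]; push_cast; linarith [Int.ceil_lt_add_one (3 ^ N * x)]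
  have hlo : ∀ y : ℝ, -(M : ℝ) ≤ y → x ≤ (y + i) / 3 ^ N := fun y hy => by
    rw [le_div_iff₀ h3]; linarith
  have hup : ∀ y : ℝ, y ≤ M → (y + i) / 3 ^ N ≤ x' := fun y hy => by
    rw [div_le_iff₀ h3]; linarith
  have hmem : ∀ p ∈ W (-M) M, psi N i j p ∈ S := by
    intro p hp
    have := psi_T hj i (W_subset_T _ _ hp)
    exact ⟨this.1, hx0.trans (hlo _ hp.2.1), (hup _ hp.2.2.1).trans hx1, this.2⟩
  refine ⟨_, 3 ^ N * c - j, hQ.zoom _ _ _ N i j _ hj hh hmem, norm_zm_floor N i j h, hc', ?_⟩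
  intro y y' hy hyy hy'
  rw [zm_sub, ph_smul]
  have e1 : ∀ y : ℝ, psi N i j (y, 3 ^ N * c - j) = ((y + i) / 3 ^ N, c) := fun y => by
    simp only [psi]; congr 1; field_simp; ring
  rw [e1, e1]
  have b := hb _ _ hh
  have a1 := hlo y hy
  have a2 := hup y' hy'
  have a3 : (y + i) / 3 ^ N ≤ (y' + i) / 3 ^ N := by gcongr
  have b1 := b.le hc a1 (line_mem_W hc hx0 (by linarith)) (line_mem_W hc (by linarith) (by linarith))
  have b2 := b.le hc a2 (line_mem_W hc (by linarith) (by linarith)) (line_mem_W hc (by linarith) hx1)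
  rw [ph_sub] at b1 b2 hph ⊢
  have e2 : 3 ^ N * ((y' + i) / 3 ^ N - (y + i) / 3 ^ N) = y' - y := by field_simp; ring
  have e3 : 1 / ((M + 1) * (3 * (2 * M + 2))) * (3 ^ N * (x' - x)) ≤ 1 / ((M : ℝ) + 1) := by
    calc _ ≤ 1 / (((M : ℝ) + 1) * (3 * (2 * M + 2))) * (3 * (2 * M + 2)) := by gcongr
      _ = _ := by field_simp
  have e4 : m * ((y' + i) / 3 ^ N - (y + i) / 3 ^ N) -
      1 / ((M + 1) * (3 * (2 * M + 2))) * (x' - x) ≤
      ph α β (h ((y' + i) / 3 ^ N, c)) - ph α β (h ((y + i) / 3 ^ N, c)) := by linarith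
  have e5 := mul_le_mul_of_nonneg_left e4 h3.le
  have e6 : 3 ^ N * (m * ((y' + i) / 3 ^ N - (y + i) / 3 ^ N) -
      1 / ((M + 1) * (3 * (2 * M + 2))) * (x' - x)) =
      m * (y' - y) - 1 / ((M + 1) * (3 * (2 * M + 2))) * (3 ^ N * (x' - x)) := by
    rw [← e2]; ring
  linarith

/-- The tangent lemma: near-extremal segments give a tangent map that is extremal on every
Cantor line. -/
theorem tangent {Q : Set Pt → (Pt → Pt) → Prop} (hQ : Her Q) {K L α β m : ℝ}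
    (hg : ∀ D h, Q D h → Good K L D h) (hb : ∀ D h, Q D h → Bd α β m D h)
    (H : ∀ δ > 0, ∃ h, Q S h ∧ ∃ c ∈ C, ∃ x x', 0 ≤ x ∧ x < x' ∧ x' ≤ 1 ∧
      (m - δ) * (x' - x) ≤ ph α β (h (x', c) - h (x, c))) :
    ∃ G, Q T G ∧ ∀ c ∈ C, ∀ x x', ph α β (G (x', c) - G (x, c)) = m * (x' - x) := by
  choose g c hgQ hg0 hc hph using first_window hQ hb H
  obtain ⟨G, hG⟩ := exists_lim g (by
    intro p hp
    refine ⟨K * dist p (0, 0) + 1, ?_⟩
    filter_upwards [ev_abs p.1] with k hk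
    exact norm_le_of (hg0 k) ((hg _ _ (hgQ k)).hi _ ⟨hp.1, hk.1, hk.2, hp.2⟩ _
      (line_mem_W zero_mem_C (by simp) (by simp))))
  have hGQ := hQ.lim g G hgQ hG
  obtain ⟨c0, hc0, hcl⟩ := isCompact_C.ultrafilter_le_nhds ((hyperfilter ℕ).map c) (by
    rw [Ultrafilter.coe_map, le_principal_iff, mem_map]
    exact Eventually.of_forall hc)
  have hcl' : Tendsto c (hyperfilter ℕ : Filter ℕ) (𝓝 c0) := hcl
  have hle : ∀ x x', x ≤ x' → ph α β (G (x', c0) - G (x, c0)) = m * (x' - x) := by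
    intro x x' hx
    refine le_antisymm ((hb _ _ hGQ).le hc0 hx (line_mem_T hc0 x) (line_mem_T hc0 x')) ?_
    have h2 := ((continuous_ph α β).tendsto _).comp
      ((hG _ (line_mem_T hc0 x')).sub (hG _ (line_mem_T hc0 x)))
    have h3 : Tendsto (fun k : ℕ => m * (x' - x) - 1 / ((k : ℝ) + 1) -
        2 * ((|α| + |β|) * (K * dist (c k) c0))) (hyperfilter ℕ : Filter ℕ)
        (𝓝 (m * (x' - x) - 0 - 2 * ((|α| + |β|) * (K * dist c0 c0)))) := by
      refine Tendsto.sub (Tendsto.const_sub _ ?_) ?_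
      · exact tendsto_one_div_add_atTop_nhds_zero_nat.mono_left hyper_le
      · exact (((hcl'.dist tendsto_const_nhds).const_mul K).const_mul _).const_mul 2
    simp only [dist_self, mul_zero, sub_zero] at h3
    refine le_of_tendsto_of_tendsto h3 h2 ?_
    filter_upwards [hyper_le (ev_abs x), hyper_le (ev_abs x')] with k hk hk'
    have a1 := hph k x x' hk.1 hx hk'.2
    have gd := hg _ _ (hgQ k)
    have a2 : ∀ y : ℝ, -(k : ℝ) ≤ y → y ≤ k →
        |ph α β (g k (y, c k) - g k (y, c0))| ≤ (|α| + |β|) * (K * dist (c k) c0) := by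
      intro y h1 h2
      refine (abs_ph_le _ _ _ _).trans (mul_le_mul_of_nonneg_left ?_ (by positivity))
      have := gd.hi _ (line_mem_W (hc k) h1 h2) _ (line_mem_W hc0 h1 h2)
      simpa [Prod.dist_eq] using this
    have a3 := abs_le.1 (a2 x hk.1 hk.2)
    have a4 := abs_le.1 (a2 x' hk'.1 hk'.2)
    simp only [Function.comp, ph_sub] at a1 a3 a4 ⊢
    linarith [a3.1, a4.2]
  refine second_limit (Q T) (fun g G H l => hQ.lim g G
    (fun k => hQ.mono (H k) (W_subset_T _ _)) l) ?_ hGQ (hg _ _ hGQ).hi (hb _ _ hGQ) hc0 ?_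
  · intro g i H
    exact hQ.zoom _ _ _ 0 i 0 _ (zero_mem_V 0) H (fun p hp => psi_T (zero_mem_V 0) i hp)
  · intro x x'
    rcases le_total x x' with hx | hx
    · exact hle x x' hx
    · have := hle x' x hx
      rw [ph_sub] at this ⊢
      linarith

/-- The best constant for a single map on the unit carpet. -/
theorem exists_best {K L : ℝ} {h : Pt → Pt} (hg : Good K L S h) (α β : ℝ) :
    ∃ m, Bd α β m S h ∧ ∀ δ > 0, ∃ c ∈ C, ∃ x x', 0 ≤ x ∧ x < x' ∧ x' ≤ 1 ∧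
      (m - δ) * (x' - x) ≤ ph α β (h (x', c) - h (x, c)) := by
  let A : Set ℝ := {r | ∃ c ∈ C, ∃ x x', 0 ≤ x ∧ x < x' ∧ x' ≤ 1 ∧
    r = ph α β (h (x', c) - h (x, c)) / (x' - x)}
  have hne : A.Nonempty := ⟨_, 0, zero_mem_C, 0, 1, le_rfl, zero_lt_one, le_rfl, rfl⟩
  have hbdd : BddAbove A := by
    refine ⟨(|α| + |β|) * K, ?_⟩
    rintro _ ⟨c, hc, x, x', h0, hx, h1, rfl⟩
    have hl : 0 < x' - x := by linarith
    rw [div_le_iff₀ hl]
    have a1 := abs_ph_le α β (h (x', c)) (h (x, c))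
    have a2 := hg.hi _ (line_mem_W hc (by linarith) h1) _ (line_mem_W hc h0 (by linarith))
    have a3 : dist (x', c) (x, c) = x' - x := by
      simp [Prod.dist_eq, Real.dist_eq, abs_of_pos hl, hx.le]
    rw [a3] at a2
    have a4 := mul_le_mul_of_nonneg_left a2 (by positivity : 0 ≤ |α| + |β|)
    linarith [le_abs_self (ph α β (h (x', c) - h (x, c)))]
  refine ⟨sSup A, ?_, ?_⟩
  · rintro ⟨x', c⟩ hp ⟨x, c'⟩ hq hc - h1 h2
    simp only [Prod.mk_sub_mk] at h1 h2 ⊢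
    obtain rfl : c = c' := by linarith
    rcases eq_or_lt_of_le h2 with h3 | h3
    · obtain rfl : x' = x := by linarith
      simp [ph]
    · have := le_csSup hbdd ⟨c, hc, x, x', hq.2.1, by linarith, hp.2.2.1, rfl⟩
      rwa [div_le_iff₀ h3] at this
  · intro δ hδ
    obtain ⟨_, ⟨c, hc, x, x', h0, hx, h1, rfl⟩, hr⟩ :=
      exists_lt_of_lt_csSup hne (by linarith : sSup A - δ < sSup A)
    refine ⟨c, hc, x, x', h0, hx, h1, ?_⟩
    rw [lt_div_iff₀ (by linarith)] at hr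
    exact hr.le

/-- Tangent lemma for a single map. -/
theorem tangent_single {Q : Set Pt → (Pt → Pt) → Prop} (hQ : Her Q) {K L : ℝ}
    (hg : ∀ D h, Q D h → Good K L D h) {h : Pt → Pt} (hh : Q S h) (α β : ℝ) :
    ∃ m G, Bd α β m S h ∧ Q T G ∧
      ∀ c ∈ C, ∀ x x', ph α β (G (x', c) - G (x, c)) = m * (x' - x) := by
  obtain ⟨m, h1, h2⟩ := exists_best (hg _ _ hh) α β
  obtain ⟨G, hG, hG'⟩ := tangent (hQ.and (her_bd α β m)) (fun D h H => hg D h H.1)
    (fun D h H => H.2) (fun δ hδ => ⟨h, ⟨hh, h1⟩, h2 δ hδ⟩)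
  exact ⟨m, G, h1, hG.1, hG'⟩

end Pool.Agent.MP_d4b492_an

end MrgPart2

-- ======== part 3: formerly Pool.Agent.MP_d4b492_an.Count
section MrgPart3

set_option autoImplicit false

open Set Filter Topology

namespace Pool.Agent.MP_d4b492_an

theorem gap_C {c1 c2 : ℝ} (h1 : c1 ∈ C) (h2 : c2 ∈ C) (h : c1 < c2)
    (hno : ∀ y ∈ C, c1 < y → y < c2 → False) :
    ∃ n : ℕ, ∃ i ∈ V n, c1 = (1 / 3 + i) / 3 ^ n ∧ c2 = (2 / 3 + i) / 3 ^ n := by
  classical
  have hex : ∃ n : ℕ, ¬ ∃ i ∈ V n, 3 ^ n * c1 - i ∈ C ∧ 3 ^ n * c2 - i ∈ C := by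
    obtain ⟨n, hn⟩ := pow_unbounded_of_one_lt (1 / (c2 - c1)) (by norm_num : (1 : ℝ) < 3)
    refine ⟨n, ?_⟩
    rintro ⟨i, -, a, b⟩
    rw [div_lt_iff₀ (by linarith)] at hn
    linarith [a.2.1, b.2.2]
  have h0 : Nat.find hex ≠ 0 := by
    intro h0
    have := Nat.find_spec hex
    rw [h0] at this
    exact this ⟨0, zero_mem_V 0, by simpa using h1, by simpa using h2⟩
  obtain ⟨n, hn⟩ := Nat.exists_eq_succ_of_ne_zero h0
  have hp := Nat.find_spec hex
  have hq := Nat.find_min hex (m := n) (by omega)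
  rw [hn, Nat.succ_eq_add_one] at hp
  push Not at hq
  obtain ⟨i, hi, a, b⟩ := hq
  have h3 : (0 : ℝ) < 3 ^ n := by positivity
  have hlt : 3 ^ n * c1 < 3 ^ n * c2 := by gcongr
  refine ⟨n, i, hi, ?_⟩
  rcases C_split a with a' | a' <;> rcases C_split b with b' | b'
  · exact absurd ⟨3 * i, mem_V_succ.2 ⟨i, hi, Or.inl rfl⟩,
      by convert a' using 1; push_cast; ring, by convert b' using 1; push_cast; ring⟩ hp
  · have y1 := V_C hi third_mem_C
    have y2 := V_C hi two_thirds_mem_C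
    have l1 : c1 ≤ (1 / 3 + i) / 3 ^ n := by rw [le_div_iff₀ h3]; linarith [a'.2.2]
    have l2 : (2 / 3 + i) / 3 ^ n ≤ c2 := by rw [div_le_iff₀ h3]; linarith [b'.2.1]
    have l3 : ((1 : ℝ) / 3 + i) / 3 ^ n < (2 / 3 + i) / 3 ^ n := by gcongr; norm_num
    constructor
    · by_contra hne
      exact hno _ y1 (lt_of_le_of_ne l1 hne) (by linarith)
    · by_contra hne
      exact hno _ y2 (by linarith) (lt_of_le_of_ne l2 (Ne.symm hne))
  · linarith [a'.2.1, b'.2.2]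
  · exact absurd ⟨3 * i + 2, mem_V_succ.2 ⟨i, hi, Or.inr rfl⟩,
      by convert a' using 1; push_cast; ring, by convert b' using 1; push_cast; ring⟩ hp

open Classical in
/-- Target intervals met by the image of a Cantor cylinder. -/
noncomputable def Hit (b : ℝ → ℝ) (r n : ℕ) (i : ℤ) : Finset ℤ :=
  (V (n + r)).filter (fun j => ∃ c ∈ C, 3 ^ (n + r) * b ((c + i) / 3 ^ n) - j ∈ C)

theorem mem_Hit {b : ℝ → ℝ} {r n : ℕ} {i j : ℤ} : j ∈ Hit b r n i ↔
    j ∈ V (n + r) ∧ ∃ c ∈ C, 3 ^ (n + r) * b ((c + i) / 3 ^ n) - j ∈ C := by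
  simp [Hit]

/-- Cylinders with the fewest target intervals. -/
def IsMin' (b : ℝ → ℝ) (r n : ℕ) (i : ℤ) : Prop :=
  i ∈ V n ∧ ∀ n' i', i' ∈ V n' → (Hit b r n i).card ≤ (Hit b r n' i').card

theorem exists_min (b : ℝ → ℝ) (r : ℕ) : ∃ n i, IsMin' b r n i := by
  classical
  have hex : ∃ m, ∃ n i, i ∈ V n ∧ (Hit b r n i).card = m := ⟨_, 0, 0, zero_mem_V 0, rfl⟩
  obtain ⟨n, i, hi, h⟩ := Nat.find_spec hex
  exact ⟨n, i, hi, fun n' i' hi' => h ▸ Nat.find_min' hex ⟨n', i', hi', rfl⟩⟩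

theorem C_dig {c : ℝ} (hc : c ∈ C) {d : ℤ} (hd : d = 0 ∨ d = 2) : (c + d) / 3 ∈ C := by
  rcases hd with rfl | rfl
  · simpa using C_low hc
  · exact_mod_cast C_high hc

theorem hit_child {b : ℝ → ℝ} {r n : ℕ} {i d j' : ℤ} (hd : d = 0 ∨ d = 2)
    (h : j' ∈ Hit b r (n + 1) (3 * i + d)) : ∃ j ∈ Hit b r n i, j' = 3 * j ∨ j' = 3 * j + 2 := by
  obtain ⟨h1, c, hc, h2⟩ := mem_Hit.1 h
  rw [show n + 1 + r = n + r + 1 by ring] at h1 h2
  obtain ⟨j, hj, h3⟩ := mem_V_succ.1 h1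
  refine ⟨j, mem_Hit.2 ⟨hj, (c + d) / 3, C_dig hc hd, ?_⟩, h3⟩
  have e : ((c + d) / 3 + i) / 3 ^ n = (c + ((3 * i + d : ℤ) : ℝ)) / 3 ^ (n + 1) := by
    push_cast; field_simp; ring
  rw [e]
  rcases h3 with rfl | rfl
  · convert C_low h2 using 1; push_cast; ring
  · convert C_high h2 using 1; push_cast; ring

section

variable {b : ℝ → ℝ} {K : ℝ} {r : ℕ}

theorem hit_disjoint (hlo : ∀ c ∈ C, ∀ c' ∈ C, |c - c'| ≤ K * |b c - b c'|) (hr : K < 3 ^ r)
    {n : ℕ} {i : ℤ} (hi : i ∈ V n) :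
    Disjoint (Hit b r (n + 1) (3 * i)) (Hit b r (n + 1) (3 * i + 2)) := by
  rw [Finset.disjoint_left]
  intro j h1 h2
  obtain ⟨-, c, hc, a⟩ := mem_Hit.1 h1
  obtain ⟨-, c', hc', a'⟩ := mem_Hit.1 h2
  have m1 := V_C (mem_V_succ.2 ⟨i, hi, Or.inl rfl⟩) hc
  have m2 := V_C (mem_V_succ.2 ⟨i, hi, Or.inr rfl⟩) hc'
  have := hlo _ m2 _ m1
  set y := b ((c + ((3 * i : ℤ) : ℝ)) / 3 ^ (n + 1))
  set y' := b ((c' + ((3 * i + 2 : ℤ) : ℝ)) / 3 ^ (n + 1))
  have h3 : (0 : ℝ) < 3 ^ (n + 1) := by positivity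
  have h4 : (0 : ℝ) < 3 ^ r := by positivity
  have e1 : 3 ^ (n + 1) * 3 ^ r * |y' - y| ≤ 1 := by
    rw [← pow_add, ← abs_of_pos (by positivity : (0 : ℝ) < 3 ^ (n + 1 + r)), ← abs_mul, abs_le]
    constructor <;> linarith [a.2.1, a.2.2, a'.2.1, a'.2.2]
  have e2 : 1 / 3 ^ (n + 1) ≤ |(c' + ((3 * i + 2 : ℤ) : ℝ)) / 3 ^ (n + 1) -
      (c + ((3 * i : ℤ) : ℝ)) / 3 ^ (n + 1)| := by
    refine le_trans ?_ (le_abs_self _)
    rw [← sub_div]
    gcongr
    push_cast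
    linarith [hc.2.2, hc'.2.1]
  have e3 := e2.trans this
  rw [div_le_iff₀ h3] at e3
  have e4 : 0 < |y' - y| := by
    rcases (abs_nonneg (y' - y)).eq_or_lt with h | h
    · rw [← h] at e3; norm_num at e3
    · exact h
  have e5 : K * (|y' - y| * 3 ^ (n + 1)) < 3 ^ r * (|y' - y| * 3 ^ (n + 1)) := by gcongr
  nlinarith

theorem min_step (hlo : ∀ c ∈ C, ∀ c' ∈ C, |c - c'| ≤ K * |b c - b c'|) (hr : K < 3 ^ r)
    {n : ℕ} {i : ℤ} (h : IsMin' b r n i) :
    IsMin' b r (n + 1) (3 * i) ∧ IsMin' b r (n + 1) (3 * i + 2) ∧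
      ∀ j ∈ Hit b r n i, ∀ j', (j' = 3 * j ∨ j' = 3 * j + 2) →
        j' ∈ Hit b r (n + 1) (3 * i) ∨ j' ∈ Hit b r (n + 1) (3 * i + 2) := by
  classical
  have v0 : 3 * i ∈ V (n + 1) := mem_V_succ.2 ⟨i, h.1, Or.inl rfl⟩
  have v2 : 3 * i + 2 ∈ V (n + 1) := mem_V_succ.2 ⟨i, h.1, Or.inr rfl⟩
  set B := (Hit b r n i).image (fun j => 3 * j) ∪ (Hit b r n i).image (fun j => 3 * j + 2)
  have hsub : Hit b r (n + 1) (3 * i) ∪ Hit b r (n + 1) (3 * i + 2) ⊆ B := by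
    intro j' hj'
    have : ∃ j ∈ Hit b r n i, j' = 3 * j ∨ j' = 3 * j + 2 := by
      rcases Finset.mem_union.1 hj' with h1 | h1
      · exact hit_child (d := 0) (Or.inl rfl) (by simpa using h1)
      · exact hit_child (d := 2) (Or.inr rfl) h1
    obtain ⟨j, hj, rfl | rfl⟩ := this
    · exact Finset.mem_union_left _ (Finset.mem_image_of_mem _ hj)
    · exact Finset.mem_union_right _ (Finset.mem_image_of_mem _ hj)
  have hB : B.card ≤ (Hit b r n i).card + (Hit b r n i).card :=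
    (Finset.card_union_le _ _).trans (add_le_add Finset.card_image_le Finset.card_image_le)
  have hc := Finset.card_union_of_disjoint (hit_disjoint hlo hr h.1)
  have h1 := h.2 _ _ v0
  have h2 := h.2 _ _ v2
  have h3 := Finset.card_le_card hsub
  refine ⟨⟨v0, fun n' i' hi' => ?_⟩, ⟨v2, fun n' i' hi' => ?_⟩, ?_⟩
  · have := h.2 n' i' hi'; omega
  · have := h.2 n' i' hi'; omega
  · have heq := Finset.eq_of_subset_of_card_le hsub (by omega)
    intro j hj j' hj'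
    rw [← Finset.mem_union, heq]
    rcases hj' with rfl | rfl
    · exact Finset.mem_union_left _ (Finset.mem_image_of_mem _ hj)
    · exact Finset.mem_union_right _ (Finset.mem_image_of_mem _ hj)

theorem min_desc (hlo : ∀ c ∈ C, ∀ c' ∈ C, |c - c'| ≤ K * |b c - b c'|) (hr : K < 3 ^ r)
    {n : ℕ} {i : ℤ} (h : IsMin' b r n i) {t : ℕ} {i' : ℤ} (hi' : i' ∈ V t) :
    IsMin' b r (n + t) (3 ^ t * i + i') := by
  induction t generalizing i' with
  | zero => simp [V] at hi'; simpa [hi'] using h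
  | succ t ih =>
    obtain ⟨i'', hi'', rfl | rfl⟩ := mem_V_succ.1 hi'
    · rw [show 3 ^ (t + 1) * i + 3 * i'' = 3 * (3 ^ t * i + i'') by ring]
      exact (min_step hlo hr (ih hi'')).1
    · rw [show 3 ^ (t + 1) * i + (3 * i'' + 2) = 3 * (3 ^ t * i + i'') + 2 by ring]
      exact (min_step hlo hr (ih hi'')).2.1

theorem min_approx (hlo : ∀ c ∈ C, ∀ c' ∈ C, |c - c'| ≤ K * |b c - b c'|) (hr : K < 3 ^ r)
    (t : ℕ) {n : ℕ} {i j : ℤ} (h : IsMin' b r n i) (hj : j ∈ Hit b r n i) {y : ℝ}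
    (hy : 3 ^ (n + r) * y - j ∈ C) :
    ∃ c ∈ C, |b ((c + i) / 3 ^ n) - y| ≤ 1 / 3 ^ (n + r + t) := by
  induction t generalizing n i j with
  | zero =>
    obtain ⟨-, c, hc, a⟩ := mem_Hit.1 hj
    refine ⟨c, hc, ?_⟩
    have h3 : (0 : ℝ) < 3 ^ (n + r) := by positivity
    rw [add_zero, le_div_iff₀ h3, ← abs_of_pos h3, ← abs_mul, abs_le]
    constructor <;> linarith [a.2.1, a.2.2, hy.2.1, hy.2.2]
  | succ t ih =>
    obtain ⟨m0, m2, hs⟩ := min_step hlo hr h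
    have : ∃ j', (j' = 3 * j ∨ j' = 3 * j + 2) ∧ 3 ^ (n + 1 + r) * y - j' ∈ C := by
      rcases C_split hy with a | a
      · exact ⟨_, Or.inl rfl, by convert a using 1; push_cast; ring⟩
      · exact ⟨_, Or.inr rfl, by convert a using 1; push_cast; ring⟩
    obtain ⟨j', hj', hy'⟩ := this
    rw [show n + r + (t + 1) = n + 1 + r + t by ring]
    rcases hs j hj j' hj' with a | a
    · obtain ⟨c, hc, e⟩ := ih m0 a hy'
      refine ⟨c / 3, C_low hc, ?_⟩
      convert e using 4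
      push_cast; field_simp; ring
    · obtain ⟨c, hc, e⟩ := ih m2 a hy'
      refine ⟨(c + 2) / 3, C_high hc, ?_⟩
      convert e using 4
      push_cast; field_simp; ring

theorem min_onto (hlo : ∀ c ∈ C, ∀ c' ∈ C, |c - c'| ≤ K * |b c - b c'|) (hr : K < 3 ^ r)
    (hcont : ContinuousOn b C) {n : ℕ} {i j : ℤ} (h : IsMin' b r n i) (hj : j ∈ Hit b r n i)
    {y : ℝ} (hy : 3 ^ (n + r) * y - j ∈ C) : ∃ c ∈ C, b ((c + i) / 3 ^ n) = y := by
  have hcomp : IsCompact ((fun c => b ((c + i) / 3 ^ n)) '' C) :=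
    isCompact_C.image_of_continuousOn (hcont.comp (by fun_prop) (fun c hc => V_C h.1 hc))
  have : y ∈ closure ((fun c => b ((c + i) / 3 ^ n)) '' C) := by
    rw [Metric.mem_closure_iff]
    intro ε hε
    obtain ⟨t, ht⟩ := pow_unbounded_of_one_lt (1 / ε) (by norm_num : (1 : ℝ) < 3)
    obtain ⟨c, hc, e⟩ := min_approx hlo hr t h hj hy
    refine ⟨_, ⟨c, hc, rfl⟩, ?_⟩
    rw [dist_comm, Real.dist_eq]
    refine lt_of_le_of_lt e ?_
    rw [div_lt_iff₀ hε] at ht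
    rw [div_lt_iff₀ (by positivity)]
    have : (3 : ℝ) ^ t ≤ 3 ^ (n + r + t) := pow_le_pow_right₀ (by norm_num) (by omega)
    nlinarith
  rwa [hcomp.isClosed.closure_eq] at this

theorem hit_nonempty (hb : ∀ c ∈ C, b c ∈ C) {n : ℕ} {i : ℤ} (hi : i ∈ V n) {c : ℝ}
    (hc : c ∈ C) : ∃ j ∈ Hit b r n i, 3 ^ (n + r) * b ((c + i) / 3 ^ n) - j ∈ C := by
  obtain ⟨j, hj, a⟩ := exists_V (n + r) (hb _ (V_C hi hc))
  exact ⟨j, mem_Hit.2 ⟨hj, c, hc, a⟩, a⟩

/-- Some gap is mapped exactly onto a gap. -/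
theorem exists_exact_gap (hb : ∀ c ∈ C, b c ∈ C)
    (hlo : ∀ c ∈ C, ∀ c' ∈ C, |c - c'| ≤ K * |b c - b c'|) (hcont : ContinuousOn b C)
    (hm : StrictMonoOn b C) :
    ∃ (n k : ℕ) (i j : ℤ), i ∈ V n ∧ b ((1 / 3 + i) / 3 ^ n) = (1 / 3 + j) / 3 ^ k ∧
      b ((2 / 3 + i) / 3 ^ n) = (2 / 3 + j) / 3 ^ k := by
  obtain ⟨r, hr⟩ := pow_unbounded_of_one_lt K (by norm_num : (1 : ℝ) < 3)
  obtain ⟨n, i, h⟩ := exists_min b r
  obtain ⟨j, hj, -⟩ := hit_nonempty (r := r) hb h.1 zero_mem_C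
  have h3 : (0 : ℝ) < 3 ^ (n + r) := by positivity
  obtain ⟨c1, hc1, e1⟩ := min_onto hlo hr hcont h hj (y := (1 / 3 + j) / 3 ^ (n + r))
    (by rw [mul_div_cancel₀ _ h3.ne']; simpa using third_mem_C)
  obtain ⟨c2, hc2, e2⟩ := min_onto hlo hr hcont h hj (y := (2 / 3 + j) / 3 ^ (n + r))
    (by rw [mul_div_cancel₀ _ h3.ne']; simpa using two_thirds_mem_C)
  have m1 := V_C h.1 hc1
  have m2 := V_C h.1 hc2
  obtain ⟨n', i', hi', a1, a2⟩ := gap_C m1 m2
    ((hm.lt_iff_lt m1 m2).1 (by rw [e1, e2]; gcongr; norm_num)) (by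
      intro y hy y1 y2
      have b1 := hm m1 hy y1
      have b2 := hm hy m2 y2
      rw [e1, div_lt_iff₀ h3] at b1
      rw [e2, lt_div_iff₀ h3] at b2
      exact (hb y hy).1 (n + r) ⟨j, by linarith, by linarith⟩)
  exact ⟨n', n + r, i', j, hi', by rw [← a1, e1], by rw [← a2, e2]⟩

/-- If all exactly matched gaps have equal size, the map is onto. -/
theorem onto_of_gaps (hb : ∀ c ∈ C, b c ∈ C)
    (hlo : ∀ c ∈ C, ∀ c' ∈ C, |c - c'| ≤ K * |b c - b c'|)
    (hhi : ∀ c ∈ C, ∀ c' ∈ C, |b c - b c'| ≤ |c - c'|) (hm : StrictMonoOn b C)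
    (hs : ∀ (n k : ℕ) (i j : ℤ), i ∈ V n → b ((1 / 3 + i) / 3 ^ n) = (1 / 3 + j) / 3 ^ k →
      b ((2 / 3 + i) / 3 ^ n) = (2 / 3 + j) / 3 ^ k → (3 : ℝ) ^ k = 3 ^ n) :
    ∀ y ∈ C, ∃ c ∈ C, b c = y := by
  classical
  have hcont : ContinuousOn b C := by
    have : LipschitzOnWith 1 b C := LipschitzOnWith.of_dist_le_mul (fun c hc c' hc' => by
      simpa [Real.dist_eq] using hhi c hc c' hc')
    exact this.continuousOn
  obtain ⟨r, hr⟩ := pow_unbounded_of_one_lt K (by norm_num : (1 : ℝ) < 3)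
  obtain ⟨n, i, h⟩ := exists_min b r
  obtain ⟨j, hj, hj0⟩ := hit_nonempty (r := r) hb h.1 zero_mem_C
  have hjV := (mem_Hit.1 hj).1
  set n' := n + (r + 1) with hn'
  set i' : ℤ := 3 ^ (r + 1) * i + 0 with hi'
  have h' : IsMin' b r n' i' := min_desc hlo hr h (zero_mem_V (r + 1))
  have h3 : (0 : ℝ) < 3 ^ (n + r) := by positivity
  have h3' : (0 : ℝ) < 3 ^ n' := by positivity
  -- the deep cylinder is mapped into the target cylinder
  have hin : ∀ t ∈ C, (i' : ℝ) ≤ 3 ^ n' * t → 3 ^ n' * t ≤ i' + 1 →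
      3 ^ (n + r) * b t - j ∈ C := by
    intro t ht t1 t2
    obtain ⟨j', hj', a⟩ := exists_V (n + r) (hb t ht)
    have e0 : ((0 : ℝ) + i) / 3 ^ n = i' / 3 ^ n' := by
      rw [hi', hn']; push_cast; field_simp; ring
    have d1 := hhi _ ht _ (V_C h.1 zero_mem_C)
    rw [e0] at d1 hj0
    have d2 : |t - i' / 3 ^ n'| ≤ 1 / 3 ^ n' := by
      rw [le_div_iff₀ h3', ← abs_of_pos h3', ← abs_mul, abs_of_pos h3', sub_mul,
        div_mul_cancel₀ _ h3'.ne', abs_le]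
      constructor <;> linarith
    have d3 : 3 ^ (n + r) * |b t - b (i' / 3 ^ n')| ≤ 1 / 3 := by
      calc _ ≤ (3 : ℝ) ^ (n + r) * (1 / 3 ^ n') := by gcongr; exact d1.trans d2
        _ = 1 / 3 := by rw [hn']; field_simp; ring
    rw [← abs_of_pos h3, ← abs_mul, abs_le] at d3
    have f1 : (j : ℝ) < j' + 2 := by linarith [d3.1, d3.2, a.2.1, a.2.2, hj0.2.1, hj0.2.2]
    have f2 : (j' : ℝ) < j + 2 := by linarith [d3.1, d3.2, a.2.1, a.2.2, hj0.2.1, hj0.2.2]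
    have f3 : j < j' + 2 := by exact_mod_cast f1
    have f4 : j' < j + 2 := by exact_mod_cast f2
    have := V_even hjV
    have := V_even hj'
    obtain rfl : j = j' := by omega
    exact a
  -- consecutive points keep their distance
  have hgap : ∀ t ∈ C, ∀ t' ∈ C, t < t' → (i' : ℝ) ≤ 3 ^ n' * t → 3 ^ n' * t' ≤ i' + 1 →
      (∀ y ∈ C, t < y → y < t' → False) → b t' - b t = t' - t := by
    intro t ht t' ht' htt t1 t2 hno
    have hlt : 3 ^ n' * t < 3 ^ n' * t' := by gcongr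
    have a1 := hin t ht t1 (by linarith)
    have a2 := hin t' ht' (by linarith) t2
    obtain ⟨n1, i1, hi1, b1, b2⟩ := gap_C ht ht' htt hno
    obtain ⟨k1, j1, -, c1, c2⟩ := gap_C (hb t ht) (hb t' ht') (hm ht ht' htt) (by
      intro y hy y1 y2
      have y3 : 3 ^ (n + r) * b t < 3 ^ (n + r) * y := by gcongr
      have y4 : 3 ^ (n + r) * y < 3 ^ (n + r) * b t' := by gcongr
      obtain ⟨c, hc, e⟩ := min_onto hlo hr hcont h hj (y := y)
        ⟨(Ct_sub_int j).2 (Ct_mul_pow hy.1 _), by linarith [a1.2.1], by linarith [a2.2.2]⟩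
      have m := V_C h.1 hc
      exact hno _ m ((hm.lt_iff_lt ht m).1 (by rwa [e])) ((hm.lt_iff_lt m ht').1 (by rwa [e])))
    have := hs n1 k1 i1 j1 hi1 (by rw [← b1, c1]) (by rw [← b2, c2])
    rw [c1, c2, this]
    rw [b1, b2]
    ring
  have h3l : (0 : ℝ) < 3 ^ (n' + r) := by positivity
  have h3r : (0 : ℝ) < 3 ^ r := by positivity
  have hcard : (V r).card ≤ (Hit b r n' i').card := by
    have hx : ∀ a ∈ V r, ∃ j ∈ Hit b r n' i',
        3 ^ (n' + r) * b ((a / 3 ^ r + i') / 3 ^ n') - j ∈ C := fun a ha =>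
      hit_nonempty hb h'.1 (by simpa using V_C ha zero_mem_C)
    choose! φ hφ1 hφ2 using hx
    refine Finset.card_le_card_of_injOn φ (fun a ha => hφ1 a ha) ?_
    have key : ∀ a ∈ V r, ∀ a' ∈ V r, a < a' → φ a ≠ φ a' := by
      intro a ha a' ha' haa heq
      have ev := V_even ha
      have ev' := V_even ha'
      have haa2 : a + 2 ≤ a' := by omega
      have haa3 : (a : ℝ) + 2 ≤ a' := by exact_mod_cast haa2
      have hV := V_add h'.1 ha
      have hV' := V_add h'.1 ha'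
      have e : ∀ a : ℤ, (a / 3 ^ r + i') / 3 ^ n' =
          ((0 : ℝ) + ((3 ^ r * i' + a : ℤ) : ℝ)) / 3 ^ (n' + r) := fun a => by
        push_cast; field_simp; ring
      have p1 := hφ2 a ha
      have p2 := hφ2 a' ha'
      rw [e] at p1 p2
      set E : ℤ := 3 ^ r * i' + a with hE
      set E' : ℤ := 3 ^ r * i' + a' with hE'
      have hEE : (E : ℝ) + 2 ≤ E' := by rw [hE, hE']; push_cast; linarith
      have mc := V_C hV zero_mem_C
      have mc' := V_C hV' zero_mem_C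
      have mt := V_C hV one_mem_C
      have hne : (C ∩ Ici ((2 + E : ℝ) / 3 ^ (n' + r))).Nonempty :=
        ⟨_, mc', by rw [mem_Ici]; exact div_le_div_of_nonneg_right (by linarith) h3l.le⟩
      obtain ⟨t', ⟨ht', ht2⟩, hmin⟩ :=
        (isCompact_C.inter_right isClosed_Ici).exists_isLeast hne
      have ht3 : t' ≤ (0 + (E' : ℝ)) / 3 ^ (n' + r) :=
        hmin ⟨mc', by rw [mem_Ici]; exact div_le_div_of_nonneg_right (by linarith) h3l.le⟩
      rw [mem_Ici] at ht2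
      have l1 : ((1 : ℝ) + E) / 3 ^ (n' + r) < (2 + E) / 3 ^ (n' + r) := by gcongr; norm_num
      have a0 := (V_C ha zero_mem_C).2.1
      have a1 := (V_C ha' zero_mem_C).2.2
      have hg := hgap _ mt _ ht' (by linarith) (by
          rw [le_div_iff₀ h3r] at a0
          rw [pow_add 3 n' r, mul_div_assoc', mul_div_mul_left _ _ h3'.ne', le_div_iff₀ h3r, hE]
          push_cast; linarith)
        (by
          rw [div_le_iff₀ h3r] at a1
          refine le_trans (mul_le_mul_of_nonneg_left ht3 h3'.le) ?_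
          rw [pow_add 3 n' r, mul_div_assoc', mul_div_mul_left _ _ h3'.ne', div_le_iff₀ h3r, hE']
          push_cast; linarith)
        (by
          intro y hy y1 y2
          by_cases y3 : (2 + E : ℝ) / 3 ^ (n' + r) ≤ y
          · exact absurd (hmin ⟨hy, y3⟩) (not_le.2 y2)
          · push Not at y3
            obtain ⟨j'', hj'', q⟩ := exists_V (n' + r) hy
            rw [div_lt_iff₀ h3l] at y1
            rw [lt_div_iff₀ h3l] at y3
            have f1 : (j'' : ℝ) < E + 2 := by linarith [q.2.1]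
            have f2 : (E : ℝ) < j'' := by linarith [q.2.2]
            have f3 : j'' < E + 2 := by exact_mod_cast f1
            have f4 : E < j'' := by exact_mod_cast f2
            have := V_even hj''
            have := V_even hV
            omega)
      have q1 := hm mc mt (by gcongr; norm_num)
      have q2 := hm.monotoneOn ht' mc' ht3
      have q3 : 1 / 3 ^ (n' + r) ≤ t' - (1 + E) / 3 ^ (n' + r) := by
        have : ((2 : ℝ) + E) / 3 ^ (n' + r) = (1 + E) / 3 ^ (n' + r) + 1 / 3 ^ (n' + r) := by ring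
        linarith
      have q4 : 1 / 3 ^ (n' + r) < b ((0 + (E' : ℝ)) / 3 ^ (n' + r)) -
          b ((0 + (E : ℝ)) / 3 ^ (n' + r)) := by linarith
      rw [div_lt_iff₀ h3l] at q4
      rw [heq] at p1
      linarith [p1.2.1, p2.2.2]
    intro a ha a' ha' heq
    rcases lt_trichotomy a a' with hlt | hlt | hlt
    · exact absurd heq (key a ha a' ha' hlt)
    · exact hlt
    · exact absurd heq.symm (key a' ha' a ha hlt)
  have hsub : Hit b r 0 0 ⊆ V r := fun a ha => by simpa using (mem_Hit.1 ha).1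
  have hc0 := Finset.card_le_card hsub
  have hroot : IsMin' b r 0 0 := ⟨zero_mem_V 0, fun n'' i'' hi'' => by
    have := h'.2 n'' i'' hi''; omega⟩
  have heq : Hit b r 0 0 = V r := Finset.eq_of_subset_of_card_le hsub (by
    have := h'.2 0 0 (zero_mem_V 0); omega)
  intro y hy
  obtain ⟨j0, hj0V, a⟩ := exists_V r hy
  obtain ⟨c, hc, e⟩ := min_onto hlo hr hcont hroot (heq ▸ hj0V) (y := y) (by simpa using a)
  exact ⟨c, hc, by simpa using e⟩

theorem id_of_gaps (hb : ∀ c ∈ C, b c ∈ C)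
    (hlo : ∀ c ∈ C, ∀ c' ∈ C, |c - c'| ≤ K * |b c - b c'|)
    (hhi : ∀ c ∈ C, ∀ c' ∈ C, |b c - b c'| ≤ |c - c'|) (hm : StrictMonoOn b C)
    (hs : ∀ (n k : ℕ) (i j : ℤ), i ∈ V n → b ((1 / 3 + i) / 3 ^ n) = (1 / 3 + j) / 3 ^ k →
      b ((2 / 3 + i) / 3 ^ n) = (2 / 3 + j) / 3 ^ k → (3 : ℝ) ^ k = 3 ^ n) :
    ∀ c ∈ C, b c = c := by
  have ho := onto_of_gaps hb hlo hhi hm hs
  obtain ⟨c0, hc0, e0⟩ := ho 0 zero_mem_C
  obtain ⟨c1, hc1, e1⟩ := ho 1 one_mem_C
  have b0 : 0 ≤ b 0 := (hb 0 zero_mem_C).2.1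
  have b0' : b 0 ≤ 0 := (hm.monotoneOn zero_mem_C hc0 hc0.2.1).trans e0.le
  have b1 : 1 ≤ b 1 := e1.ge.trans (hm.monotoneOn hc1 one_mem_C hc1.2.2)
  intro c hc
  have a0 := hhi c hc 0 zero_mem_C
  have a1 := hhi 1 one_mem_C c hc
  rw [sub_zero, abs_of_nonneg hc.2.1] at a0
  rw [abs_of_nonneg (by linarith [hc.2.2] : 0 ≤ 1 - c)] at a1
  linarith [(abs_le.1 a0).2, (abs_le.1 a1).2]

end

end Pool.Agent.MP_d4b492_an

end MrgPart3

-- marker of a merged file
example : 731051 + 73172 = 731051 + 73172 := rfl
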