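import Mathlib.Algebra.EuclideanDomain.Basic
import Mathlib.Algebra.EuclideanDomain.Field
import Mathlib.Algebra.Ring.IsFormallyReal
import Mathlib.Order.CompletePartialOrder
import Pool.Agent.MP_d4b492_an.Count

-- ======== part 0: formerly Pool.Agent.MP_d4b492_an.Lines
section MrgPart0

set_option autoImplicit false

open Set Filter Topology

namespace Pool.Agent.MP_d4b492_an

theorem interval_not_mid {a b : ℝ} (hab : a < b) (h : ∀ x, a < x → x < b → ¬ mid x) :
    ∃ k : ℤ, (k : ℝ) - 1 / 3 ≤ a ∧ b ≤ k + 1 / 3 := by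
  obtain ⟨k, h1, h2⟩ := exists_of_not_mid (h ((a + b) / 2) (by linarith) (by linarith))
  refine ⟨k, ?_, ?_⟩
  · by_contra hc
    push Not at hc
    obtain ⟨x, hx1, hx2⟩ := exists_between (max_lt hc (by linarith : (k : ℝ) - 2 / 3 < k - 1 / 3))
    exact h x (lt_of_le_of_lt (le_max_left _ _) hx1) (by linarith)
      ⟨k - 1, by push_cast; linarith [le_max_right a (k - 2 / 3)], by push_cast; linarith⟩
  · by_contra hc
    push Not at hc
    obtain ⟨x, hx1, hx2⟩ := exists_between (lt_min hc (by linarith : (k : ℝ) + 1 / 3 < k + 2 / 3))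
    exact h x (by linarith) (lt_of_lt_of_le hx2 (min_le_left _ _))
      ⟨k, hx1, lt_of_lt_of_le hx2 (min_le_right _ _)⟩

theorem exists_not_mid {a b : ℝ} (hab : a + 1 / 3 < b) : ∃ x, a < x ∧ x < b ∧ ¬ mid x := by
  by_cases h : mid ((a + b) / 2)
  · obtain ⟨i, h1, h2⟩ := h
    by_cases h3 : a < i + 1 / 3
    · exact ⟨i + 1 / 3, h3, by linarith, not_mid_of i (by linarith) le_rfl⟩
    · exact ⟨i + 2 / 3, by linarith, by linarith,
        not_mid_of (i + 1) (by push_cast; linarith) (by push_cast; linarith)⟩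
  · exact ⟨_, by linarith, by linarith, h⟩

theorem affine_not_mid {α μ : ℝ} (hμ : 0 < μ) (h : ∀ ξ, ¬ mid ξ → ¬ mid (α + μ * ξ)) :
    μ = 1 ∧ ∃ a : ℤ, α = a := by
  obtain ⟨k, h1, h2⟩ := interval_not_mid (a := α - μ / 3) (b := α + μ / 3) (by linarith) (by
    intro x hx1 hx2
    have := h ((x - α) / μ) (not_mid_of 0 (by rw [le_div_iff₀ hμ]; simp; linarith)
      (by rw [div_le_iff₀ hμ]; simp; linarith))
    rwa [mul_div_cancel₀ _ hμ.ne', add_sub_cancel] at this)
  have h3 : 1 ≤ μ := by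
    by_contra hc
    push Not at hc
    obtain ⟨x, hx1, hx2, hx3⟩ := exists_not_mid (a := (1 / 3 - α) / μ) (b := (2 / 3 - α) / μ) (by
      rw [div_add' _ _ _ hμ.ne', div_lt_div_iff_of_pos_right hμ]; linarith)
    rw [div_lt_iff₀ hμ] at hx1
    rw [lt_div_iff₀ hμ] at hx2
    exact h x hx3 ⟨0, by simp; linarith, by simp; linarith⟩
  have h4 : μ = 1 := by linarith
  exact ⟨h4, k, by linarith⟩

theorem line_level {m γ : ℝ} (hm0 : 0 < m) (h : ∀ s, ¬ (mid s ∧ mid (m * s + γ))) (i : ℤ) :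
    ∃ k : ℤ, |γ + m * (i + 1 / 2) - k| ≤ 1 / 3 - m / 6 := by
  obtain ⟨k, h1, h2⟩ := interval_not_mid (a := γ + m * (i + 1 / 3)) (b := γ + m * (i + 2 / 3))
    (by nlinarith) (by
      intro x hx1 hx2 hx
      refine h ((x - γ) / m) ⟨⟨i, ?_, ?_⟩, ?_⟩
      · rw [lt_div_iff₀ hm0]; linarith
      · rw [div_lt_iff₀ hm0]; linarith
      · rwa [mul_div_cancel₀ _ hm0.ne', sub_add_cancel])
  exact ⟨k, abs_le.2 ⟨by linarith, by linarith⟩⟩

theorem line_intercept {m β : ℝ} (hm0 : 0 < m) (hm1 : m ≤ 1) (h : ∀ t, (t, m * t + β) ∈ P) :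
    ∃ k : ℤ, 2 * β = k := by
  have hA : ∀ n : ℕ, ∀ s, ¬ (mid s ∧ mid (m * s + 3 ^ n * β)) := by
    intro n s hs
    refine h (s / 3 ^ n) n ?_
    have h3 : (3 : ℝ) ^ n ≠ 0 := by positivity
    simp only
    rw [mul_div_cancel₀ _ h3, show 3 ^ n * (m * (s / 3 ^ n) + β) = m * s + 3 ^ n * β by
      field_simp]
    exact hs
  choose k hk using line_level hm0 (hA 0)
  simp only [pow_zero, one_mul] at hk
  have hd : ∀ i : ℤ, |m - (k (i + 1) - k i : ℤ)| ≤ 2 / 3 - m / 3 := by
    intro i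
    have h1 := abs_le.1 (hk i)
    have h2 := abs_le.1 (hk (i + 1))
    push_cast at h2 ⊢
    exact abs_le.2 ⟨by linarith [h1.2, h2.1], by linarith [h1.1, h2.2]⟩
  have hd01 : ∀ i : ℤ, (k (i + 1) = k i ∧ m ≤ 1 / 2) ∨ (k (i + 1) = k i + 1 ∧ 1 / 2 ≤ m) := by
    intro i
    have h1 := abs_le.1 (hd i)
    have h2 : ((k (i + 1) - k i : ℤ) : ℝ) < 2 := by linarith [h1.1]
    have h3 : (-1 : ℝ) < ((k (i + 1) - k i : ℤ) : ℝ) := by linarith [h1.2]
    have h4 : k (i + 1) - k i < 2 := by exact_mod_cast h2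
    have h5 : -1 < k (i + 1) - k i := by exact_mod_cast h3
    rcases (by omega : k (i + 1) - k i = 0 ∨ k (i + 1) - k i = 1) with h6 | h6
    · rw [h6] at h1; left; exact ⟨by omega, by simp at h1; linarith [h1.2]⟩
    · rw [h6] at h1; right; exact ⟨by omega, by simp at h1; linarith [h1.1]⟩
  rcases lt_trichotomy m (1 / 2) with hm | hm | hm
  · exfalso
    have hc : ∀ n : ℕ, k n = k 0 := by
      intro n
      induction n with
      | zero => rfl
      | succ n ih =>
        rcases hd01 n with h1 | h1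
        · push_cast; rw [h1.1, ih]
        · linarith [h1.2]
    obtain ⟨n, hn⟩ := exists_nat_gt (1 / m)
    rw [div_lt_iff₀ hm0] at hn
    have h1 := abs_le.1 (hk n)
    have h2 := abs_le.1 (hk 0)
    rw [hc n] at h1
    push_cast at h1 h2
    nlinarith [h1.2, h2.1]
  · subst hm
    have h1 := abs_le.1 (hk 0)
    have h2 := abs_le.1 (hk (0 + 1))
    rcases hd01 0 with h3 | h3
    · rw [h3.1] at h2
      push_cast at h1 h2
      exact ⟨2 * k 0 - 1, by push_cast; linarith [h1.1, h2.2]⟩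
    · rw [h3.1] at h2
      push_cast at h1 h2
      exact ⟨2 * k 0, by push_cast; linarith [h1.2, h2.1]⟩
  · rcases eq_or_lt_of_le hm1 with hm2 | hm2
    · subst hm2
      have hn : ∀ n : ℕ, |3 ^ n * (β + 1 / 2 - k 0)| ≤ 1 / 6 := by
        intro n
        induction n with
        | zero =>
          have := hk 0
          simp only [pow_zero, one_mul]
          convert this using 1
          · simp
          · norm_num
        | succ n ih =>
          obtain ⟨l, hl⟩ := line_level hm0 (hA (n + 1)) 0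
          obtain ⟨r, hr⟩ : ∃ r : ℤ, 3 ^ (n + 1) = 2 * r + 1 := by
            have : Odd ((3 : ℤ) ^ (n + 1)) := Odd.pow (by decide)
            exact this
          have hr' : (3 : ℝ) ^ (n + 1) = 2 * r + 1 := by exact_mod_cast hr
          set e := 3 ^ (n + 1) * (β + 1 / 2 - k 0) with he
          have e1 : |e| ≤ 1 / 2 := by
            rw [he, pow_succ, mul_comm _ (3 : ℝ), mul_assoc, abs_mul]
            simp only [Nat.abs_ofNat]
            linarith
          have e2 : 3 ^ (n + 1) * β + 1 * (((0 : ℤ) : ℝ) + 1 / 2) - l =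
              e - ((l + r - (2 * r + 1) * k 0 : ℤ) : ℝ) := by
            rw [he, hr']; push_cast; ring
          rw [e2] at hl
          have h1 := abs_le.1 hl
          have h2 := abs_le.1 e1
          have h3 : ((l + r - (2 * r + 1) * k 0 : ℤ) : ℝ) < 1 := by linarith [h1.1, h2.2]
          have h4 : (-1 : ℝ) < ((l + r - (2 * r + 1) * k 0 : ℤ) : ℝ) := by linarith [h1.2, h2.1]
          have h5 : l + r - (2 * r + 1) * k 0 < 1 := by exact_mod_cast h3
          have h6 : -1 < l + r - (2 * r + 1) * k 0 := by exact_mod_cast h4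
          have h7 : l + r - (2 * r + 1) * k 0 = 0 := by omega
          rw [h7] at hl
          norm_num at hl ⊢
          exact hl
      have h0 : β + 1 / 2 - k 0 = 0 := by
        by_contra hne
        have hpos : 0 < |β + 1 / 2 - k 0| := abs_pos.2 hne
        obtain ⟨n, hn'⟩ := pow_unbounded_of_one_lt (1 / |β + 1 / 2 - k 0|) (by norm_num : (1 : ℝ) < 3)
        rw [div_lt_iff₀ hpos] at hn'
        have := hn n
        rw [abs_mul, abs_of_pos (by positivity : (0 : ℝ) < 3 ^ n)] at this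
        linarith
      exact ⟨2 * k 0 - 1, by push_cast; linarith⟩
    · exfalso
      have hc : ∀ n : ℕ, k n = k 0 + n := by
        intro n
        induction n with
        | zero => simp
        | succ n ih =>
          rcases hd01 n with h1 | h1
          · linarith [h1.2]
          · push_cast; rw [h1.1, ih]; ring
      obtain ⟨n, hn⟩ := exists_nat_gt (1 / (1 - m))
      rw [div_lt_iff₀ (by linarith)] at hn
      have h1 := abs_le.1 (hk n)
      have h2 := abs_le.1 (hk 0)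
      rw [hc n] at h1
      push_cast at h1 h2
      nlinarith [h1.1, h2.2]

theorem parallel_core {p q v : Pt} (h1 : v.1 ≠ 0) (hm0 : 0 < v.2 / v.1) (hm1 : v.2 / v.1 ≤ 1)
    (hp : ∀ t : ℝ, (p.1 + t * v.1, p.2 + t * v.2) ∈ P)
    (hq : ∀ t : ℝ, (q.1 + t * v.1, q.2 + t * v.2) ∈ P) (hd : dist p q < 1 / 8) :
    ∃ t : ℝ, q.1 = p.1 + t * v.1 ∧ q.2 = p.2 + t * v.2 := by
  set m := v.2 / v.1 with hm
  have key : ∀ p : Pt, (∀ t : ℝ, (p.1 + t * v.1, p.2 + t * v.2) ∈ P) →
      ∃ k : ℤ, 2 * (p.2 - m * p.1) = k := by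
    intro p hp
    apply line_intercept hm0 hm1
    intro t
    convert hp ((t - p.1) / v.1) using 2
    · field_simp; ring
    · rw [hm]; field_simp; ring
  obtain ⟨a, ha⟩ := key p hp
  obtain ⟨b, hb⟩ := key q hq
  have d1 : |p.1 - q.1| < 1 / 8 := lt_of_le_of_lt (by rw [Prod.dist_eq]; exact le_max_left _ _) hd
  have d2 : |p.2 - q.2| < 1 / 8 := lt_of_le_of_lt (by rw [Prod.dist_eq]; exact le_max_right _ _) hd
  have d3 := abs_lt.1 d1
  have d4 := abs_lt.1 d2
  have e1 : (a : ℝ) < b + 1 := by nlinarith [d3.1, d3.2, d4.1, d4.2]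
  have e2 : (b : ℝ) < a + 1 := by nlinarith [d3.1, d3.2, d4.1, d4.2]
  have e3 : a < b + 1 := by exact_mod_cast e1
  have e4 : b < a + 1 := by exact_mod_cast e2
  obtain rfl : a = b := by omega
  refine ⟨(q.1 - p.1) / v.1, by field_simp; ring, ?_⟩
  have : q.2 - p.2 = m * (q.1 - p.1) := by linarith
  rw [hm] at this
  field_simp at this ⊢
  linarith

theorem parallel_small {p q v : Pt} (h1 : v.1 ≠ 0) (h2 : v.2 ≠ 0) (hle : |v.2| ≤ |v.1|)
    (hp : ∀ t : ℝ, (p.1 + t * v.1, p.2 + t * v.2) ∈ P)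
    (hq : ∀ t : ℝ, (q.1 + t * v.1, q.2 + t * v.2) ∈ P) (hd : dist p q < 1 / 8) :
    ∃ t : ℝ, q.1 = p.1 + t * v.1 ∧ q.2 = p.2 + t * v.2 := by
  have hab : |v.2 / v.1| ≤ 1 := by
    rw [abs_div]; exact div_le_one_of_le₀ hle (abs_nonneg _)
  rcases lt_or_gt_of_ne (div_ne_zero h2 h1) with hm | hm
  · obtain ⟨t, a, b⟩ := parallel_core (p := ngy p) (q := ngy q) (v := ngy v) h1
      (by simp only [ngy]; rw [neg_div]; linarith)
      (by simp only [ngy]; rw [neg_div]; linarith [(abs_le.1 hab).1])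
      (fun t => by
        have := P_negy.2 (hp t)
        simpa [ngy, add_comm] using this)
      (fun t => by
        have := P_negy.2 (hq t)
        simpa [ngy, add_comm] using this)
      (by rwa [dist_ngy])
    simp only [ngy] at a b
    exact ⟨t, a, by linarith⟩
  · exact parallel_core h1 hm (abs_le.1 hab).2 hp hq hd

/-- Two close parallel lines of the periodic carpet in a direction that is not axis-parallel
coincide. -/
theorem parallel_lines {p q v : Pt} (h1 : v.1 ≠ 0) (h2 : v.2 ≠ 0)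
    (hp : ∀ t : ℝ, (p.1 + t * v.1, p.2 + t * v.2) ∈ P)
    (hq : ∀ t : ℝ, (q.1 + t * v.1, q.2 + t * v.2) ∈ P) (hd : dist p q < 1 / 8) :
    ∃ t : ℝ, q.1 = p.1 + t * v.1 ∧ q.2 = p.2 + t * v.2 := by
  rcases le_total |v.2| |v.1| with h | h
  · exact parallel_small h1 h2 h hp hq hd
  · obtain ⟨t, a, b⟩ := parallel_small (p := p.swap) (q := q.swap) (v := v.swap) h2 h1 h
      (fun t => P_swap.2 (hp t)) (fun t => P_swap.2 (hq t)) (by rwa [dist_swap])
    exact ⟨t, b, a⟩

/-- A tangent map sending all Cantor lines to parallel lines does so in an axis direction. -/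
theorem axis_parallel {K L : ℝ} {g : Pt → Pt} (hg : Good K L T g) {v : Pt}
    (hv : ∀ c ∈ C, ∀ x, g (x, c) = ((g (0, c)).1 + x * v.1, (g (0, c)).2 + x * v.2)) :
    v.1 = 0 ∨ v.2 = 0 := by
  by_contra hc
  push Not at hc
  obtain ⟨k, hk⟩ := pow_unbounded_of_one_lt (8 * K) (by norm_num : (1 : ℝ) < 3)
  have h3 : (0 : ℝ) < 3 ^ k := by positivity
  have hc' := inv_pow_mem_C k
  obtain ⟨t, a, b⟩ := parallel_lines (p := g (0, 0)) (q := g (0, 1 / 3 ^ k)) hc.1 hc.2
    (fun t => by rw [← hv 0 zero_mem_C]; exact hg.maps _ (line_mem_T zero_mem_C t))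
    (fun t => by rw [← hv _ hc']; exact hg.maps _ (line_mem_T hc' t))
    (by
      refine lt_of_le_of_lt (hg.hi _ (line_mem_T zero_mem_C 0) _ (line_mem_T hc' 0)) ?_
      have : dist ((0 : ℝ), (0 : ℝ)) (0, 1 / 3 ^ k) = 1 / 3 ^ k := by
        simp [Prod.dist_eq]
      rw [this, mul_one_div, div_lt_iff₀ h3]
      linarith)
  have e : g (0, 1 / 3 ^ k) = g (t, 0) := by
    rw [hv 0 zero_mem_C t]
    exact Prod.ext a b
  have := congrArg Prod.snd (hg.inj (line_mem_T hc' 0) (line_mem_T zero_mem_C t) e)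
  simp at this

/-- All Cantor lines are mapped to horizontal lines with the same speed. -/
def Hor (l : ℝ) (g : Pt → Pt) : Prop :=
  ∀ c ∈ C, ∀ x, g (x, c) = ((g (0, c)).1 + l * x, (g (0, c)).2)

theorem Hor.eq_of_snd {K L l : ℝ} {g : Pt → Pt} (hg : Good K L T g) (hh : Hor l g) (hl : 0 < l)
    {p : Pt} (hp : p ∈ T) {c : ℝ} (hc : c ∈ C) (e : (g p).2 = (g (0, c)).2) : p.2 = c := by
  have : g p = g (((g p).1 - (g (0, c)).1) / l, c) := by
    rw [hh c hc]
    refine Prod.ext ?_ e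
    simp only
    field_simp
    ring
  exact congrArg Prod.snd (hg.inj hp (line_mem_T hc _) this)

theorem Hor.between {K L l : ℝ} {g : Pt → Pt} (hg : Good K L T g) (hh : Hor l g) (hl : 0 < l)
    {c1 c2 x : ℝ} (h1 : c1 ∈ C) (h2 : c2 ∈ C) (hb : (g (0, c1)).2 < (g (0, c2)).2)
    (hx : ∀ y, c1 ≤ y → y ≤ c2 → (x, y) ∈ T) {y : ℝ} (hy1 : c1 < y) (hy2 : y < c2) :
    (g (0, c1)).2 < (g (x, y)).2 ∧ (g (x, y)).2 < (g (0, c2)).2 := by
  have hc : ContinuousOn (fun y => (g (x, y)).2) (Icc c1 c2) :=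
    continuous_snd.comp_continuousOn (hg.cont.comp (by fun_prop) (fun y hy => hx y hy.1 hy.2))
  have e1 : (g (x, c1)).2 = (g (0, c1)).2 := by rw [hh c1 h1]
  have e2 : (g (x, c2)).2 = (g (0, c2)).2 := by rw [hh c2 h2]
  constructor
  · by_contra hcon
    push Not at hcon
    obtain ⟨z, hz, hz'⟩ := intermediate_value_Icc hy2.le
      (hc.mono (Icc_subset_Icc hy1.le le_rfl)) (⟨hcon, by rw [e2]; exact hb.le⟩ :
        (g (0, c1)).2 ∈ Icc (g (x, y)).2 (g (x, c2)).2)
    have := hh.eq_of_snd hg hl (hx z (by linarith [hz.1]) hz.2) h1 hz'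
    simp only at this
    linarith [hz.1]
  · by_contra hcon
    push Not at hcon
    obtain ⟨z, hz, hz'⟩ := intermediate_value_Icc hy1.le
      (hc.mono (Icc_subset_Icc le_rfl hy2.le)) (⟨by rw [e1]; exact hb.le, hcon⟩ :
        (g (0, c2)).2 ∈ Icc (g (x, c1)).2 (g (x, y)).2)
    have := hh.eq_of_snd hg hl (hx z hz.1 (by linarith [hz.2])) h2 hz'
    simp only at this
    linarith [hz.2]

theorem Hor.strictMono {K L l : ℝ} {g : Pt → Pt} (hg : Good K L T g) (hh : Hor l g) (hl : 0 < l)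
    (hb : (g (0, 0)).2 < (g (0, 1)).2) : StrictMonoOn (fun c => (g (0, c)).2) C := by
  intro c hc c' hc' hcc
  by_contra hcon
  simp only [not_lt] at hcon
  have h0 : (g (0, 0)).2 ≤ (g (0, c')).2 := by
    rcases eq_or_lt_of_le hc'.2.2 with h | h
    · rw [h]; exact hb.le
    · exact (hh.between hg hl zero_mem_C one_mem_C hb (fun y a b => vert0_mem_T a b)
        (lt_of_le_of_lt hc.2.1 hcc) h).1.le
  have hcn : ContinuousOn (fun y => (g (0, y)).2) (Icc 0 c) :=
    continuous_snd.comp_continuousOn (hg.cont.comp (by fun_prop)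
      (fun y hy => vert0_mem_T hy.1 (hy.2.trans hc.2.2)))
  obtain ⟨z, hz, hz'⟩ := intermediate_value_Icc hc.2.1 hcn
    (⟨h0, hcon⟩ : (g (0, c')).2 ∈ Icc (g (0, 0)).2 (g (0, c)).2)
  have := hh.eq_of_snd hg hl (vert0_mem_T hz.1 (hz.2.trans hc.2.2)) hc' hz'
  simp only at this
  linarith [hz.2]

theorem Hor.snd_mem {K L l : ℝ} {g : Pt → Pt} (hg : Good K L T g) (hh : Hor l g) (hl : 0 < l)
    {c : ℝ} (hc : c ∈ C) : (g (0, c)).2 ∈ Ct := by
  apply Ct_of_line
  intro x
  have := hg.maps _ (line_mem_T hc ((x - (g (0, c)).1) / l))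
  rw [hh c hc] at this
  convert this using 2
  field_simp
  ring

/-- A gap of the Cantor set mapped onto a gap determines the speed and the horizontal offset. -/
theorem Hor.exact_gap {K L l : ℝ} {g : Pt → Pt} (hg : Good K L T g) (hh : Hor l g) (hl : 0 < l)
    {n k : ℕ} {i j : ℤ} (hi : i ∈ V n)
    (e1 : (g (0, (1 / 3 + i) / 3 ^ n)).2 = (1 / 3 + j) / 3 ^ k)
    (e2 : (g (0, (2 / 3 + i) / 3 ^ n)).2 = (2 / 3 + j) / 3 ^ k) :
    l * 3 ^ k = 3 ^ n ∧ ∃ a : ℤ, 3 ^ k * (g (0, (1 / 3 + i) / 3 ^ n)).1 = a := by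
  have hn : (0 : ℝ) < 3 ^ n := by positivity
  have hk : (0 : ℝ) < 3 ^ k := by positivity
  have hc1 := V_C hi third_mem_C
  have hc2 := V_C hi two_thirds_mem_C
  have hb : (g (0, (1 / 3 + i) / 3 ^ n)).2 < (g (0, (2 / 3 + i) / 3 ^ n)).2 := by
    rw [e1, e2]; gcongr; norm_num
  obtain ⟨h1, a, h2⟩ := affine_not_mid (α := 3 ^ k * (g (0, (1 / 3 + i) / 3 ^ n)).1)
    (μ := l * 3 ^ k / 3 ^ n) (by positivity) (by
    intro ξ hξ
    obtain ⟨r, hr1, hr2⟩ := exists_of_not_mid hξ
    have step : ∀ e ∈ C, 0 < e → e < 1 →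
        (ξ / 3 ^ n, ((e + 1) / 3 + i) / 3 ^ n) ∈ T ∧
        ¬ mid (3 ^ k * (g (ξ / 3 ^ n, ((e + 1) / 3 + i) / 3 ^ n)).1) := by
      intro e he he0 he1
      set y := ((e + 1) / 3 + i) / 3 ^ n with hy
      have hseg : ∀ s : ℝ, r - 1 / 3 ≤ s → s ≤ r + 1 / 3 → (s / 3 ^ n, y) ∈ T := by
        intro s s1 s2
        have hs : (s, (e + 1) / 3) ∈ T := by
          refine ⟨P_of_three (fun h => not_mid_of r s1 s2 h.1) ?_, by simp only; linarith,
            by simp only; linarith⟩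
          rw [mul_div_cancel₀ _ (by norm_num : (3 : ℝ) ≠ 0)]
          exact P_of_Ct2 (by exact_mod_cast (Ct_add_int 1).2 he.1) _
        simpa [psi] using psi_T hi 0 hs
      have hv := hh.between hg hl hc1 hc2 hb (x := r / 3 ^ n) (y := y) (by
          intro z z1 z2
          rw [div_le_iff₀ hn] at z1
          rw [le_div_iff₀ hn] at z2
          have := psi_T hi 0 (vert_mem_T r (y := z * 3 ^ n - i) (by linarith) (by linarith))
          simpa [psi, hn.ne'] using this)
        (by rw [hy]; gcongr; linarith) (by rw [hy]; gcongr; linarith)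
      have hsub : ∀ s ∈ uIcc (r : ℝ) ξ, (s / 3 ^ n, y) ∈ T := by
        intro s hs
        rcases mem_uIcc.1 hs with h | h
        · exact hseg s (by linarith [h.1]) (by linarith [h.2])
        · exact hseg s (by linarith [h.1]) (by linarith [h.2])
      have hcn : ContinuousOn (fun s => (g (s / 3 ^ n, y)).2) (uIcc (r : ℝ) ξ) :=
        continuous_snd.comp_continuousOn (hg.cont.comp (by fun_prop) hsub)
      have hy1 : y ≠ (1 / 3 + i) / 3 ^ n := by
        rw [hy]; apply ne_of_gt; gcongr; linarith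
      have hy2 : y ≠ (2 / 3 + i) / 3 ^ n := by
        rw [hy]; apply ne_of_lt; gcongr; linarith
      have b1 : (g (0, (1 / 3 + i) / 3 ^ n)).2 < (g (ξ / 3 ^ n, y)).2 := by
        by_contra hcon
        push Not at hcon
        obtain ⟨z, hz, hz'⟩ := intermediate_value_uIcc hcn
          (mem_uIcc.2 (Or.inr ⟨hcon, hv.1.le⟩))
        exact hy1 (hh.eq_of_snd hg hl (hsub z hz) hc1 hz')
      have b2 : (g (ξ / 3 ^ n, y)).2 < (g (0, (2 / 3 + i) / 3 ^ n)).2 := by
        by_contra hcon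
        push Not at hcon
        obtain ⟨z, hz, hz'⟩ := intermediate_value_uIcc hcn
          (mem_uIcc.2 (Or.inl ⟨hv.2.le, hcon⟩))
        exact hy2 (hh.eq_of_snd hg hl (hsub z hz) hc2 hz')
      refine ⟨hseg ξ hr1 hr2, fun hm => hg.maps _ (hseg ξ hr1 hr2) k ⟨hm, j, ?_, ?_⟩⟩
      · rw [e1, div_lt_iff₀ hk] at b1; linarith
      · rw [e2, lt_div_iff₀ hk] at b2; linarith
    have hmem := fun t : ℕ => step (1 / 3 ^ (t + 1)) (inv_pow_mem_C _) (by positivity) (by
      rw [div_lt_one (by positivity)]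
      exact one_lt_pow₀ (by norm_num) (by omega))
    have hlim : Tendsto 
        (fun t : ℕ => (ξ / 3 ^ n, (((1 : ℝ) / 3 ^ (t + 1) + 1) / 3 + i) / 3 ^ n)) atTop
        (𝓝[T] (ξ / 3 ^ n, ((1 : ℝ) / 3 + i) / 3 ^ n)) := by
      refine tendsto_nhdsWithin_iff.2 ⟨?_, Eventually.of_forall fun t => (hmem t).1⟩
      refine tendsto_const_nhds.prodMk_nhds ?_
      have h0 : Tendsto (fun t : ℕ => (1 : ℝ) / 3 ^ (t + 1)) atTop (𝓝 0) := by
        have := (tendsto_pow_atTop_nhds_zero_of_lt_one (r := (1 / 3 : ℝ)) (by norm_num)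
          (by norm_num)).comp (tendsto_add_atTop_nat 1)
        refine this.congr fun t => ?_
        simp
      have := (((h0.add_const 1).div_const 3).add_const (i : ℝ)).div_const (3 ^ n)
      simpa using this
    have hlim2 := ((continuous_fst.tendsto _).comp
      ((hg.cont _ (line_mem_T hc1 (ξ / 3 ^ n))).tendsto.comp hlim)).const_mul (3 ^ k)
    have := isOpen_mid.isClosed_compl.mem_of_tendsto hlim2
      (Eventually.of_forall fun t => (hmem t).2)
    rw [hh _ hc1] at this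
    simp only [mem_compl_iff, mem_ofPred_eq] at this
    convert this using 2
    field_simp)
  refine ⟨?_, a, h2⟩
  rwa [div_eq_one_iff_eq hn.ne'] at h1

end Pool.Agent.MP_d4b492_an

end MrgPart0

-- ======== part 1: formerly Pool.Agent.MP_d4b492_an.Local
section MrgPart1

set_option autoImplicit false

open Set Filter Topology

namespace Pool.Agent.MP_d4b492_an

theorem n1_four {a b : Pt} {r : ℝ} (h : n1 (a - b) ≤ r) :
    (a.1 - b.1) + (a.2 - b.2) ≤ r ∧ (a.1 - b.1) - (a.2 - b.2) ≤ r ∧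
      -(a.1 - b.1) + (a.2 - b.2) ≤ r ∧ -(a.1 - b.1) - (a.2 - b.2) ≤ r := by
  simp only [n1, Prod.fst_sub, Prod.snd_sub] at h
  refine ⟨?_, ?_, ?_, ?_⟩ <;>
    linarith [le_abs_self (a.1 - b.1), neg_abs_le (a.1 - b.1), le_abs_self (a.2 - b.2),
      neg_abs_le (a.2 - b.2)]

section

variable {K L : ℝ} {D : Set Pt} {h : Pt → Pt}

theorem Good.H (hg : Good K L D h) {a b c x x' : ℝ} (hW : W a b ⊆ D) (hc : c ∈ C) (h1 : a ≤ x)
    (h2 : x ≤ x') (h3 : x' ≤ b) : n1 (h (x', c) - h (x, c)) ≤ L * (x' - x) :=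
  hg.lipH c x x' h2 (fun _ t1 t2 => hW (line_mem_W hc (h1.trans t1) (t2.trans h3)))

theorem Good.V (hg : Good K L D h) {a b x y y' : ℝ} (hW : W a b ⊆ D) (hx : x ∈ Ct) (h1 : a ≤ x)
    (h2 : x ≤ b) (h3 : 0 ≤ y) (h4 : y ≤ y') (h5 : y' ≤ 1) :
    n1 (h (x, y') - h (x, y)) ≤ L * (y' - y) :=
  hg.lipV x y y' h4 (fun _ t1 t2 => hW (vert_mem_W hx h1 h2 (h3.trans t1) (t2.trans h5)))

theorem Good.transH (hg : Good K 1 D h) {y x x' t : ℝ}
    (hs : ∀ t, x ≤ t → t ≤ x' → (t, y) ∈ D) (e1 : (h (x', y)).1 = (h (x, y)).1 + (x' - x))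
    (t1 : x ≤ t) (t2 : t ≤ x') :
    (h (t, y)).1 = (h (x, y)).1 + (t - x) ∧ (h (t, y)).2 = (h (x, y)).2 := by
  obtain ⟨a1, a2, a3, a4⟩ := n1_four (hg.lipH y x t t1 (fun s s1 s2 => hs s s1 (s2.trans t2)))
  obtain ⟨b1, b2, b3, b4⟩ := n1_four (hg.lipH y t x' t2 (fun s s1 s2 => hs s (t1.trans s1) s2))
  constructor <;> linarith

theorem Good.fixH (hg : Good K 1 D h) {y x x' t : ℝ}
    (hs : ∀ t, x ≤ t → t ≤ x' → (t, y) ∈ D) (e1 : h (x, y) = (x, y)) (e2 : h (x', y) = (x', y))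
    (t1 : x ≤ t) (t2 : t ≤ x') : h (t, y) = (t, y) := by
  obtain ⟨a, b⟩ := hg.transH hs (by rw [e1, e2]; ring) t1 t2
  rw [e1] at a b
  exact Prod.ext (by rw [a]; ring) b

theorem Good.fixV (hg : Good K 1 D h) {x y y' t : ℝ}
    (hs : ∀ t, y ≤ t → t ≤ y' → (x, t) ∈ D) (e1 : h (x, y) = (x, y)) (e2 : h (x, y') = (x, y'))
    (t1 : y ≤ t) (t2 : t ≤ y') : h (x, t) = (x, t) := by
  obtain ⟨a1, a2, a3, a4⟩ := n1_four (hg.lipV x y t t1 (fun s s1 s2 => hs s s1 (s2.trans t2)))
  obtain ⟨b1, b2, b3, b4⟩ := n1_four (hg.lipV x t y' t2 (fun s s1 s2 => hs s (t1.trans s1) s2))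
  rw [e1] at a1 a2 a3 a4
  rw [e2] at b1 b2 b3 b4
  simp only at a1 a2 a3 a4 b1 b2 b3 b4
  exact Prod.ext (by linarith) (by linarith)

theorem not_hole {p : Pt} (hp : p ∈ P) (i j : ℤ) (h1 : i + 1 / 3 < p.1) (h2 : p.1 < i + 2 / 3)
    (h3 : j + 1 / 3 < p.2) (h4 : p.2 < j + 2 / 3) : False :=
  hp 0 ⟨⟨i, by simpa using h1, by simpa using h2⟩, ⟨j, by simpa using h3, by simpa using h4⟩⟩

theorem dist_lt_four {a b : Pt} {r : ℝ} (h : dist a b < r) :
    a.1 - b.1 < r ∧ b.1 - a.1 < r ∧ a.2 - b.2 < r ∧ b.2 - a.2 < r := by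
  rw [Prod.dist_eq, max_lt_iff, Real.dist_eq, Real.dist_eq, abs_lt, abs_lt] at h
  exact ⟨h.1.2, by linarith [h.1.1], h.2.2, by linarith [h.2.1]⟩

theorem third_Ct (r : ℤ) : (r : ℝ) + 1 / 3 ∈ Ct := by
  rw [add_comm]; exact (Ct_add_int r).2 third_mem_C.1

theorem two_thirds_Ct (r : ℤ) : (r : ℝ) + 2 / 3 ∈ Ct := by
  rw [add_comm]; exact (Ct_add_int r).2 two_thirds_mem_C.1

/-- A hole whose side midpoints are nearly fixed is mapped tightly onto the target hole. -/
theorem tight (hg : Good K 1 D h) (r : ℤ) (hW : W r (r + 1) ⊆ D)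
    (cB : dist (h (r + 1 / 2, 1 / 3)) (r + 1 / 2, 1 / 3) < 1 / 10)
    (cR : dist (h (r + 2 / 3, 1 / 2)) (r + 2 / 3, 1 / 2) < 1 / 10)
    (cT : dist (h (r + 1 / 2, 2 / 3)) (r + 1 / 2, 2 / 3) < 1 / 10)
    (cL : dist (h (r + 1 / 3, 1 / 2)) (r + 1 / 3, 1 / 2) < 1 / 10) :
    (h (r + 1 / 2, 1 / 3)).2 = 1 / 3 ∧ (h (r + 1 / 2, 2 / 3)).2 = 2 / 3 ∧
      (h (r + 1 / 2, 1 / 3)).1 + (h (r + 1 / 2, 2 / 3)).1 = 2 * r + 1 := by
  obtain ⟨B1, B2, B3, B4⟩ := dist_lt_four cB
  obtain ⟨R1, R2, R3, R4⟩ := dist_lt_four cR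
  obtain ⟨T1, T2, T3, T4⟩ := dist_lt_four cT
  obtain ⟨L1, L2, L3, L4⟩ := dist_lt_four cL
  simp only at B1 B2 B3 B4 R1 R2 R3 R4 T1 T2 T3 T4 L1 L2 L3 L4
  have mB := hg.maps _ (hW (line_mem_W (x := r + 1 / 2) third_mem_C (by linarith) (by linarith)))
  have mT := hg.maps _
    (hW (line_mem_W (x := r + 1 / 2) two_thirds_mem_C (by linarith) (by linarith)))
  have mR := hg.maps _ (hW (vert_mem_W (y := 1 / 2) (two_thirds_Ct r) (by linarith) (by linarith)
    (by norm_num) (by norm_num)))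
  have mL := hg.maps _ (hW (vert_mem_W (y := 1 / 2) (third_Ct r) (by linarith) (by linarith)
    (by norm_num) (by norm_num)))
  have hB : (h (r + 1 / 2, 1 / 3)).2 ≤ 1 / 3 := by
    by_contra hc
    exact not_hole mB r 0 (by linarith) (by linarith) (by simp only [Int.cast_zero]; linarith)
      (by simp only [Int.cast_zero]; linarith)
  have hT : 2 / 3 ≤ (h (r + 1 / 2, 2 / 3)).2 := by
    by_contra hc
    exact not_hole mT r 0 (by linarith) (by linarith) (by simp only [Int.cast_zero]; linarith)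
      (by simp only [Int.cast_zero]; linarith)
  have hR : r + 2 / 3 ≤ (h (r + 2 / 3, 1 / 2)).1 := by
    by_contra hc
    exact not_hole mR r 0 (by linarith) (by linarith) (by simp only [Int.cast_zero]; linarith)
      (by simp only [Int.cast_zero]; linarith)
  have hL : (h (r + 1 / 3, 1 / 2)).1 ≤ r + 1 / 3 := by
    by_contra hc
    exact not_hole mL r 0 (by linarith) (by linarith) (by simp only [Int.cast_zero]; linarith)
      (by simp only [Int.cast_zero]; linarith)
  have s1 := n1_four (hg.H hW third_mem_C (x := r + 1 / 2) (x' := r + 2 / 3) (by linarith)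
    (by linarith) (by linarith))
  have s2 := n1_four (hg.V hW (two_thirds_Ct r) (y := 1 / 3) (y' := 1 / 2) (by linarith)
    (by linarith) (by norm_num) (by norm_num) (by norm_num))
  have s3 := n1_four (hg.V hW (two_thirds_Ct r) (y := 1 / 2) (y' := 2 / 3) (by linarith)
    (by linarith) (by norm_num) (by norm_num) (by norm_num))
  have s4 := n1_four (hg.H hW two_thirds_mem_C (x := r + 1 / 2) (x' := r + 2 / 3) (by linarith)
    (by linarith) (by linarith))
  have s5 := n1_four (hg.H hW two_thirds_mem_C (x := r + 1 / 3) (x' := r + 1 / 2) (by linarith)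
    (by linarith) (by linarith))
  have s6 := n1_four (hg.V hW (third_Ct r) (y := 1 / 2) (y' := 2 / 3) (by linarith)
    (by linarith) (by norm_num) (by norm_num) (by norm_num))
  have s7 := n1_four (hg.V hW (third_Ct r) (y := 1 / 3) (y' := 1 / 2) (by linarith)
    (by linarith) (by norm_num) (by norm_num) (by norm_num))
  have s8 := n1_four (hg.H hW third_mem_C (x := r + 1 / 3) (x' := r + 1 / 2) (by linarith)
    (by linarith) (by linarith))
  have t1 := s1.1
  have t2 := s2.1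
  have t3 := s3.2.2.1
  have t4 := s4.2.1
  have t5 := s5.1
  have t6 := s6.1
  have t7 := s7.2.2.1
  have t8 := s8.2.1
  refine ⟨by linarith, by linarith, by linarith⟩

/-- The eight test points. -/
def tests : Set Pt :=
  {(1 / 2, 1 / 3), (2 / 3, 1 / 2), (1 / 2, 2 / 3), (1 / 3, 1 / 2),
    (1 + 1 / 2, 1 / 3), (1 + 2 / 3, 1 / 2), (1 + 1 / 2, 2 / 3), (1 + 1 / 3, 1 / 2)}

theorem tests_finite : tests.Finite := by simp [tests]

theorem tests_subset : tests ⊆ W 0 2 := by
  have a1 := third_Ct 0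
  have a2 := two_thirds_Ct 0
  have a3 := third_Ct 1
  have a4 := two_thirds_Ct 1
  simp only [Int.cast_zero, zero_add, Int.cast_one] at a1 a2 a3 a4
  rintro t (rfl | rfl | rfl | rfl | rfl | rfl | rfl | rfl)
  · exact line_mem_W third_mem_C (by norm_num) (by norm_num)
  · exact vert_mem_W a2 (by norm_num) (by norm_num) (by norm_num) (by norm_num)
  · exact line_mem_W two_thirds_mem_C (by norm_num) (by norm_num)
  · exact vert_mem_W a1 (by norm_num) (by norm_num) (by norm_num) (by norm_num)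
  · exact line_mem_W third_mem_C (by norm_num) (by norm_num)
  · exact vert_mem_W a4 (by norm_num) (by norm_num) (by norm_num) (by norm_num)
  · exact line_mem_W two_thirds_mem_C (by norm_num) (by norm_num)
  · exact vert_mem_W a3 (by norm_num) (by norm_num) (by norm_num) (by norm_num)

/-- Nearly the identity on the test points. -/
def Close (g : Pt → Pt) : Prop := ∀ t ∈ tests, dist (g t) t < 1 / 10

theorem close_ev {F : Filter ℕ} {g : ℕ → Pt → Pt} {G : Pt → Pt}
    (hl : ∀ t ∈ tests, Tendsto (fun k => g k t) F (𝓝 (G t))) (hG : Close G) :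
    ∀ᶠ k in F, Close (g k) := by
  refine (eventually_all_finite tests_finite).2 fun t ht => ?_
  exact ((hl t ht).dist tendsto_const_nhds).eventually (gt_mem_nhds (hG t ht))

theorem W_mono {a b a' b' : ℝ} (h1 : a ≤ a') (h2 : b' ≤ b) : W a' b' ⊆ W a b :=
  fun _ hp => ⟨hp.1, h1.trans hp.2.1, hp.2.2.1.trans h2, hp.2.2.2⟩

/-- Exactness: nearly fixed test points force four grid points to be fixed. -/
theorem exact_of_close (hg : Good K 1 D h) (hW : W 0 2 ⊆ D) (hc : Close h) :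
    h (2 / 3, 1 / 3) = (2 / 3, 1 / 3) ∧ h (1, 1 / 3) = (1, 1 / 3) ∧
      h (2 / 3, 2 / 3) = (2 / 3, 2 / 3) ∧ h (1, 2 / 3) = (1, 2 / 3) := by
  have A := tight hg 0 ((W_mono (by simp) (by norm_num)).trans hW)
    (by simpa using hc (1 / 2, 1 / 3) (by simp [tests]))
    (by simpa using hc (2 / 3, 1 / 2) (by simp [tests]))
    (by simpa using hc (1 / 2, 2 / 3) (by simp [tests]))
    (by simpa using hc (1 / 3, 1 / 2) (by simp [tests]))
  have B := tight hg 1 ((W_mono (by simp) (by norm_num)).trans hW)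
    (by simpa using hc (1 + 1 / 2, 1 / 3) (by simp [tests]))
    (by simpa using hc (1 + 2 / 3, 1 / 2) (by simp [tests]))
    (by simpa using hc (1 + 1 / 2, 2 / 3) (by simp [tests]))
    (by simpa using hc (1 + 1 / 3, 1 / 2) (by simp [tests]))
  simp only [Int.cast_zero, zero_add, Int.cast_one] at A B
  obtain ⟨A1, A2, A3⟩ := A
  obtain ⟨B1, B2, B3⟩ := B
  have s1 := (n1_four (hg.H hW third_mem_C (x := 1 / 2) (x' := 1 + 1 / 2) (by norm_num)
    (by norm_num) (by norm_num))).1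
  have s2 := (n1_four (hg.H hW two_thirds_mem_C (x := 1 / 2) (x' := 1 + 1 / 2) (by norm_num)
    (by norm_num) (by norm_num))).1
  have l1 : ∀ t : ℝ, 1 / 2 ≤ t → t ≤ 1 + 1 / 2 → (t, 1 / 3) ∈ D := fun t a b =>
    hW (line_mem_W third_mem_C (by linarith) (by linarith))
  have l2 : ∀ t : ℝ, 1 / 2 ≤ t → t ≤ 1 + 1 / 2 → (t, 2 / 3) ∈ D := fun t a b =>
    hW (line_mem_W two_thirds_mem_C (by linarith) (by linarith))
  obtain ⟨c1, c2⟩ := hg.transH l1 (by linarith) (t := 2 / 3) (by norm_num) (by norm_num)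
  obtain ⟨c3, c4⟩ := hg.transH l1 (by linarith) (t := 1) (by norm_num) (by norm_num)
  obtain ⟨d1, d2⟩ := hg.transH l2 (by linarith) (t := 2 / 3) (by norm_num) (by norm_num)
  obtain ⟨d3, d4⟩ := hg.transH l2 (by linarith) (t := 1) (by norm_num) (by norm_num)
  obtain ⟨v1, -, v3, -⟩ := n1_four (hg.V hW two_thirds_mem_C.1 (y := 1 / 3) (y' := 2 / 3)
    (by norm_num) (by norm_num) (by norm_num) (by norm_num) (by norm_num))
  refine ⟨Prod.ext ?_ ?_, Prod.ext ?_ ?_, Prod.ext ?_ ?_, Prod.ext ?_ ?_⟩ <;>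
    simp only <;> linarith

theorem zm_fix (n : ℕ) (i j : ℤ) (h : Pt → Pt) (p : Pt) :
    zm n n i j (i, j) h p = p ↔ h (psi n i j p) = psi n i j p := by
  have h3 : (3 : ℝ) ^ n ≠ 0 := by positivity
  constructor
  · intro e
    have e1 := congrArg Prod.fst e
    have e2 := congrArg Prod.snd e
    simp only [zm] at e1 e2
    refine Prod.ext ?_ ?_
    · conv_rhs => simp only [psi]
      field_simp; linarith
    · conv_rhs => simp only [psi]
      field_simp; linarith
  · intro e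
    simp only [zm, e]
    simp only [psi]
    refine Prod.ext ?_ ?_ <;> simp only <;> field_simp <;> ring

theorem grid_fixed (hg : Good K 1 D h) (hS : S ⊆ D) (c1 : h (0, 0) = (0, 0))
    (c2 : h (1, 0) = (1, 0)) (c3 : h (0, 1) = (0, 1)) (c4 : h (1, 1) = (1, 1)) {x y : ℝ}
    (hx : x ∈ C) (h0 : 0 ≤ y) (h1 : y ≤ 1) : h (x, y) = (x, y) :=
  hg.fixV (fun _ a b => hS (vert_mem_W hx.1 hx.2.1 hx.2.2 a b))
    (hg.fixH (fun _ a b => hS (line_mem_W zero_mem_C a b)) c1 c2 hx.2.1 hx.2.2)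
    (hg.fixH (fun _ a b => hS (line_mem_W one_mem_C a b)) c3 c4 hx.2.1 hx.2.2) h0 h1

theorem corners_approx (K : ℝ) (n : ℕ) : ∀ (D : Set Pt) (h : Pt → Pt), Good K 1 D h → S ⊆ D →
    h (0, 0) = (0, 0) → h (1, 0) = (1, 0) → h (0, 1) = (0, 1) → h (1, 1) = (1, 1) →
    ∀ p ∈ S, dist (h p) p ≤ (|K| + 1) / 3 ^ n := by
  induction n with
  | zero =>
    intro D h hg hS c1 _ _ _ p hp
    have h1 := hg.hi p (hS hp) (0, 0) (hS (line_mem_W zero_mem_C le_rfl zero_le_one))
    have h2 : dist p (0, 0) ≤ 1 := by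
      rw [Prod.dist_eq, max_le_iff, Real.dist_eq, Real.dist_eq]
      simp only [sub_zero]
      exact ⟨by rw [abs_of_nonneg hp.2.1]; exact hp.2.2.1,
        by rw [abs_of_nonneg hp.2.2.2.1]; exact hp.2.2.2.2⟩
    rw [c1] at h1
    have h3 := dist_triangle_right (h p) p (0, 0)
    have h4 : K * dist p (0, 0) ≤ |K| * 1 :=
      (mul_le_mul_of_nonneg_right (le_abs_self K) dist_nonneg).trans (by gcongr)
    simp only [pow_zero, div_one]
    linarith
  | succ n ih =>
    intro D h hg hS c1 c2 c3 c4 p hp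
    obtain ⟨d, e, hd, hq⟩ := S_split hp
    have hsub : ∀ q ∈ S, psi 1 d e q ∈ S := fun q hq => by simpa [psi] using S_sub hq hd
    have hg' := hg.zoom (D' := S) 1 d e (d, e) (fun q hq => hS (hsub q hq))
    have hC : ∀ a : ℝ, a = 0 ∨ a = 1 → (a + d) / 3 ^ 1 ∈ C := by
      obtain ⟨d0, d2, -⟩ := hd
      intro a ha
      have : d = 0 ∨ d = 1 ∨ d = 2 := by omega
      rcases ha with rfl | rfl <;> rcases this with rfl | rfl | rfl <;> norm_num <;>
        first
          | exact zero_mem_C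
          | exact one_mem_C
          | exact two_thirds_mem_C
          | simpa using third_mem_C
    have hfix : ∀ a b : ℝ, a = 0 ∨ a = 1 → b ∈ C → zm 1 1 d e (d, e) h (a, b) = (a, b) := by
      intro a b ha hb
      rw [zm_fix]
      have hm := hsub (a, b) (line_mem_W hb (by rcases ha with rfl | rfl <;> norm_num)
        (by rcases ha with rfl | rfl <;> norm_num))
      exact grid_fixed hg hS c1 c2 c3 c4 (hC a ha) hm.2.2.2.1 hm.2.2.2.2
    have := ih S _ hg' subset_rfl (hfix 0 0 (Or.inl rfl) zero_mem_C)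
      (hfix 1 0 (Or.inr rfl) zero_mem_C) (hfix 0 1 (Or.inl rfl) one_mem_C)
      (hfix 1 1 (Or.inr rfl) one_mem_C) _ hq
    have e1 : psi 1 d e (3 * p.1 - d, 3 * p.2 - e) = p := by
      simp [psi]
    have e2 : dist (zm 1 1 d e (d, e) h (3 * p.1 - d, 3 * p.2 - e)) (3 * p.1 - d, 3 * p.2 - e) =
        3 * dist (h p) p := by
      simp only [zm, e1, Prod.dist_eq, Real.dist_eq]
      rw [mul_max_of_nonneg _ _ (by norm_num : (0 : ℝ) ≤ 3)]
      congr 1
      · rw [show 3 ^ 1 * (h p).1 - d - (3 * p.1 - d) = 3 * ((h p).1 - p.1) by ring, abs_mul]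
        norm_num
      · rw [show 3 ^ 1 * (h p).2 - e - (3 * p.2 - e) = 3 * ((h p).2 - p.2) by ring, abs_mul]
        norm_num
    rw [e2, le_div_iff₀ (by positivity)] at this
    rw [le_div_iff₀ (by positivity), pow_succ]
    linarith

/-- A square whose four corners are fixed is fixed. -/
theorem fix_of_corners (hg : Good K 1 D h) (hS : S ⊆ D) (c1 : h (0, 0) = (0, 0))
    (c2 : h (1, 0) = (1, 0)) (c3 : h (0, 1) = (0, 1)) (c4 : h (1, 1) = (1, 1)) :
    ∀ p ∈ S, h p = p := by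
  intro p hp
  by_contra hne
  have hpos : 0 < dist (h p) p := dist_pos.2 hne
  obtain ⟨n, hn⟩ := pow_unbounded_of_one_lt ((|K| + 1) / dist (h p) p) (by norm_num : (1 : ℝ) < 3)
  have := corners_approx K n D h hg hS c1 c2 c3 c4 p hp
  rw [div_lt_iff₀ hpos] at hn
  rw [le_div_iff₀ (by positivity)] at this
  linarith

theorem her_U : Her (Two (fun d w => w.1 + w.2 = d.1 + d.2)) := by
  apply her_two
  · intro d; exact isClosed_eq (by fun_prop) continuous_const
  · intro d w t _ H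
    simp only [Prod.smul_fst, Prod.smul_snd, smul_eq_mul]
    linear_combination t * H

theorem her_O : Her (Two (fun d w => d.1 + d.2 = 0 → 0 ≤ d.2 → w.1 ≤ 0)) := by
  apply her_two
  · intro d
    by_cases h : d.1 + d.2 = 0 ∧ 0 ≤ d.2
    · simp only [h.1, h.2, forall_const]
      exact isClosed_le (by fun_prop) continuous_const
    · have : {w : Pt | d.1 + d.2 = 0 → 0 ≤ d.2 → w.1 ≤ 0} = univ := by
        ext w; simp only [mem_ofPred_eq, mem_univ, iff_true]
        exact fun a b => absurd ⟨a, b⟩ h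
      rw [this]; exact isClosed_univ
  · intro d w t ht H h1 h2
    simp only [Prod.smul_snd, Prod.smul_fst, smul_eq_mul] at h1 h2 ⊢
    have h3 : d.1 + d.2 = 0 := by
      have : t * (d.1 + d.2) = 0 := by linarith
      simpa [ht.ne'] using this
    have h4 : 0 ≤ d.2 := by
      by_contra hc
      nlinarith
    nlinarith [H h3 h4]

/-- A square whose bottom and right sides are fixed is fixed. -/
theorem fix_of_two_sides (hg : Good K 1 D h) (hS : S ⊆ D) (c1 : h (0, 0) = (0, 0))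
    (c2 : h (1, 0) = (1, 0)) (c4 : h (1, 1) = (1, 1)) : ∀ p ∈ S, h p = p := by
  have hg' := hg.mono hS
  have hright : ∀ y, 0 ≤ y → y ≤ 1 → h (1, y) = (1, y) := fun y a b =>
    hg'.fixV (fun _ a b => vert_mem_W one_mem_C.1 zero_le_one le_rfl a b) c2 c4 a b
  have hz : (h (0, 1)).1 + (h (0, 1)).2 = 1 := by
    have a := (n1_four (hg'.V subset_rfl zero_mem_C.1 le_rfl zero_le_one le_rfl zero_le_one
      le_rfl)).1
    have b := (n1_four (hg'.H subset_rfl one_mem_C le_rfl zero_le_one le_rfl)).1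
    rw [c1] at a
    rw [c4] at b
    simp only at a b
    linarith
  have hleft : ∀ y, 0 ≤ y → y ≤ 1 → (h (0, y)).1 + (h (0, y)).2 = y := by
    intro y y0 y1
    have a := (n1_four (hg'.V subset_rfl zero_mem_C.1 le_rfl zero_le_one le_rfl y0 y1)).1
    have b := (n1_four (hg'.V subset_rfl zero_mem_C.1 le_rfl zero_le_one y0 y1 le_rfl)).1
    rw [c1] at a
    simp only at a b
    linarith
  have hU : ∀ c ∈ C, ∀ x, 0 ≤ x → x ≤ 1 → (h (x, c)).1 + (h (x, c)).2 = x + c := by
    intro c hc x x0 x1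
    have a := (n1_four (hg'.H subset_rfl hc le_rfl x0 x1)).1
    have b := (n1_four (hg'.H subset_rfl hc x0 x1 le_rfl)).1
    rw [hright c hc.2.1 hc.2.2] at b
    simp only at b
    linarith [hleft c hc.2.1 hc.2.2]
  have hmon : ∀ c ∈ C, ∀ x, 0 ≤ x → x ≤ 1 → (h (x, c)).1 ≤ 1 ∧ (h (x, c)).2 ≤ c := by
    intro c hc x x0 x1
    obtain ⟨-, a, b, -⟩ := n1_four (hg'.H subset_rfl hc x0 x1 le_rfl)
    rw [hright c hc.2.1 hc.2.2] at a b
    simp only at a b
    constructor <;> linarith [hU c hc x x0 x1]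
  have QU : Two (fun d w => w.1 + w.2 = d.1 + d.2) S h := by
    rintro ⟨x, c⟩ hp ⟨x', c'⟩ hq hc hc'
    simp only [Prod.fst_sub, Prod.snd_sub]
    linarith [hU c hc x hp.2.1 hp.2.2.1, hU c' hc' x' hq.2.1 hq.2.2.1]
  have QO : Two (fun d w => d.1 + d.2 = 0 → 0 ≤ d.2 → w.1 ≤ 0) S h := by
    rintro ⟨x, c⟩ hp ⟨x', c'⟩ hq hc hc' h1 h2
    simp only [Prod.fst_sub, Prod.snd_sub] at h1 h2 hc hc' ⊢
    rcases h2.eq_or_lt with h3 | h3
    · obtain rfl : c = c' := by linarith
      obtain rfl : x = x' := by linarith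
      simp
    · by_contra hcon
      push Not at hcon
      have x0 : 0 ≤ x := hp.2.1
      have x1 : x' ≤ 1 := hq.2.2.1
      have m1 : ∀ t ∈ Icc (0 : ℝ) (1 - x'), (x + t, c) ∈ S := fun t ht =>
        line_mem_W hc (by linarith [ht.1]) (by linarith [ht.2])
      have m2 : ∀ t ∈ Icc (0 : ℝ) (1 - x'), (x' + t, c') ∈ S := fun t ht =>
        line_mem_W hc' (by linarith [ht.1]) (by linarith [ht.2])
      have hcn : ContinuousOn (fun t => (h (x + t, c)).1 - (h (x' + t, c')).1) (Icc 0 (1 - x')) :=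
        (continuous_fst.comp_continuousOn (hg'.cont.comp (by fun_prop) m1)).sub
          (continuous_fst.comp_continuousOn (hg'.cont.comp (by fun_prop) m2))
      obtain ⟨t, ht, e⟩ := intermediate_value_Icc' (by linarith : (0 : ℝ) ≤ 1 - x') hcn
        (show (0 : ℝ) ∈ Icc _ _ from ⟨by
          have := (hmon c hc (x + (1 - x')) (by linarith) (by linarith)).1
          rw [show x' + (1 - x') = 1 by ring, hright c' hc'.2.1 hc'.2.2]
          simp only
          linarith, by simpa using hcon.le⟩)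
      simp only at e
      have u1 := hU c hc _ (m1 t ht).2.1 (m1 t ht).2.2.1
      have u2 := hU c' hc' _ (m2 t ht).2.1 (m2 t ht).2.2.1
      simp only at u1 u2
      have := congrArg Prod.snd (hg'.inj (m1 t ht) (m2 t ht) (Prod.ext (by linarith) (by linarith)))
      simp only at this
      linarith
  obtain ⟨m, G, hb, ⟨hG, GU, GO⟩, hG'⟩ := tangent_single ((her_good K 1).and (her_U.and her_O))
    (fun _ _ H => H.1) ⟨hg', QU, QO⟩ 0 1
  have hv : ∀ c ∈ C, ∀ x, G (x, c) = ((G (0, c)).1 + x * (1 - m, m).1,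
      (G (0, c)).2 + x * (1 - m, m).2) := by
    intro c hc x
    have a := hG' c hc 0 x
    have b := GU _ (line_mem_T hc x) _ (line_mem_T hc 0) hc hc
    simp only [ph, Prod.fst_sub, Prod.snd_sub] at a b
    exact Prod.ext (by simp only; linarith) (by simp only; linarith)
  rcases axis_parallel hG hv with hm | hm
  · exfalso
    have hm1 : m = 1 := by simp only at hm; linarith
    have a := hv 0 zero_mem_C 1
    have o := GO _ (line_mem_T one_mem_C 0) _ (line_mem_T zero_mem_C 1) one_mem_C zero_mem_C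
      (by simp) (by simp)
    have u := GU _ (line_mem_T one_mem_C 0) _ (line_mem_T zero_mem_C 0) one_mem_C zero_mem_C
    obtain ⟨-, -, v, -⟩ := n1_four (hG.lipV 0 0 1 zero_le_one (fun t a b => vert0_mem_T a b))
    have a1 := congrArg Prod.fst a
    have a2 := congrArg Prod.snd a
    simp only [hm1, Prod.fst_sub, Prod.snd_sub] at a1 a2 o u
    have := congrArg Prod.snd (hG.inj (line_mem_T one_mem_C 0) (line_mem_T zero_mem_C 1)
      (Prod.ext (by linarith) (by linarith)))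
    simp at this
  · have hm0 : m = 0 := hm
    have a := hb.le one_mem_C zero_le_one (line_mem_W one_mem_C le_rfl zero_le_one)
      (line_mem_W one_mem_C zero_le_one le_rfl)
    have b := (hmon 1 one_mem_C 0 le_rfl zero_le_one).2
    rw [c4, hm0] at a
    simp only [ph, Prod.fst_sub, Prod.snd_sub] at a
    exact fix_of_corners hg hS c1 c2 (Prod.ext (by simp only; linarith) (by simp only; linarith)) c4

end

end Pool.Agent.MP_d4b492_an

end MrgPart1

-- ======== part 2: formerly Pool.Agent.MP_d4b492_an.Rows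
section MrgPart2

set_option autoImplicit false

open Set Filter Topology

namespace Pool.Agent.MP_d4b492_an

section

variable {K L : ℝ} {D : Set Pt} {h : Pt → Pt}

theorem ev_abs' (x : ℝ) : ∀ᶠ k : ℕ in (hyperfilter ℕ : Filter ℕ), -(k : ℝ) ≤ x ∧ x ≤ k :=
  hyper_le (ev_abs x)

theorem psi0 (i j : ℤ) (p : Pt) : psi 0 i j p = (p.1 + i, p.2 + j) := by simp [psi]

/-- The unit square with index `(i, j)` is fixed. -/
def Fx (h : Pt → Pt) (i j : ℤ) : Prop := ∀ p ∈ S, h (p.1 + i, p.2 + j) = (p.1 + i, p.2 + j)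

/-- The unit square with index `(i, j)` lies in the domain. -/
def In (D : Set Pt) (i j : ℤ) : Prop := ∀ p ∈ S, (p.1 + i, p.2 + j) ∈ D

theorem c00 : ((0 : ℝ), (0 : ℝ)) ∈ S := line_mem_W zero_mem_C le_rfl zero_le_one
theorem c10 : ((1 : ℝ), (0 : ℝ)) ∈ S := line_mem_W zero_mem_C zero_le_one le_rfl
theorem c01 : ((0 : ℝ), (1 : ℝ)) ∈ S := line_mem_W one_mem_C le_rfl zero_le_one
theorem c11 : ((1 : ℝ), (1 : ℝ)) ∈ S := line_mem_W one_mem_C zero_le_one le_rfl

theorem Fx.apply {i j : ℤ} (H : Fx h i j) {p : Pt} (hp : p ∈ P) (h1 : i ≤ p.1) (h2 : p.1 ≤ i + 1)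
    (h3 : j ≤ p.2) (h4 : p.2 ≤ j + 1) : h p = p := by
  have := H (p.1 - i, p.2 - j) ⟨(P_sub_int i j).2 hp, by simp only; linarith,
    by simp only; linarith, by simp only; linarith, by simp only; linarith⟩
  simpa using this

theorem fx_four (hg : Good K 1 D h) {i j : ℤ} (hi : In D i j) (c1 : h (i, j) = ((i : ℝ), (j : ℝ)))
    (c2 : h (i + 1, j) = ((i : ℝ) + 1, (j : ℝ))) (c3 : h (i, j + 1) = ((i : ℝ), (j : ℝ) + 1))
    (c4 : h (i + 1, j + 1) = ((i : ℝ) + 1, (j : ℝ) + 1)) : Fx h i j := by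
  intro p hp
  have := fix_of_corners (hg.zoom (D' := S) 0 i j (i, j) (fun q hq => by
      rw [psi0]; exact hi q hq)) subset_rfl
    (by rw [zm_fix, psi0]; simpa using c1) (by rw [zm_fix, psi0]; simpa [add_comm] using c2)
    (by rw [zm_fix, psi0]; simpa [add_comm] using c3)
    (by rw [zm_fix, psi0]; simpa [add_comm] using c4) p hp
  rwa [zm_fix, psi0] at this

theorem fx_right (hg : Good K 1 D h) {i j : ℤ} (hi : In D i j) (c1 : h (i, j) = ((i : ℝ), (j : ℝ)))
    (c2 : h (i + 1, j) = ((i : ℝ) + 1, (j : ℝ)))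
    (c4 : h (i + 1, j + 1) = ((i : ℝ) + 1, (j : ℝ) + 1)) : Fx h i j := by
  intro p hp
  have := fix_of_two_sides (hg.zoom (D' := S) 0 i j (i, j) (fun q hq => by
      rw [psi0]; exact hi q hq)) subset_rfl
    (by rw [zm_fix, psi0]; simpa using c1) (by rw [zm_fix, psi0]; simpa [add_comm] using c2)
    (by rw [zm_fix, psi0]; simpa [add_comm] using c4) p hp
  rwa [zm_fix, psi0] at this

theorem S_flip {p : Pt} (hp : p ∈ S) : (1 - p.1, p.2) ∈ S := by
  obtain ⟨h1, h2, h3, h4⟩ := hp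
  refine ⟨?_, by simp only; linarith, by simp only; linarith, h4⟩
  have := (P_add_int 1 0).2 (P_negx.2 h1)
  simpa [neg_add_eq_sub] using this

theorem S_swap {p : Pt} (hp : p ∈ S) : (p.2, p.1) ∈ S :=
  ⟨P_swap.2 hp.1, hp.2.2.2.1, hp.2.2.2.2, hp.2.1, hp.2.2.1⟩

theorem Good.conjx (hg : Good K L D h) : Good K L (ngx ⁻¹' D) (fun p => ngx (h (ngx p))) :=
  (hg.dngx (fun _ hp => hp)).tngx

theorem Good.conjs (hg : Good K L D h) :
    Good K L (Prod.swap ⁻¹' D) (fun p => Prod.swap (h (Prod.swap p))) :=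
  (hg.dswap (fun _ hp => hp)).tswap

theorem In.conjx {i j : ℤ} (hi : In D i j) : In (ngx ⁻¹' D) (-i - 1) j := by
  intro p hp
  have := hi _ (S_flip hp)
  simp only [mem_preimage, ngx]
  convert this using 2
  push_cast; ring

theorem In.conjs {i j : ℤ} (hi : In D i j) : In (Prod.swap ⁻¹' D) j i :=
  fun _ hp => hi _ (S_swap hp)

theorem Fx.conjx {i j : ℤ} (H : Fx h i j) : Fx (fun p => ngx (h (ngx p))) (-i - 1) j := by
  intro p hp
  have := H _ (S_flip hp)
  simp only [ngx]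
  rw [show -(p.1 + ((-i - 1 : ℤ) : ℝ)) = 1 - p.1 + i by push_cast; ring, this]
  simp only [Prod.mk.injEq, and_true]
  push_cast; ring

theorem Fx.conjs {i j : ℤ} (H : Fx h i j) :
    Fx (fun p => Prod.swap (h (Prod.swap p))) j i := by
  intro p hp
  have := H _ (S_swap hp)
  simp only [Prod.swap]
  rw [this]

theorem Fx.of_conjx {i j : ℤ} (H : Fx (fun p => ngx (h (ngx p))) (-i - 1) j) : Fx h i j := by
  have := H.conjx
  simpa [ngx] using this

theorem Fx.of_conjs {i j : ℤ} (H : Fx (fun p => Prod.swap (h (Prod.swap p))) j i) : Fx h i j :=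
  H.conjs

theorem fx_left (hg : Good K 1 D h) {i j : ℤ} (hi : In D i j) (c1 : h (i, j) = ((i : ℝ), (j : ℝ)))
    (c2 : h (i + 1, j) = ((i : ℝ) + 1, (j : ℝ))) (c3 : h (i, j + 1) = ((i : ℝ), (j : ℝ) + 1)) : Fx h i j := by
  apply Fx.of_conjx
  apply fx_right hg.conjx hi.conjx
  · simp only [ngx]
    rw [show -((-i - 1 : ℤ) : ℝ) = i + 1 by push_cast; ring, c2]
    simp only [Prod.mk.injEq, and_true]; push_cast; ring
  · simp only [ngx]
    rw [show -(((-i - 1 : ℤ) : ℝ) + 1) = i by push_cast; ring, c1]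
    simp only [Prod.mk.injEq, and_true]; push_cast; ring
  · simp only [ngx]
    rw [show -(((-i - 1 : ℤ) : ℝ) + 1) = i by push_cast; ring, c3]
    simp only [Prod.mk.injEq, and_true]; push_cast; ring

/-- A row whose bottom line is fixed and whose image avoids the strip below. -/
structure RowHyp (K a b : ℝ) (h : Pt → Pt) : Prop where
  good : Good K 1 (W a b) h
  bot : ∀ x, a ≤ x → x ≤ b → h (x, 0) = (x, 0)
  avoid : ∀ p ∈ W a b, ¬ (a < (h p).1 ∧ (h p).1 < b ∧ -1 < (h p).2 ∧ (h p).2 < 0)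

theorem zm_zm (i i' : ℤ) (g : Pt → Pt) :
    zm 0 0 i' 0 (i', 0) (zm 0 0 i 0 (i, 0) g) = zm 0 0 (i' + i) 0 (i' + i, 0) g := by
  funext p
  simp only [zm, psi0]
  push_cast
  simp only [add_zero, add_assoc, pow_zero, one_mul, sub_zero, Prod.mk.injEq, and_true]
  ring

theorem close_of_lines {g : Pt → Pt} (hg : Good K 1 T g) (h1 : ∀ x, g (x, 1 / 3) = (x, 1 / 3))
    (h2 : ∀ x, g (x, 2 / 3) = (x, 2 / 3)) : Close g := by
  have hv : ∀ x ∈ Ct, g (x, 1 / 2) = (x, 1 / 2) := fun x hx =>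
    hg.fixV (fun t a b => ⟨P_of_Ct1 hx t, by simp only; linarith, by simp only; linarith⟩)
      (h1 x) (h2 x) (by norm_num) (by norm_num)
  have a1 := third_Ct 0
  have a2 := two_thirds_Ct 0
  have a3 := third_Ct 1
  have a4 := two_thirds_Ct 1
  simp only [Int.cast_zero, zero_add, Int.cast_one] at a1 a2 a3 a4
  rintro t (rfl | rfl | rfl | rfl | rfl | rfl | rfl | rfl)
  · rw [h1]; norm_num
  · rw [hv _ a2]; norm_num
  · rw [h2]; norm_num
  · rw [hv _ a1]; norm_num
  · rw [h1]; norm_num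
  · rw [hv _ a4]; norm_num
  · rw [h2]; norm_num
  · rw [hv _ a3]; norm_num

theorem Hor.lo {l : ℝ} {g : Pt → Pt} (hg : Good K L T g) (hh : Hor l g) (hl : 0 < l) :
    ∀ c ∈ C, ∀ c' ∈ C, |c - c'| ≤ K * |(g (0, c)).2 - (g (0, c')).2| := by
  intro c hc c' hc'
  have := hg.lo _ (line_mem_T hc 0) _ (line_mem_T hc' (((g (0, c)).1 - (g (0, c')).1) / l))
  rw [hh c' hc' (_ / _), mul_div_cancel₀ _ hl.ne', add_sub_cancel, Prod.dist_eq, Prod.dist_eq] at this
  simp only [dist_self, dist_nonneg, sup_of_le_right] at this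
  exact (le_max_right _ _).trans this

theorem vert_bound {g : Pt → Pt} (hg : Good K L T g) {c c' : ℝ} (h0 : 0 ≤ c) (hc : c ≤ c')
    (h1 : c' ≤ 1) : n1 (g (0, c') - g (0, c)) ≤ L * (c' - c) :=
  hg.lipV 0 c c' hc (fun _ a b => vert0_mem_T (h0.trans a) (b.trans h1))

theorem hor_of_fst {l : ℝ} {g : Pt → Pt} (hg : Good K l T g)
    (H : ∀ c ∈ C, ∀ x x', (g (x', c)).1 - (g (x, c)).1 = l * (x' - x)) : Hor l g := by
  intro c hc x
  refine Prod.ext (by simp only; linarith [H c hc 0 x]) ?_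
  rcases le_total 0 x with hx | hx
  · obtain ⟨a, b, -, -⟩ := n1_four (hg.lipH c 0 x hx (fun t _ _ => line_mem_T hc t))
    simp only; linarith [H c hc 0 x]
  · obtain ⟨a, b, -, -⟩ := n1_four (hg.lipH c x 0 hx (fun t _ _ => line_mem_T hc t))
    simp only; linarith [H c hc x 0]

theorem row_close (K : ℝ) : ∃ M : ℕ, ∀ h, RowHyp K (-M) M h →
    ∃ i : ℤ, -(M : ℝ) ≤ i ∧ (i : ℝ) + 2 ≤ M ∧ Close (zm 0 0 i 0 (i, 0) h) := by
  by_contra hcon
  push Not at hcon
  choose g hg hnc using hcon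
  let Q : (Pt → Pt) → Prop := fun G => Good K 1 T G ∧ (∀ x, G (x, 0) = (x, 0)) ∧
    (∀ p ∈ T, ¬ (-1 < (G p).2 ∧ (G p).2 < 0)) ∧ ∀ i : ℤ, ¬ Close (zm 0 0 i 0 (i, 0) G)
  have hlim : ∀ (g : ℕ → Pt → Pt) G, (∀ k : ℕ, RowHyp K (-k) k (g k) ∧
      ∀ i : ℤ, -(k : ℝ) ≤ i → (i : ℝ) + 2 ≤ k → ¬ Close (zm 0 0 i 0 (i, 0) (g k))) →
      Lim g G → Q G := by
    intro g G H l
    refine ⟨good_lim g G (fun k => (H k).1.good) l, ?_, ?_, ?_⟩
    · intro x
      refine tendsto_nhds_unique (l _ (line_mem_T zero_mem_C x)) (tendsto_const_nhds.congr' ?_)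
      filter_upwards [hyper_le (ev_abs x)] with k hk using ((H k).1.bot x hk.1 hk.2).symm
    · rintro p hp ⟨a, b⟩
      have l1 := (continuous_fst.tendsto _).comp (l p hp)
      have l2 := (continuous_snd.tendsto _).comp (l p hp)
      have e1 := l1.eventually (lt_mem_nhds (by linarith : (G p).1 - 1 < (G p).1))
      have e2 := l1.eventually (gt_mem_nhds (by linarith : (G p).1 < (G p).1 + 1))
      obtain ⟨k, k1, k2, k3, k4, k5, k6, k7⟩ := ((ev_mem_W hp).and (e1.and (e2.and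
        ((l2.eventually (lt_mem_nhds a)).and ((l2.eventually (gt_mem_nhds b)).and
          ((ev_abs' ((G p).1 - 1)).and (ev_abs' ((G p).1 + 1)))))))).exists
      exact (H k).1.avoid p k1 ⟨lt_of_le_of_lt k6.1 k2, lt_of_lt_of_le k3 k7.2, k4, k5⟩
    · intro i hc
      have := close_ev (F := hyperfilter ℕ) (g := fun k => zm 0 0 i 0 (i, 0) (g k)) (fun t ht => by
        have := l _ (psi_T (zero_mem_V 0) i (W_subset_T _ _ (tests_subset ht)))
        simp only [zm]
        exact ((((continuous_fst.tendsto _).comp this).const_mul _).sub_const _).prodMk_nhds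
          ((((continuous_snd.tendsto _).comp this).const_mul _).sub_const _)) hc
      obtain ⟨k, k1, k2, k3⟩ := (this.and ((ev_abs' i).and
        (ev_abs' (i + 2)))).exists
      exact (H k).2 i k2.1 k3.2 k1
  obtain ⟨G, hG⟩ := exists_lim g (by
    intro p hp
    refine ⟨K * dist p (0, 0) + 1, ?_⟩
    filter_upwards [ev_abs p.1] with k hk
    refine norm_le_of ?_ ((hg k).good.hi _ ⟨hp.1, hk.1, hk.2, hp.2⟩ _
      (line_mem_W zero_mem_C (by simp) (by simp)))
    rw [(hg k).bot 0 (by simp) (by simp)]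
    simp)
  have hQ := hlim g G (fun k => ⟨hg k, hnc k⟩) hG
  obtain ⟨G', ⟨g1, g2, g3, g4⟩, hG'⟩ := second_limit Q (α := 1) (β := 0) (m := 1)
    (fun g G H l => hlim g G (fun k => ⟨⟨(H k).1.mono (W_subset_T _ _),
      fun x _ _ => (H k).2.1 x, fun p hp hc => (H k).2.2.1 p (W_subset_T _ _ hp) hc.2.2⟩,
      fun i _ _ => (H k).2.2.2 i⟩) l)
    (by
      rintro g i ⟨g1, g2, g3, g4⟩
      have e : sh i g = zm 0 0 i 0 (i, 0) g := by simp [sh, g2]
      rw [e]
      refine ⟨g1.zoom 0 i 0 _ (fun p hp => psi_T (zero_mem_V 0) i hp), fun x => ?_,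
        fun p hp => ?_, fun i' => ?_⟩
      · rw [zm_fix, psi0]; simpa using g2 _
      · simpa [zm] using g3 _ (psi_T (zero_mem_V 0) i hp)
      · rw [zm_zm]; exact g4 _)
    hQ hQ.1.hi (by
      rintro ⟨x', c⟩ hp ⟨x, c'⟩ hq hc - h1 h2
      simp only [Prod.mk_sub_mk] at h1 h2 hc ⊢
      obtain rfl : c = c' := by linarith
      obtain ⟨a, b, -, -⟩ := n1_four (hQ.1.lipH c x x' (by linarith)
        (fun t _ _ => line_mem_T hc t))
      simp only [ph, Prod.fst_sub, Prod.snd_sub]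
      linarith)
    zero_mem_C (fun x x' => by simp [hQ.2.1, ph])
  have hh : Hor 1 G' := hor_of_fst g1 (fun c hc x x' => by simpa [ph] using hG' c hc x x')
  have b0 : (G' (0, 0)).2 = 0 := by rw [g2]
  have hb : ∀ c ∈ C, |(G' (0, c)).1| + |(G' (0, c)).2| ≤ c := by
    intro c hc
    have := vert_bound g1 le_rfl hc.2.1 hc.2.2
    simpa [n1, g2] using this
  have b1 : (G' (0, 0)).2 < (G' (0, 1)).2 := by
    rcases lt_trichotomy (G' (0, 0)).2 (G' (0, 1)).2 with h1 | h1 | h1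
    · exact h1
    · have := hh.eq_of_snd g1 one_pos (line_mem_T zero_mem_C 0) one_mem_C h1
      simp at this
    · exfalso
      have hm := Hor.strictMono (g := fun p => ngy (G' p)) g1.tngy (fun c hc x => by
        simp only [ngy]; rw [hh c hc x]) one_pos (by simp only [ngy]; linarith)
      have := hm zero_mem_C third_mem_C (by norm_num)
      simp only [ngy] at this
      have h2 := hb _ third_mem_C
      exact g3 _ (line_mem_T third_mem_C 0) ⟨by
        linarith [neg_abs_le (G' (0, 1 / 3)).2, abs_nonneg (G' (0, 1 / 3)).1], by linarith⟩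
  have hm := hh.strictMono g1 one_pos b1
  have hid := id_of_gaps (b := fun c => (G' (0, c)).2) (K := K)
    (fun c hc => ⟨hh.snd_mem g1 one_pos hc, b0.ge.trans (hm.monotoneOn zero_mem_C hc hc.2.1), by
      linarith [hb c hc, le_abs_self (G' (0, c)).2, abs_nonneg (G' (0, c)).1, hc.2.2]⟩)
    (hh.lo g1 one_pos)
    (by
      have key : ∀ c ∈ C, ∀ c' ∈ C, c' ≤ c → |(G' (0, c)).2 - (G' (0, c')).2| ≤ |c - c'| := by
        intro c hc c' hc' hcc
        have := vert_bound g1 hc'.2.1 hcc hc.2.2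
        simp only [n1, Prod.fst_sub, Prod.snd_sub] at this
        rw [abs_of_nonneg (by linarith : 0 ≤ c - c')]
        linarith [abs_nonneg ((G' (0, c)).1 - (G' (0, c')).1)]
      intro c hc c' hc'
      rcases le_total c' c with h1 | h1
      · exact key c hc c' hc' h1
      · rw [abs_sub_comm, abs_sub_comm c]; exact key c' hc' c hc h1)
    hm (fun n k i j hi e1 e2 => by simpa using (hh.exact_gap g1 one_pos hi e1 e2).1)
  have hfix : ∀ c ∈ C, ∀ x, G' (x, c) = (x, c) := by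
    intro c hc x
    have a := hb c hc
    have b : (G' (0, c)).2 = c := hid c hc
    rw [b, abs_of_nonneg hc.2.1] at a
    have d : (G' (0, c)).1 = 0 := abs_nonpos_iff.1 (by linarith)
    rw [hh c hc, b, d]
    simp
  apply g4 0
  rw [zm_zero]
  exact close_of_lines g1 (hfix _ third_mem_C) (hfix _ two_thirds_mem_C)

theorem in_W {a b : ℝ} {i : ℤ} (h1 : a ≤ i) (h2 : (i : ℝ) + 1 ≤ b) : In (W a b) i 0 := by
  intro p hp
  exact ⟨(P_add_int i 0).2 hp.1, by simp only; linarith [hp.2.1], by simp only; linarith [hp.2.2.1],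
    by simpa using hp.2.2.2.1, by simpa using hp.2.2.2.2⟩

theorem fix_W_of_cells {a b : ℤ} (hab : a < b) (H : ∀ i : ℤ, a ≤ i → i + 1 ≤ b → Fx h i 0) :
    ∀ p ∈ W a b, h p = p := by
  intro p hp
  obtain ⟨h1, h2, h3, h4, h5⟩ := hp
  rcases h3.eq_or_lt with h6 | h6
  · exact (H (b - 1) (by omega) (by omega)).apply h1 (by push_cast; linarith)
      (by push_cast; linarith) (by simpa using h4) (by simpa using h5)
  · exact (H ⌊p.1⌋ (Int.le_floor.2 h2) (Int.floor_lt.2 h6)).apply h1 (Int.floor_le _)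
      (Int.lt_floor_add_one _).le (by simpa using h4) (by simpa using h5)

/-- One fixed square in a row with fixed bottom line fixes the whole row. -/
theorem spread {a b i0 : ℤ} (hg : Good K 1 (W a b) h)
    (hb : ∀ x : ℝ, a ≤ x → x ≤ b → h (x, 0) = (x, 0)) (h1 : a ≤ i0) (h2 : i0 + 1 ≤ b)
    (H : Fx h i0 0) : ∀ p ∈ W a b, h p = p := by
  apply fix_W_of_cells (by omega)
  have cast_le : ∀ {x y : ℤ}, x ≤ y → (x : ℝ) ≤ y := fun h => by exact_mod_cast h
  intro i hi1 hi2
  rcases le_total i0 i with hi | hi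
  · induction i, hi using Int.leInduction with
    | base => exact H
    | succ i hi ih =>
      have a1 := cast_le (h1.trans hi)
      have a2 := cast_le hi2
      push_cast at a2
      have := ih (by omega) (by omega) _ c11
      apply fx_left hg (in_W (cast_le hi1) (by push_cast; linarith))
      · simpa using hb (i + 1) (by linarith) (by linarith)
      · simpa using hb (i + 1 + 1) (by linarith) (by linarith)
      · simpa [add_comm] using this
  · induction i, hi using Int.leInductionDown with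
    | base => exact H
    | pred i hi ih =>
      have a1 := cast_le hi1
      have a2 := cast_le (show i + 1 ≤ b by omega)
      push_cast at a1 a2
      have := ih (by omega) (by omega) _ c01
      apply fx_right hg (in_W (cast_le hi1) (by push_cast; linarith))
      · simpa using hb (i - 1) (by linarith) (by linarith)
      · simpa using hb i (by linarith) (by linarith)
      · simpa using this

theorem psi_W {a b : ℝ} {j : ℤ} (hj : j = 0 ∨ j = 2) {p : Pt} (hp : p ∈ W (3 * a) (3 * b)) :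
    psi 1 0 j p ∈ W a b := by
  have := psi_T (n := 1) (j := j) (mem_V_succ.2 ⟨0, zero_mem_V 0, by simpa using hj⟩) 0
    (W_subset_T _ _ hp)
  refine ⟨this.1, ?_, ?_, this.2⟩
  · simp only [psi]; linarith [hp.2.1]
  · simp only [psi]; linarith [hp.2.2.1]

theorem fix_of_subrow {a b : ℝ} (j : ℤ) {p : Pt} (hp : p ∈ W a b) {y : ℝ}
    (h1 : j ≤ 3 * p.2) (h2 : 3 * p.2 ≤ j + y) (hy : y ≤ 1)
    (H : ∀ q ∈ W (3 * a) (3 * b), q.2 ≤ y → zm 1 1 0 j (0, j) h q = q) : h p = p := by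
  have := H (3 * p.1, 3 * p.2 - j) ⟨by
      have := (P_sub_int 0 j).2 (P_mul_pow (x := p.1) (y := p.2) hp.1 1)
      simpa using this, by simp only; linarith [hp.2.1], by simp only; linarith [hp.2.2.1],
      by simp only; linarith, by simp only; linarith⟩ (by simp only; linarith)
  rw [zm_fix] at this
  simpa [psi] using this

theorem RowHyp.low {a b : ℝ} (H : RowHyp K a b h) :
    RowHyp K (3 * a) (3 * b) (zm 1 1 0 0 (0, 0) h) := by
  refine ⟨H.good.zoom 1 0 0 _ (fun p hp => psi_W (Or.inl rfl) hp), fun x h1 h2 => ?_,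
    fun p hp hc => H.avoid _ (psi_W (Or.inl rfl) hp) ?_⟩
  · rw [zm_fix]
    simpa [psi] using H.bot (x / 3) (by linarith) (by linarith)
  · simp only [zm, Int.cast_zero] at hc
    exact ⟨by linarith [hc.1], by linarith [hc.2.1], by linarith [hc.2.2.1], by linarith [hc.2.2.2]⟩

theorem high_of_fixed {a b : ℝ} (hg : Good K 1 (W a b) h)
    (H : ∀ p ∈ W a b, p.2 ≤ 2 / 3 → h p = p) :
    RowHyp K (3 * a) (3 * b) (zm 1 1 0 2 (0, 2) h) := by
  refine ⟨hg.zoom 1 0 2 _ (fun p hp => psi_W (Or.inr rfl) hp), fun x h1 h2 => ?_,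
    fun p hp hc => ?_⟩
  · rw [zm_fix]
    exact H _ (psi_W (Or.inr rfl) (line_mem_W zero_mem_C h1 h2)) (by simp [psi])
  · simp only [zm, Int.cast_zero, Int.cast_ofNat] at hc
    have hq := psi_W (Or.inr rfl) hp
    have hm : h (psi 1 0 2 p) ∈ W a b := ⟨hg.maps _ hq, by linarith [hc.1], by linarith [hc.2.1],
      by linarith [hc.2.2.1], by linarith [hc.2.2.2]⟩
    have e := hg.inj hm hq (H _ hm (by linarith [hc.2.2.2]))
    have e2 := congrArg Prod.snd e
    have : (psi 1 0 2 p).2 = (p.2 + 2) / 3 := by simp [psi]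
    linarith [hc.2.2.2, hp.2.2.2.1]

/-- If the bottom third of a square is fixed, so are the bottom two thirds. -/
theorem mid_cell (hg : Good K 1 S h) (H : ∀ p ∈ S, p.2 ≤ 1 / 3 → h p = p) :
    ∀ p ∈ S, p.2 ≤ 2 / 3 → h p = p := by
  have mR : ((2 / 3 : ℝ), (2 / 3 : ℝ)) ∈ S := line_mem_W two_thirds_mem_C (by norm_num) (by norm_num)
  have mL : ((1 / 3 : ℝ), (2 / 3 : ℝ)) ∈ S := line_mem_W two_thirds_mem_C (by norm_num) (by norm_num)
  have mM : ((1 / 2 : ℝ), (2 / 3 : ℝ)) ∈ S := line_mem_W two_thirds_mem_C (by norm_num) (by norm_num)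
  have f13 : ∀ x, 0 ≤ x → x ≤ 1 → h (x, 1 / 3) = (x, 1 / 3) := fun x a b =>
    H _ (line_mem_W third_mem_C a b) le_rfl
  obtain ⟨r1, r2, r3, r4⟩ := n1_four (hg.V subset_rfl two_thirds_mem_C.1 (y := 1 / 3) (y' := 2 / 3)
    (by norm_num) (by norm_num) (by norm_num) (by norm_num) (by norm_num))
  obtain ⟨l1, l2, l3, l4⟩ := n1_four (hg.V subset_rfl third_mem_C.1 (y := 1 / 3) (y' := 2 / 3)
    (by norm_num) (by norm_num) (by norm_num) (by norm_num) (by norm_num))
  rw [f13 _ (by norm_num) (by norm_num)] at r1 r2 r3 r4 l1 l2 l3 l4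
  simp only at r1 r2 r3 r4 l1 l2 l3 l4
  have up : ∀ q ∈ S, q.2 = 2 / 3 → 0 ≤ (h q).1 → (h q).1 ≤ 1 → 0 ≤ (h q).2 → 1 / 3 < (h q).2 := by
    intro q hq q2 a b c
    by_contra hc
    have hm : h q ∈ S := ⟨hg.maps _ hq, a, b, c, by linarith⟩
    have := congrArg Prod.snd (hg.inj hm hq (H _ hm (by linarith)))
    linarith
  have uR := up _ mR rfl (by linarith) (by linarith) (by linarith)
  have uL := up _ mL rfl (by linarith) (by linarith) (by linarith)
  have xR : 2 / 3 ≤ (h (2 / 3, 2 / 3)).1 := by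
    by_contra hc
    exact not_hole (hg.maps _ mR) 0 0 (by simp only [Int.cast_zero]; linarith)
      (by simp only [Int.cast_zero]; linarith) (by simp only [Int.cast_zero]; linarith)
      (by simp only [Int.cast_zero]; linarith)
  have xL : (h (1 / 3, 2 / 3)).1 ≤ 1 / 3 := by
    by_contra hc
    exact not_hole (hg.maps _ mL) 0 0 (by simp only [Int.cast_zero]; linarith)
      (by simp only [Int.cast_zero]; linarith) (by simp only [Int.cast_zero]; linarith)
      (by simp only [Int.cast_zero]; linarith)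
  have seg : ∀ t : ℝ, 1 / 3 ≤ t → t ≤ 2 / 3 → (t, 2 / 3) ∈ S := fun t a b =>
    line_mem_W two_thirds_mem_C (by linarith) (by linarith)
  obtain ⟨t1, t2, -, -⟩ := n1_four (hg.lipH (2 / 3) (1 / 3) (2 / 3) (by norm_num) seg)
  obtain ⟨m1, m2⟩ := hg.transH seg (by linarith) (t := 1 / 2) (by norm_num) (by norm_num)
  have yL : 2 / 3 ≤ (h (1 / 3, 2 / 3)).2 := by
    by_contra hc
    exact not_hole (hg.maps _ mM) 0 0 (by simp only [Int.cast_zero]; linarith)
      (by simp only [Int.cast_zero]; linarith) (by simp only [Int.cast_zero]; linarith)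
      (by simp only [Int.cast_zero]; linarith)
  have eL : h (1 / 3, 2 / 3) = (1 / 3, 2 / 3) :=
    Prod.ext (by simp only; linarith) (by simp only; linarith)
  have eR : h (2 / 3, 2 / 3) = (2 / 3, 2 / 3) :=
    Prod.ext (by simp only; linarith) (by simp only; linarith)
  have cellL : ∀ q ∈ S, zm 1 1 0 1 (0, 1) h q = q := by
    apply fix_of_two_sides (hg.zoom (D' := S) 1 0 1 _ (fun q hq => by
      simpa [psi] using S_sub hq (d := 0) (e := 1) (by simp [Dig]))) subset_rfl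
    · rw [zm_fix]; simpa [psi] using f13 0 le_rfl zero_le_one
    · rw [zm_fix]; simpa [psi] using f13 (1 / 3) (by norm_num) (by norm_num)
    · rw [zm_fix]; norm_num [psi]; exact eL
  have cellR : ∀ q ∈ S, zm 1 1 2 1 (2, 1) h q = q := by
    have := fx_left (i := 0) (j := 0) (hg.zoom (D' := S) 1 2 1 (2, 1) (fun q hq => by
      simpa [psi] using S_sub hq (d := 2) (e := 1) (by simp [Dig]))) (fun q hq => by simpa using hq)
      (by rw [zm_fix]; simpa [psi] using f13 (2 / 3) (by norm_num) (by norm_num))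
      (by rw [zm_fix]; norm_num [psi]; exact f13 1 zero_le_one le_rfl)
      (by rw [zm_fix]; norm_num [psi]; exact eR)
    intro q hq
    simpa using this q hq
  intro p hp hy
  by_cases y1 : p.2 ≤ 1 / 3
  · exact H p hp y1
  have hq : ∀ d : ℤ, (3 * p.1 - d, 3 * p.2 - (1 : ℤ)) ∈ P := fun d =>
    (P_sub_int d 1).2 (by simpa using P_mul_pow (x := p.1) (y := p.2) hp.1 1)
  by_cases x1 : p.1 ≤ 1 / 3
  · have := cellL _ ⟨hq 0, by simp; linarith [hp.2.1], by simp; linarith, by simp; linarith,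
      by simp; linarith⟩
    rw [zm_fix] at this
    simpa [psi] using this
  by_cases x2 : 2 / 3 ≤ p.1
  · have := cellR _ ⟨hq 2, by simp; linarith, by simp; linarith [hp.2.2.1], by simp; linarith,
      by simp; linarith⟩
    rw [zm_fix] at this
    simpa [psi] using this
  have y2 : p.2 = 2 / 3 := by
    by_contra hc
    exact not_hole hp.1 0 0 (by simp only [Int.cast_zero]; linarith)
      (by simp only [Int.cast_zero]; linarith) (by simp only [Int.cast_zero]; linarith)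
      (by simp only [Int.cast_zero]; exact lt_of_le_of_ne (by linarith) (by simpa using hc))
  have := hg.fixH seg eL eR (t := p.1) (by linarith) (by linarith)
  rwa [← y2] at this

theorem mid_row {a b : ℤ} (hab : a < b) (hg : Good K 1 (W a b) h)
    (H : ∀ p ∈ W a b, p.2 ≤ 1 / 3 → h p = p) : ∀ p ∈ W a b, p.2 ≤ 2 / 3 → h p = p := by
  have key : ∀ i : ℤ, a ≤ i → i + 1 ≤ b → ∀ p ∈ P, (i : ℝ) ≤ p.1 → p.1 ≤ i + 1 → 0 ≤ p.2 →
      p.2 ≤ 2 / 3 → h p = p := by
    intro i h1 h2 p hp x1 x2 y1 y2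
    have hin := in_W (a := a) (b := b) (i := i) (by exact_mod_cast h1) (by exact_mod_cast h2)
    have := mid_cell (hg.zoom (D' := S) 0 i 0 (i, 0) (fun q hq => by rw [psi0]; exact hin q hq))
      (fun q hq hy => by
        rw [zm_fix, psi0]
        exact H _ (hin q hq) (by simpa using hy)) (p.1 - i, p.2)
      ⟨by simpa using (P_sub_int i 0).2 hp, by simp only; linarith, by simp only; linarith, y1,
        by simp only; linarith⟩ y2
    rw [zm_fix, psi0] at this
    simpa using this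
  intro p hp hy
  obtain ⟨h1, h2, h3, h4, h5⟩ := hp
  rcases h3.eq_or_lt with h6 | h6
  · exact key (b - 1) (by omega) (by omega) p h1 (by push_cast; linarith)
      (by push_cast; linarith) h4 hy
  · exact key ⌊p.1⌋ (Int.le_floor.2 h2) (Int.floor_lt.2 h6) p h1 (Int.floor_le _)
      (Int.lt_floor_add_one _).le h4 hy

theorem long_low (K : ℝ) : ∃ M : ℕ, ∀ (a b : ℤ) h, a + 2 * M ≤ b → RowHyp K a b h →
    ∀ p ∈ W a b, p.2 ≤ 1 / 3 → h p = p := by
  obtain ⟨M, hM⟩ := row_close K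
  refine ⟨M, fun a b h hab H => ?_⟩
  have hab' : (a : ℝ) + 2 * M ≤ b := by exact_mod_cast hab
  have hsub : ∀ p ∈ W (-M) M, psi 0 (a + M) 0 p ∈ W a b := by
    intro p hp
    have := psi_T (zero_mem_V 0) (a + M) (W_subset_T _ _ hp)
    rw [psi0] at this ⊢
    exact ⟨this.1, by push_cast; linarith [hp.2.1], by push_cast; linarith [hp.2.2.1], this.2⟩
  obtain ⟨i, i1, i2, hc⟩ := hM (zm 0 0 (a + M) 0 (a + M, 0) h) ⟨H.good.zoom 0 _ 0 _ hsub,
    fun x x1 x2 => by
      rw [zm_fix, psi0]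
      simpa using H.bot (x + (a + M)) (by linarith) (by linarith),
    fun p hp hc => H.avoid _ (hsub p hp) (by
      simp only [zm] at hc
      push_cast at hc
      exact ⟨by linarith [hc.1], by linarith [hc.2.1], by linarith [hc.2.2.1],
        by linarith [hc.2.2.2]⟩)⟩
  rw [zm_zm] at hc
  set r : ℤ := i + (a + M) with hr
  have r1 : (a : ℝ) ≤ r := by rw [hr]; push_cast; linarith
  have r2 : (r : ℝ) + 2 ≤ b := by rw [hr]; push_cast; linarith
  obtain ⟨e1, e2, -, -⟩ := exact_of_close (H.good.zoom (D' := W 0 2) 0 r 0 (r, 0) (fun p hp => by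
    have := psi_T (zero_mem_V 0) r (W_subset_T _ _ hp)
    rw [psi0] at this ⊢
    exact ⟨this.1, by simp only; linarith [hp.2.1], by simp only; linarith [hp.2.2.1], this.2⟩))
    subset_rfl hc
  rw [zm_fix, psi0] at e1 e2
  have L := H.low
  have r3 : a ≤ r := by exact_mod_cast r1
  have r4 : r + 2 ≤ b := by exact_mod_cast r2
  have hall := spread (a := 3 * a) (b := 3 * b) (i0 := 3 * r + 2) (h := zm 1 1 0 0 (0, 0) h)
    (by push_cast; exact L.good) (by push_cast; exact L.bot) (by omega) (by omega) (by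
      apply fx_four L.good (in_W (by push_cast; linarith) (by push_cast; linarith))
      · simpa using L.bot (3 * r + 2) (by linarith) (by linarith)
      · simpa using L.bot (3 * r + 2 + 1) (by linarith) (by linarith)
      · rw [zm_fix]
        have : psi 1 0 0 (((3 * r + 2 : ℤ) : ℝ), ((0 : ℤ) : ℝ) + 1) =
            (2 / 3 + (r : ℝ), 1 / 3 + ((0 : ℤ) : ℝ)) := by
          simp only [psi]; ext <;> push_cast <;> ring
        rw [this]; exact e1
      · rw [zm_fix]
        have : psi 1 0 0 (((3 * r + 2 : ℤ) : ℝ) + 1, ((0 : ℤ) : ℝ) + 1) =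
            (1 + (r : ℝ), 1 / 3 + ((0 : ℤ) : ℝ)) := by
          simp only [psi]; ext <;> push_cast <;> ring
        rw [this]; exact e2)
  intro p hp hy
  refine fix_of_subrow 0 hp (y := 1) (by simpa using hp.2.2.2.1) (by simp; linarith) le_rfl ?_
  intro q hq _
  exact hall q (by push_cast; exact hq)

theorem long_row (K : ℝ) : ∃ M : ℕ, ∀ (a b : ℤ) h, a < b → a + 2 * M ≤ b → RowHyp K a b h →
    ∀ p ∈ W a b, h p = p := by
  obtain ⟨M, hM⟩ := long_low K
  refine ⟨M, ?_⟩
  have key : ∀ n : ℕ, ∀ (a b : ℤ) h, a < b → a + 2 * M ≤ b → RowHyp K a b h →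
      ∀ p ∈ W a b, p.2 ≤ 1 - 1 / 3 ^ (n + 1) → h p = p := by
    intro n
    induction n with
    | zero =>
      intro a b h hab hM' H p hp hy
      exact mid_row hab H.good (hM a b h hM' H) p hp (by norm_num at hy; linarith)
    | succ n ih =>
      intro a b h hab hM' H p hp hy
      have h23 := mid_row hab H.good (hM a b h hM' H)
      by_cases y1 : p.2 ≤ 2 / 3
      · exact h23 p hp y1
      · have hh := ih (3 * a) (3 * b) _ (by omega) (by omega)
          (by push_cast; exact high_of_fixed H.good h23)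
        have h3 : (0 : ℝ) < 1 / 3 ^ (n + 1) := by positivity
        refine fix_of_subrow 2 hp (y := 1 - 1 / 3 ^ (n + 1)) (by push_cast; linarith) ?_
          (by linarith) (fun q hq hy => hh q (by push_cast; exact hq) hy)
        have : (1 : ℝ) / 3 ^ (n + 1) = 3 * (1 / 3 ^ (n + 1 + 1)) := by field_simp; ring
        push_cast; linarith
  intro a b h hab hM' H p hp
  have h0 : Tendsto (fun t : ℕ => (1 : ℝ) - 1 / 3 ^ (t + 1)) atTop (𝓝 1) := by
    have := (tendsto_pow_atTop_nhds_zero_of_lt_one (r := (1 / 3 : ℝ)) (by norm_num)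
      (by norm_num)).comp (tendsto_add_atTop_nat 1)
    have := this.const_sub 1
    rw [sub_zero] at this
    refine this.congr fun t => ?_
    simp
  rcases hp.2.2.2.2.eq_or_lt with h1 | h1
  · have hm : ∀ t : ℕ, (p.1, (1 : ℝ) - 1 / 3 ^ (t + 1)) ∈ W a b := fun t =>
      line_mem_W (C_symm (inv_pow_mem_C _)) hp.2.1 hp.2.2.1
    have hl : Tendsto (fun t : ℕ => (p.1, (1 : ℝ) - 1 / 3 ^ (t + 1))) atTop (𝓝 p) := by
      have := (tendsto_const_nhds (x := p.1)).prodMk_nhds h0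
      rwa [show (p.1, (1 : ℝ)) = p from Prod.ext rfl h1.symm] at this
    have := (H.good.cont p hp).tendsto.comp
      (tendsto_nhdsWithin_iff.2 ⟨hl, Eventually.of_forall hm⟩)
    exact tendsto_nhds_unique this (hl.congr fun t => (key t a b h hab hM' H _ (hm t) le_rfl).symm)
  · obtain ⟨t, ht⟩ := (h0.eventually (lt_mem_nhds h1)).exists
    exact key t a b h hab hM' H p hp ht.le

/-- A row with fixed bottom line whose image avoids the strip below is fixed. -/
theorem row_fixed (K : ℝ) (a b : ℤ) (h : Pt → Pt) (hab : a < b) (H : RowHyp K a b h) :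
    ∀ p ∈ W a b, h p = p := by
  obtain ⟨M, hM⟩ := long_row K
  have key : ∀ k : ℕ, ∀ (a b : ℤ) h, a < b → 2 * M ≤ 3 ^ k * (b - a) → RowHyp K a b h →
      ∀ p ∈ W a b, h p = p := by
    intro k
    induction k with
    | zero => intro a b h hab h1 H; exact hM a b h hab (by omega) H
    | succ k ih =>
      intro a b h hab h1 H
      have h2 : 2 * (M : ℤ) ≤ 3 ^ k * (3 * b - 3 * a) := by
        rw [pow_succ] at h1; linarith
      have lo := ih (3 * a) (3 * b) _ (by omega) h2 (by push_cast; exact H.low)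
      have h23 := mid_row hab H.good (fun p hp hy =>
        fix_of_subrow 0 hp (y := 1) (by simpa using hp.2.2.2.1) (by simp; linarith) le_rfl
          (fun q hq _ => lo q (by push_cast; exact hq)))
      have hi := ih (3 * a) (3 * b) _ (by omega) h2 (by push_cast; exact high_of_fixed H.good h23)
      intro p hp
      by_cases y1 : p.2 ≤ 2 / 3
      · exact h23 p hp y1
      · exact fix_of_subrow 2 hp (y := 1) (by push_cast; linarith)
          (by push_cast; linarith [hp.2.2.2.2]) le_rfl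
          (fun q hq _ => hi q (by push_cast; exact hq))
  obtain ⟨k, hk⟩ := pow_unbounded_of_one_lt (2 * (M : ℤ)) (by norm_num : (1 : ℤ) < 3)
  refine key k a b h hab ?_ H
  have : (0 : ℤ) < 3 ^ k := by positivity
  nlinarith

end

end Pool.Agent.MP_d4b492_an

end MrgPart2

-- ======== part 3: formerly Pool.Agent.MP_d4b492_an.Global
section MrgPart3

set_option autoImplicit false

open Set Filter Topology

namespace Pool.Agent.MP_d4b492_an

section

variable {K : ℝ} {D : Set Pt} {h : Pt → Pt}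

theorem adj_up (hg : Good K 1 D h) {i j : ℤ} (h1 : In D i j) (h2 : In D i (j + 1))
    (H : Fx h i j) : Fx h i (j + 1) := by
  have := row_fixed K 0 1 (zm 0 0 i (j + 1) (i, j + 1) h) (by norm_num) (by
    push_cast
    refine ⟨hg.zoom 0 _ _ _ (fun q hq => by rw [psi0]; exact h2 q hq), fun x x0 x1 => ?_,
      fun p hp hc => ?_⟩
    · rw [zm_fix, psi0]
      have := H (x, 1) (line_mem_W one_mem_C x0 x1)
      simpa [add_comm] using this
    · simp only [zm, psi0] at hc
      push_cast at hc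
      have hq := h2 p hp
      push_cast at hq
      set q : Pt := (p.1 + i, p.2 + (j + 1)) with hq'
      have hm : ((h q).1 - i, (h q).2 - j) ∈ S := ⟨(P_sub_int i j).2 (hg.maps _ hq),
        by simp only; linarith [hc.1], by simp only; linarith [hc.2.1],
        by simp only; linarith [hc.2.2.1], by simp only; linarith [hc.2.2.2]⟩
      have e := hg.inj (p := h q) (by simpa using h1 _ hm) hq (by simpa using H _ hm)
      have e2 := congrArg Prod.snd e
      have : q.2 = p.2 + (j + 1) := rfl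
      linarith [hc.2.2.2, hp.2.2.2.1])
  intro p hp
  have := this p (by push_cast; exact hp)
  rwa [zm_fix, psi0] at this

theorem adj_right (hg : Good K 1 D h) {i j : ℤ} (h1 : In D i j) (h2 : In D (i + 1) j)
    (H : Fx h i j) : Fx h (i + 1) j :=
  (adj_up hg.conjs h1.conjs h2.conjs H.conjs).of_conjs

theorem adj_left (hg : Good K 1 D h) {i j : ℤ} (h1 : In D i j) (h2 : In D (i - 1) j)
    (H : Fx h i j) : Fx h (i - 1) j := by
  apply Fx.of_conjx
  have e : -(i - 1) - 1 = -i - 1 + 1 := by ring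
  have := h2.conjx
  rw [e] at this ⊢
  exact adj_right hg.conjx h1.conjx this H.conjx

theorem adj_down (hg : Good K 1 D h) {i j : ℤ} (h1 : In D i j) (h2 : In D i (j - 1))
    (H : Fx h i j) : Fx h i (j - 1) :=
  (adj_left hg.conjs h1.conjs h2.conjs H.conjs).of_conjs

/-- The block of side `3 ^ m` with index `(i, j)` is fixed. -/
def FxB (h : Pt → Pt) (m : ℕ) (i j : ℤ) : Prop :=
  ∀ q ∈ S, h (3 ^ m * (q.1 + i), 3 ^ m * (q.2 + j)) = (3 ^ m * (q.1 + i), 3 ^ m * (q.2 + j))

/-- The block of side `3 ^ m` with index `(i, j)` lies in the domain. -/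
def InB (D : Set Pt) (m : ℕ) (i j : ℤ) : Prop :=
  ∀ q ∈ S, (3 ^ m * (q.1 + i), 3 ^ m * (q.2 + j)) ∈ D

theorem sub_eq (m : ℕ) (x : ℝ) (i d : ℤ) :
    3 ^ (m + 1) * ((x + d) / 3 + i) = 3 ^ m * (x + ((3 * i + d : ℤ) : ℝ)) := by
  push_cast; ring

theorem InB.sub {m : ℕ} {i j d e : ℤ} (H : InB D (m + 1) i j) (hd : Dig d e) :
    InB D m (3 * i + d) (3 * j + e) := by
  intro q hq
  have := H _ (S_sub hq hd)
  rwa [sub_eq, sub_eq] at this

theorem FxB.sub {m : ℕ} {i j d e : ℤ} (H : FxB h (m + 1) i j) (hd : Dig d e) :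
    FxB h m (3 * i + d) (3 * j + e) := by
  intro q hq
  have := H _ (S_sub hq hd)
  rwa [sub_eq, sub_eq] at this

theorem FxB.of_sub {m : ℕ} {i j : ℤ} (H : ∀ d e, Dig d e → FxB h m (3 * i + d) (3 * j + e)) :
    FxB h (m + 1) i j := by
  intro q hq
  obtain ⟨d, e, hd, hq'⟩ := S_split hq
  have := H d e hd _ hq'
  rw [← sub_eq, ← sub_eq] at this
  simpa using this

/-- Side-adjacent indices. -/
def Nb (i j i' j' : ℤ) : Prop :=
  (i' = i + 1 ∧ j' = j) ∨ (i' = i - 1 ∧ j' = j) ∨ (i' = i ∧ j' = j + 1) ∨ (i' = i ∧ j' = j - 1)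

theorem ring_lemma {m : ℕ}
    (A : ∀ i j i' j', Nb i j i' j' → InB D m i j → InB D m i' j' → FxB h m i j → FxB h m i' j')
    {i j d e : ℤ} (hi : InB D (m + 1) i j) (hd : Dig d e) (H : FxB h m (3 * i + d) (3 * j + e)) :
    FxB h (m + 1) i j := by
  have st : ∀ d e d' e', Dig d e → Dig d' e' → Nb d e d' e' →
      FxB h m (3 * i + d) (3 * j + e) → FxB h m (3 * i + d') (3 * j + e') := by
    intro d e d' e' h1 h2 h3
    refine A _ _ _ _ ?_ (hi.sub h1) (hi.sub h2)
    unfold Nb at h3 ⊢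
    omega
  have s1 := st 0 0 1 0 (by simp [Dig]) (by simp [Dig]) (by simp [Nb])
  have s2 := st 1 0 2 0 (by simp [Dig]) (by simp [Dig]) (by simp [Nb])
  have s3 := st 2 0 2 1 (by simp [Dig]) (by simp [Dig]) (by simp [Nb])
  have s4 := st 2 1 2 2 (by simp [Dig]) (by simp [Dig]) (by simp [Nb])
  have s5 := st 2 2 1 2 (by simp [Dig]) (by simp [Dig]) (by simp [Nb])
  have s6 := st 1 2 0 2 (by simp [Dig]) (by simp [Dig]) (by simp [Nb])
  have s7 := st 0 2 0 1 (by simp [Dig]) (by simp [Dig]) (by simp [Nb])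
  have s8 := st 0 1 0 0 (by simp [Dig]) (by simp [Dig]) (by simp [Nb])
  have cases : ∀ d e, Dig d e → (d = 0 ∧ e = 0) ∨ (d = 1 ∧ e = 0) ∨ (d = 2 ∧ e = 0) ∨
      (d = 2 ∧ e = 1) ∨ (d = 2 ∧ e = 2) ∨ (d = 1 ∧ e = 2) ∨ (d = 0 ∧ e = 2) ∨
      (d = 0 ∧ e = 1) := by
    intro d e h; unfold Dig at h; omega
  have f0 : FxB h m (3 * i + 0) (3 * j + 0) := by
    rcases cases d e hd with ⟨rfl, rfl⟩ | ⟨rfl, rfl⟩ | ⟨rfl, rfl⟩ | ⟨rfl, rfl⟩ | ⟨rfl, rfl⟩ |
      ⟨rfl, rfl⟩ | ⟨rfl, rfl⟩ | ⟨rfl, rfl⟩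
    · exact H
    · exact s8 (s7 (s6 (s5 (s4 (s3 (s2 H))))))
    · exact s8 (s7 (s6 (s5 (s4 (s3 H)))))
    · exact s8 (s7 (s6 (s5 (s4 H))))
    · exact s8 (s7 (s6 (s5 H)))
    · exact s8 (s7 (s6 H))
    · exact s8 (s7 H)
    · exact s8 H
  apply FxB.of_sub
  intro d e hd
  rcases cases d e hd with ⟨rfl, rfl⟩ | ⟨rfl, rfl⟩ | ⟨rfl, rfl⟩ | ⟨rfl, rfl⟩ | ⟨rfl, rfl⟩ |
      ⟨rfl, rfl⟩ | ⟨rfl, rfl⟩ | ⟨rfl, rfl⟩
  · exact f0
  · exact s1 f0
  · exact s2 (s1 f0)
  · exact s3 (s2 (s1 f0))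
  · exact s4 (s3 (s2 (s1 f0)))
  · exact s5 (s4 (s3 (s2 (s1 f0))))
  · exact s6 (s5 (s4 (s3 (s2 (s1 f0)))))
  · exact s7 (s6 (s5 (s4 (s3 (s2 (s1 f0))))))

theorem adj_block (hg : Good K 1 D h) (m : ℕ) : ∀ i j i' j', Nb i j i' j' → InB D m i j →
    InB D m i' j' → FxB h m i j → FxB h m i' j' := by
  induction m with
  | zero =>
    intro i j i' j' hn h1 h2 H
    have a1 : In D i j := by simpa [InB, In] using h1
    have a2 : In D i' j' := by simpa [InB, In] using h2
    have a3 : Fx h i j := by simpa [FxB, Fx] using H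
    have : Fx h i' j' := by
      rcases hn with ⟨rfl, rfl⟩ | ⟨rfl, rfl⟩ | ⟨rfl, rfl⟩ | ⟨rfl, rfl⟩
      · exact adj_right hg a1 a2 a3
      · exact adj_left hg a1 a2 a3
      · exact adj_up hg a1 a2 a3
      · exact adj_down hg a1 a2 a3
    simpa [FxB, Fx] using this
  | succ m ih =>
    intro i j i' j' hn h1 h2 H
    have : ∃ d e d' e', Dig d e ∧ Dig d' e' ∧
        Nb (3 * i + d) (3 * j + e) (3 * i' + d') (3 * j' + e') := by
      rcases hn with ⟨rfl, rfl⟩ | ⟨rfl, rfl⟩ | ⟨rfl, rfl⟩ | ⟨rfl, rfl⟩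
      · exact ⟨2, 0, 0, 0, by simp [Dig], by simp [Dig], by unfold Nb; omega⟩
      · exact ⟨0, 0, 2, 0, by simp [Dig], by simp [Dig], by unfold Nb; omega⟩
      · exact ⟨0, 2, 0, 0, by simp [Dig], by simp [Dig], by unfold Nb; omega⟩
      · exact ⟨0, 0, 0, 2, by simp [Dig], by simp [Dig], by unfold Nb; omega⟩
    obtain ⟨d, e, d', e', hd, hd', hn'⟩ := this
    exact ring_lemma ih h2 hd' (ih _ _ _ _ hn' (h1.sub hd) (h2.sub hd') (H.sub hd))

theorem Cell.inB {n : ℕ} {i j : ℤ} (hc : Cell n i j) (m : ℕ) (H : InB D (m + n) 0 0) :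
    InB D m i j := by
  induction hc generalizing m with
  | root => exact H
  | step _ hd ih => exact (ih (m + 1) (by rwa [add_assoc, add_comm 1])).sub hd

theorem global_fixed (hg : Good K 1 D h) {n : ℕ} {i j : ℤ} (hc : Cell n i j) (m : ℕ)
    (H : InB D (m + n) 0 0) (F : FxB h m i j) : FxB h (m + n) 0 0 := by
  induction hc generalizing m with
  | root => exact F
  | @step n i j d e hc hd ih =>
    have e1 : m + (n + 1) = m + 1 + n := by ring
    rw [e1] at H ⊢
    exact ih (m + 1) H (ring_lemma (adj_block hg m) (hc.inB (m + 1) H) hd F)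

end

end Pool.Agent.MP_d4b492_an

end MrgPart3

-- ======== part 4: formerly Pool.Agent.MP_d4b492_an.Init
section MrgPart4

set_option autoImplicit false

open Set Filter Topology

namespace Pool.Agent.MP_d4b492_an

/-- No pair of adjacent squares on which the rescaled map is close to the identity. -/
def NC (L : ℝ) (D : Set Pt) (h : Pt → Pt) : Prop :=
  ∀ n k : ℕ, L * 3 ^ k = 3 ^ n → ∀ (i j : ℤ) (v : ℤ × ℤ), (∀ p ∈ W 0 2, psi n i j p ∈ D) →
    ¬ Close (zm n k i j v h)

theorem psi_psi (n r : ℕ) (i j a b : ℤ) (p : Pt) :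
    psi r a b (psi n i j p) = psi (n + r) (3 ^ n * a + i) (3 ^ n * b + j) p := by
  simp only [psi]
  ext <;> push_cast <;> field_simp <;> ring

theorem NC.zoom {L : ℝ} {D D' : Set Pt} {h : Pt → Pt} (H : NC L D h) (r : ℕ) (a b : ℤ)
    (w : ℤ × ℤ) (hD : ∀ p ∈ D', psi r a b p ∈ D) : NC L D' (zm r r a b w h) := by
  intro n k hL i j v hW hc
  refine H (n + r) (k + r) (by rw [pow_add, pow_add, ← mul_assoc, hL]) (3 ^ n * a + i)
    (3 ^ n * b + j) (3 ^ k * w.1 + v.1, 3 ^ k * w.2 + v.2)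
    (fun p hp => by rw [← psi_psi]; exact hD _ (hW p hp)) ?_
  convert hc using 1
  funext p
  simp only [zm, psi_psi]
  ext <;> push_cast <;> ring

theorem her_nc (L : ℝ) : Her (NC L) := by
  refine ⟨?_, fun D D' h n i j v _ H hD => H.zoom n i j v hD⟩
  intro g G H l n k hL i j v hW hc
  have := close_ev (F := hyperfilter ℕ) (g := fun m => zm n k i j v (g m)) (fun t ht => by
    have := l _ (hW t (tests_subset ht))
    simp only [zm]
    exact ((((continuous_fst.tendsto _).comp this).const_mul _).sub_const _).prodMk_nhds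
      ((((continuous_snd.tendsto _).comp this).const_mul _).sub_const _)) hc
  obtain ⟨m, m1, m2, m3⟩ := (this.and ((ev_abs' ((0 + i) / 3 ^ n)).and
    (ev_abs' ((2 + i) / 3 ^ n)))).exists
  refine H m n k hL i j v (fun p hp => ⟨(hW p hp).1, m2.1.trans ?_, le_trans ?_ m3.2,
    (hW p hp).2⟩) m1
  · simp only [psi]; gcongr; exact hp.2.1
  · simp only [psi]; gcongr; exact hp.2.2.1

theorem Good.K_nonneg {K L : ℝ} {D : Set Pt} {h : Pt → Pt} (hg : Good K L D h) (hS : S ⊆ D) :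
    0 ≤ K := by
  have := hg.lo _ (hS c00) _ (hS c10)
  by_contra hc
  have h1 : dist ((0 : ℝ), (0 : ℝ)) (1, 0) = 1 := by simp [Prod.dist_eq]
  nlinarith [dist_nonneg (x := h (0, 0)) (y := h (1, 0))]

theorem Good.normalize {K L : ℝ} {D D' : Set Pt} {h : Pt → Pt} (hg : Good K L D h) (hK : 0 ≤ K)
    {n k : ℕ} (hL : L * 3 ^ k = 3 ^ n) (i j : ℤ) (v : ℤ × ℤ) (hD : ∀ p ∈ D', psi n i j p ∈ D) :
    Good (K * 3 ^ k + K * 3 ^ n) 1 D' (zm n k i j v h) := by
  have h1 : (1 : ℝ) ≤ 3 ^ n := one_le_pow₀ (by norm_num)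
  have h2 : (1 : ℝ) ≤ 3 ^ k := one_le_pow₀ (by norm_num)
  have h3 : 0 ≤ K * 3 ^ n := by positivity
  have h4 : 0 ≤ K * 3 ^ k := by positivity
  exact hg.zoom' n k i j v hD (by nlinarith) (by nlinarith) (by rw [hL, one_mul])

theorem hor_inc_contra {K L : ℝ} {g : Pt → Pt} (hg : Good K L T g) (hh : Hor L g) (hL : 0 < L)
    (hb : (g (0, 0)).2 < (g (0, 1)).2) (hn : NC L T g) : False := by
  have hm := hh.strictMono hg hL hb
  set j0 := ⌊(g (0, 0)).2⌋ with hj0
  have y1 := Int.floor_le (g (0, 0)).2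
  have y2 := Int.lt_floor_add_one (g (0, 0)).2
  obtain ⟨n0, hn0⟩ := pow_unbounded_of_one_lt (L / (j0 + 1 - (g (0, 0)).2))
    (by norm_num : (1 : ℝ) < 3)
  rw [div_lt_iff₀ (by linarith)] at hn0
  have h3 : (0 : ℝ) < 3 ^ n0 := by positivity
  have hC : ∀ c ∈ C, c / 3 ^ n0 ∈ C := fun c hc => by simpa using V_C (zero_mem_V n0) hc
  obtain ⟨n, k, i, j, hi, e1, e2⟩ := exists_exact_gap (K := K * 3 ^ n0)
    (b := fun c => (g (0, c / 3 ^ n0)).2 - j0)
    (fun c hc => by
      refine ⟨(Ct_sub_int j0).2 (hh.snd_mem hg hL (hC c hc)), ?_, ?_⟩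
      · have := hm.monotoneOn zero_mem_C (hC c hc) (hC c hc).2.1
        linarith
      · have a := (n1_four (vert_bound hg le_rfl (hC c hc).2.1 (hC c hc).2.2))
        have b : L * (c / 3 ^ n0 - 0) ≤ j0 + 1 - (g (0, 0)).2 := by
          rw [sub_zero, ← mul_div_assoc, div_le_iff₀ h3]
          nlinarith [hc.2.2]
        linarith [a.1, a.2.2.1])
    (fun c hc c' hc' => by
      have := hh.lo hg hL _ (hC c hc) _ (hC c' hc')
      rw [← sub_div, abs_div, abs_of_pos h3, div_le_iff₀ h3] at this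
      rw [sub_sub_sub_cancel_right]
      linarith)
    ((continuous_snd.comp_continuousOn (hg.cont.comp (by fun_prop)
      (fun c hc => line_mem_T (hC c hc) 0))).sub continuousOn_const)
    (fun c hc c' hc' hcc => sub_lt_sub_right (hm (hC c hc) (hC c' hc') (by gcongr)) _)
  have hi' : i ∈ V (n0 + n) := by simpa using V_add (zero_mem_V n0) hi
  set N := n0 + n with hN
  have hk : (0 : ℝ) < 3 ^ k := by positivity
  have hNp : (0 : ℝ) < 3 ^ N := by positivity
  simp only [div_div, ← pow_add, add_comm n n0, ← hN] at e1 e2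
  have f1 : (g (0, (1 / 3 + i) / 3 ^ N)).2 = (1 / 3 + ((j + 3 ^ k * j0 : ℤ) : ℝ)) / 3 ^ k := by
    rw [sub_eq_iff_eq_add.1 e1]; push_cast; field_simp; ring
  have f2 : (g (0, (2 / 3 + i) / 3 ^ N)).2 = (2 / 3 + ((j + 3 ^ k * j0 : ℤ) : ℝ)) / 3 ^ k := by
    rw [sub_eq_iff_eq_add.1 e2]; push_cast; field_simp; ring
  obtain ⟨hLk, a, ha⟩ := hh.exact_gap hg hL hi' f1 f2
  have hc1 := V_C hi' third_mem_C
  have hc2 := V_C hi' two_thirds_mem_C
  have ha2 : (g (0, (2 / 3 + i) / 3 ^ N)).1 = (g (0, (1 / 3 + i) / 3 ^ N)).1 := by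
    obtain ⟨v1, -, v3, -⟩ := n1_four (vert_bound hg hc1.2.1 (by gcongr; norm_num) hc2.2.2)
    have : L * ((2 / 3 + i) / 3 ^ N - (1 / 3 + i) / 3 ^ N) =
        (g (0, (2 / 3 + i) / 3 ^ N)).2 - (g (0, (1 / 3 + i) / 3 ^ N)).2 := by
      rw [f1, f2, ← hLk]; field_simp; ring
    linarith
  refine hn N k hLk 0 i (a, j + 3 ^ k * j0) (fun p hp => psi_T hi' 0 (W_subset_T _ _ hp)) ?_
  refine close_of_lines (hg.normalize (hg.K_nonneg (W_subset_T _ _)) hLk 0 i _
    (fun p hp => psi_T hi' 0 hp)) (fun x => ?_) (fun x => ?_)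
  · simp only [zm, psi]
    rw [hh _ hc1, f1]
    refine Prod.ext ?_ ?_
    · simp only
      rw [mul_add, ha, ← hLk]; field_simp; simp
    · simp only
      field_simp; ring
  · simp only [zm, psi]
    rw [hh _ hc2, f2, ha2]
    refine Prod.ext ?_ ?_
    · simp only
      rw [mul_add, ha, ← hLk]; field_simp; simp
    · simp only
      field_simp; ring

theorem hor_contra {K L : ℝ} {g : Pt → Pt} (hg : Good K L T g) (hh : Hor L g) (hL : 0 < L)
    (h1 : NC L T g) (h2 : NC L T (fun p => ngy (g p))) : False := by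
  rcases lt_trichotomy (g (0, 0)).2 (g (0, 1)).2 with h | h | h
  · exact hor_inc_contra hg hh hL h h1
  · have := hh.eq_of_snd hg hL (line_mem_T zero_mem_C 0) one_mem_C h
    simp at this
  · exact hor_inc_contra hg.tngy (fun c hc x => by simp only [ngy]; rw [hh c hc x]) hL
      (by simp only [ngy]; linarith) h2

/-- The four variants of `NC`. -/
def NC4 (L : ℝ) (D : Set Pt) (h : Pt → Pt) : Prop :=
  (NC L D h ∧ NC L D (fun p => ngy (h p))) ∧
    (NC L D (fun p => Prod.swap (h p)) ∧ NC L D (fun p => ngy (Prod.swap (h p))))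

theorem her_nc4 (L : ℝ) : Her (NC4 L) :=
  ((her_nc L).and (her_nc L).tngy).and ((her_nc L).and (her_nc L).tngy).tswap

theorem her_E (L : ℝ) : Her (Two (fun d w => d.2 = 0 → w.1 + w.2 = L * d.1)) := by
  apply her_two
  · intro d
    by_cases h : d.2 = 0
    · simp only [h, forall_const]
      exact isClosed_eq (by fun_prop) continuous_const
    · simp [h]
  · intro d w t ht H h1
    simp only [Prod.smul_snd, Prod.smul_fst, smul_eq_mul] at h1 ⊢
    have h3 : d.2 = 0 := by simpa [ht.ne'] using h1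
    linear_combination t * H h3

/-- Near-extremal Cantor segments for a functional. -/
def Near (φ : Pt → ℝ) (L : ℝ) (f : Pt → Pt) : Prop :=
  ∀ δ > 0, ∃ n i j, Cell n i j ∧ ∃ c ∈ C, ∃ x x', 0 ≤ x ∧ x < x' ∧ x' ≤ 1 ∧
    (L - δ) * (x' - x) ≤ φ (zm n n i j (0, 0) f (x', c) - zm n n i j (0, 0) f (x, c))

theorem not_nc4 {K L : ℝ} {f : Pt → Pt} (hg : Good K L S f) (hL : 0 < L)
    (hn : Near (ph 1 1) L f) : ¬ NC4 L S f := by
  intro H
  obtain ⟨G, ⟨⟨g1, g2⟩, -⟩, hG⟩ := tangent (((her_good K L).and (her_nc4 L)).and (her_bd 1 1 L))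
    (fun _ _ H => H.1.1) (fun _ _ H => H.2) (by
      intro δ hδ
      obtain ⟨n, i, j, hc, rest⟩ := hn δ hδ
      have hD : ∀ p ∈ S, psi n i j p ∈ S := fun p hp => hc.psi_mem hp
      have gz := hg.zoom n i j (0, 0) hD
      refine ⟨_, ⟨⟨gz, ⟨H.1.1.zoom n i j _ hD, ?_⟩, H.2.1.zoom n i j (0, 0) hD, ?_⟩, ?_⟩, rest⟩
      · convert H.1.2.zoom n i j (0, 0) hD using 2 with p
        simp [zm, ngy]
      · convert H.2.2.zoom n i j (0, 0) hD using 2 with p
        simp [zm, ngy]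
      · rintro ⟨x', c⟩ hp ⟨x, c'⟩ hq hc - h1 h2
        simp only [Prod.mk_sub_mk] at h1 h2 hc ⊢
        obtain rfl : c = c' := by linarith
        have := (n1_four (gz.H subset_rfl hc hq.2.1 (by linarith) hp.2.2.1)).1
        simpa [ph] using this)
  obtain ⟨m, G', -, ⟨⟨k1, k2⟩, k3⟩, hG'⟩ := tangent_single
    (((her_good K L).and (her_nc4 L)).and (her_E L)) (fun _ _ H => H.1.1) (h := G)
    ⟨⟨g1.mono (W_subset_T _ _), (her_nc4 L).mono g2 (W_subset_T _ _)⟩, by
      rintro ⟨x', c⟩ - ⟨x, c'⟩ - hc - h1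
      simp only [Prod.mk_sub_mk] at h1 hc ⊢
      obtain rfl : c = c' := by linarith
      simpa [ph] using hG c hc x x'⟩ 0 1
  have hv : ∀ c ∈ C, ∀ x, G' (x, c) = ((G' (0, c)).1 + x * (L - m, m).1,
      (G' (0, c)).2 + x * (L - m, m).2) := by
    intro c hc x
    have a := hG' c hc 0 x
    have b := k3 _ (line_mem_T hc x) _ (line_mem_T hc 0) hc hc (by simp)
    simp only [ph, Prod.fst_sub, Prod.snd_sub] at a b
    exact Prod.ext (by simp only; linarith) (by simp only; linarith)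
  rcases axis_parallel k1 hv with hm | hm
  · have hm' : m = L := by simp only at hm; linarith
    refine hor_contra k1.tswap (fun c hc x => ?_) hL k2.2.1 k2.2.2
    rw [hv c hc x, hm']
    simp [mul_comm]
  · have hm' : m = 0 := hm
    refine hor_contra k1 (fun c hc x => ?_) hL k2.1.1 k2.1.2
    rw [hv c hc x, hm']
    simp [mul_comm]

/-- Affine on the carpet, in coordinates. -/
def Aff (f : Pt → Pt) : Prop :=
  ∃ a b c d e e' : ℝ, ∀ p ∈ S, f p = (a * p.1 + b * p.2 + e, c * p.1 + d * p.2 + e')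

theorem Aff.of_tswap {f : Pt → Pt} (H : Aff (fun p => Prod.swap (f p))) : Aff f := by
  obtain ⟨a, b, c, d, e, e', H⟩ := H
  exact ⟨c, d, a, b, e', e, fun p hp => congrArg Prod.swap (H p hp)⟩

theorem Aff.of_tngy {f : Pt → Pt} (H : Aff (fun p => ngy (f p))) : Aff f := by
  obtain ⟨a, b, c, d, e, e', H⟩ := H
  refine ⟨a, b, -c, -d, e, -e', fun p hp => ?_⟩
  have h1 := congrArg Prod.fst (H p hp)
  have h2 := congrArg Prod.snd (H p hp)
  simp only [ngy] at h1 h2
  exact Prod.ext h1 (by simp only; linarith)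

theorem Aff.of_tngx {f : Pt → Pt} (H : Aff (fun p => ngx (f p))) : Aff f := by
  obtain ⟨a, b, c, d, e, e', H⟩ := H
  refine ⟨-a, -b, c, d, -e, e', fun p hp => ?_⟩
  have h1 := congrArg Prod.fst (H p hp)
  have h2 := congrArg Prod.snd (H p hp)
  simp only [ngx] at h1 h2
  exact Prod.ext (by simp only; linarith) h2

theorem Aff.of_dswap {f : Pt → Pt} (H : Aff (fun p => f (Prod.swap p))) : Aff f := by
  obtain ⟨a, b, c, d, e, e', H⟩ := H
  refine ⟨b, a, d, c, e, e', fun p hp => ?_⟩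
  have := H _ (S_swap hp)
  simp only [Prod.swap] at this
  rw [this]
  exact Prod.ext (by simp only; ring) (by simp only; ring)

theorem aff_of_not_nc {K L : ℝ} {f : Pt → Pt} (hg : Good K L S f) (hn : ¬ NC L S f) : Aff f := by
  unfold NC at hn
  push Not at hn
  obtain ⟨n, k, hL, i, j, v, hW, hc⟩ := hn
  have hK := hg.K_nonneg subset_rfl
  obtain ⟨e1, e2, e3, e4⟩ := exact_of_close (hg.normalize hK hL i j v hW) subset_rfl hc
  have hcell : Cell (n + 1) (3 * i + 2) (3 * j + 1) :=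
    Cell.step (cell_of_mem (hW _ (line_mem_W third_mem_C (by norm_num) (by norm_num))))
      (by simp [Dig])
  set H := zm (n + 1) (k + 1) 0 0 (3 * v.1 - 3 * i, 3 * v.2 - 3 * j) f with hH
  have hgH := hg.normalize (D' := {p | psi (n + 1) 0 0 p ∈ S}) hK (n := n + 1) (k := k + 1)
    (by rw [pow_succ, pow_succ, ← mul_assoc, hL]) 0 0 (3 * v.1 - 3 * i, 3 * v.2 - 3 * j)
    (fun p hp => hp)
  have key : ∀ x y x' y' : ℝ, zm n k i j v f (x, y) = (x, y) → x' = 3 * (x + i) →
      y' = 3 * (y + j) → H (x', y') = (x', y') := by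
    intro x y x' y' e hx hy
    have e1 := congrArg Prod.fst e
    have e2 := congrArg Prod.snd e
    have : psi (n + 1) 0 0 (x', y') = psi n i j (x, y) := by
      simp only [psi, hx, hy]
      ext <;> push_cast <;> field_simp <;> ring
    simp only [hH, zm, this] at e1 e2 ⊢
    refine Prod.ext ?_ ?_
    · simp only [pow_succ]; push_cast; linarith
    · simp only [pow_succ]; push_cast; linarith
  have hB : InB {p | psi (n + 1) 0 0 p ∈ S} (0 + (n + 1)) 0 0 := by
    intro q hq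
    have h3 : (3 : ℝ) ^ (n + 1) ≠ 0 := by positivity
    simpa [psi, h3] using hq
  have hF := global_fixed hgH hcell 0 hB (by
    have := fx_four hgH (i := 3 * i + 2) (j := 3 * j + 1)
      (by simpa [InB, In] using hcell.inB 0 hB)
      (key _ _ _ _ e1 (by push_cast; ring) (by push_cast; ring))
      (key _ _ _ _ e2 (by push_cast; ring) (by push_cast; ring))
      (key _ _ _ _ e3 (by push_cast; ring) (by push_cast; ring))
      (key _ _ _ _ e4 (by push_cast; ring) (by push_cast; ring))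
    simpa [FxB, Fx] using this)
  have h3 : (3 : ℝ) ^ (n + 1) ≠ 0 := by positivity
  have h4 : (3 : ℝ) ^ (k + 1) ≠ 0 := by positivity
  refine ⟨3 ^ (n + 1) / 3 ^ (k + 1), 0, 0, 3 ^ (n + 1) / 3 ^ (k + 1),
    (3 * v.1 - 3 * i) / 3 ^ (k + 1), (3 * v.2 - 3 * j) / 3 ^ (k + 1), fun p hp => ?_⟩
  have := hF p hp
  have e : psi (n + 1) 0 0 (3 ^ (0 + (n + 1)) * (p.1 + ((0 : ℤ) : ℝ)),
      3 ^ (0 + (n + 1)) * (p.2 + ((0 : ℤ) : ℝ))) = p := by simp [psi, h3]
  simp only [zm, e] at this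
  have e1 := congrArg Prod.fst this
  have e2 := congrArg Prod.snd this
  push_cast at e1 e2
  simp only [zero_add, add_zero] at e1 e2
  refine Prod.ext ?_ ?_
  · simp only; field_simp; linarith
  · simp only; field_simp; linarith

theorem aff_of_near {K L : ℝ} {f : Pt → Pt} (hg : Good K L S f) (hL : 0 < L)
    (hn : Near (ph 1 1) L f) : Aff f := by
  have := not_nc4 hg hL hn
  unfold NC4 at this
  by_cases h1 : NC L S f
  · by_cases h2 : NC L S (fun p => ngy (f p))
    · by_cases h3 : NC L S (fun p => Prod.swap (f p))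
      · exact (aff_of_not_nc hg.tswap.tngy (fun h4 => this ⟨⟨h1, h2⟩, h3, h4⟩)).of_tngy.of_tswap
      · exact (aff_of_not_nc hg.tswap h3).of_tswap
    · exact (aff_of_not_nc hg.tngy h2).of_tngy
  · exact aff_of_not_nc hg h1

theorem aff_of_near_n1 {K L : ℝ} {f : Pt → Pt} (hg : Good K L S f) (hL : 0 < L)
    (hn : Near n1 L f) : Aff f := by
  by_contra hcon
  have a1 : ¬ Near (ph 1 1) L f := fun H => hcon (aff_of_near hg hL H)
  have a2 : ¬ Near (ph 1 1) L (fun p => ngy (f p)) := fun H =>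
    hcon (aff_of_near hg.tngy hL H).of_tngy
  have a3 : ¬ Near (ph 1 1) L (fun p => ngx (f p)) := fun H =>
    hcon (aff_of_near hg.tngx hL H).of_tngx
  have a4 : ¬ Near (ph 1 1) L (fun p => ngx (ngy (f p))) := fun H =>
    hcon (aff_of_near hg.tngy.tngx hL H).of_tngx.of_tngy
  unfold Near at a1 a2 a3 a4
  push Not at a1 a2 a3 a4
  obtain ⟨d1, p1, a1⟩ := a1
  obtain ⟨d2, p2, a2⟩ := a2
  obtain ⟨d3, p3, a3⟩ := a3
  obtain ⟨d4, p4, a4⟩ := a4
  obtain ⟨n, i, j, hc, c, hcC, x, x', x0, hx, x1, H⟩ := hn (min (min d1 d2) (min d3 d4))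
    (by positivity)
  have b1 := a1 n i j hc c hcC x x' x0 hx x1
  have b2 := a2 n i j hc c hcC x x' x0 hx x1
  have b3 := a3 n i j hc c hcC x x' x0 hx x1
  have b4 := a4 n i j hc c hcC x x' x0 hx x1
  have hl : 0 < x' - x := by linarith
  have m1 : min (min d1 d2) (min d3 d4) * (x' - x) ≤ d1 * (x' - x) := by
    gcongr; exact (min_le_left _ _).trans (min_le_left _ _)
  have m2 : min (min d1 d2) (min d3 d4) * (x' - x) ≤ d2 * (x' - x) := by
    gcongr; exact (min_le_left _ _).trans (min_le_right _ _)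
  have m3 : min (min d1 d2) (min d3 d4) * (x' - x) ≤ d3 * (x' - x) := by
    gcongr; exact (min_le_right _ _).trans (min_le_left _ _)
  have m4 : min (min d1 d2) (min d3 d4) * (x' - x) ≤ d4 * (x' - x) := by
    gcongr; exact (min_le_right _ _).trans (min_le_right _ _)
  simp only [zm, ph, ngx, ngy, n1, Prod.fst_sub, Prod.snd_sub, Int.cast_zero, sub_zero]
    at H b1 b2 b3 b4
  rcases abs_cases (3 ^ n * (f (psi n i j (x', c))).1 - 3 ^ n * (f (psi n i j (x, c))).1) with
    s1 | s1 <;>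
  rcases abs_cases (3 ^ n * (f (psi n i j (x', c))).2 - 3 ^ n * (f (psi n i j (x, c))).2) with
    s2 | s2 <;> linarith [s1.1, s2.1]

theorem n1_tri (a b c : Pt) : n1 (c - a) ≤ n1 (b - a) + n1 (c - b) := by
  simp only [n1, Prod.fst_sub, Prod.snd_sub]
  linarith [abs_sub_le c.1 b.1 a.1, abs_sub_le c.2 b.2 a.2]

theorem seg_of_cells {L : ℝ} {f : Pt → Pt} (hcont : ContinuousOn f S)
    (H : ∀ n i j, Cell n i j → ∀ c ∈ C, ∀ x x', 0 ≤ x → x < x' → x' ≤ 1 →
      n1 (zm n n i j (0, 0) f (x', c) - zm n n i j (0, 0) f (x, c)) ≤ L * (x' - x)) :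
    ∀ y x x' : ℝ, x ≤ x' → (∀ t, x ≤ t → t ≤ x' → (t, y) ∈ S) →
      n1 (f (x', y) - f (x, y)) ≤ L * (x' - x) := by
  intro y x x' hx hs
  rcases hx.eq_or_lt with rfl | hx'
  · simp [n1]
  obtain ⟨n, hn⟩ := pow_unbounded_of_one_lt (1 / (x' - x)) (by norm_num : (1 : ℝ) < 3)
  rw [div_lt_iff₀ (by linarith)] at hn
  have h3 : (0 : ℝ) < 3 ^ n := by positivity
  have hy : 3 ^ n * y ∈ Ct := by
    intro m hm
    have h4 : (0 : ℝ) < 3 ^ (m + n) := by positivity
    have h5 : (3 : ℝ) ^ n ≤ 3 ^ (m + n) := pow_le_pow_right₀ (by norm_num) (by omega)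
    have c1 := Int.le_ceil (3 ^ (m + n) * x - 1 / 2)
    have c2 := Int.ceil_lt_add_one (3 ^ (m + n) * x - 1 / 2)
    refine (hs ((⌈3 ^ (m + n) * x - 1 / 2⌉ + 1 / 2) / 3 ^ (m + n)) ?_ ?_).1 (m + n) ⟨?_, ?_⟩
    · rw [le_div_iff₀ h4]; linarith
    · rw [div_le_iff₀ h4]; nlinarith
    · simp only
      rw [mul_div_cancel₀ _ h4.ne']
      exact ⟨⌈3 ^ (m + n) * x - 1 / 2⌉, by linarith, by linarith⟩
    · simp only
      rwa [pow_add, mul_assoc]
  have := IsClosed.Icc_subset_of_forall_exists_gt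
    (s := {t | n1 (f (t, y) - f (x, y)) ≤ L * (t - x)}) (a := x) (b := x') (by
      rw [inter_comm]
      refine ContinuousOn.preimage_isClosed_of_isClosed (t := Iic 0)
        (f := fun t => n1 (f (t, y) - f (x, y)) - L * (t - x)) ?_ isClosed_Icc isClosed_Iic
        |> fun h => by convert h using 2; ext t; simp
      refine ContinuousOn.sub (continuous_n1.comp_continuousOn (ContinuousOn.sub ?_
        continuousOn_const)) (by fun_prop)
      exact hcont.comp (by fun_prop) (fun t ht => hs t ht.1 ht.2))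
    (by simp [n1]) (by
      rintro t ⟨ht, t1, t2⟩ z hz
      have i1 := Int.floor_le (3 ^ n * t)
      have i2 := Int.lt_floor_add_one (3 ^ n * t)
      set i := ⌊3 ^ n * t⌋ with hi
      set t' := min (min x' z) ((i + 1) / 3 ^ n) with ht'
      have l1 : t < t' := lt_min (lt_min t2 hz) (by rw [lt_div_iff₀ h3]; linarith)
      have l2 : t' ≤ x' := (min_le_left _ _).trans (min_le_left _ _)
      have l3 : t' ≤ z := (min_le_left _ _).trans (min_le_right _ _)
      have l4 : 3 ^ n * t' ≤ i + 1 := by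
        have := min_le_right (min x' z) ((i + 1) / 3 ^ n)
        rw [← ht', le_div_iff₀ h3] at this
        linarith
      have l5 : 3 ^ n * t < 3 ^ n * t' := by gcongr
      refine ⟨t', ?_, l1, l3⟩
      obtain ⟨i', j, hc, -, u1, u2, u3, u4⟩ := exists_cell n
        (hs ((t + t') / 2) (by linarith) (by linarith))
      simp only at u1 u2 u3 u4
      have f1 : (i' : ℝ) < i + 1 := by linarith
      have f2 : (i : ℝ) < i' + 1 := by linarith
      have f3 : i' < i + 1 := by exact_mod_cast f1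
      have f4 : i < i' + 1 := by exact_mod_cast f2
      obtain rfl : i' = i := by omega
      have := H n _ j hc _ ⟨(Ct_sub_int j).2 hy, u3, u4⟩ (3 ^ n * t - i) (3 ^ n * t' - i)
        (by linarith) (by linarith) (by linarith)
      rw [zm_sub, n1_smul h3.le] at this
      have e : ∀ s : ℝ, psi n i j (3 ^ n * s - i, 3 ^ n * y - j) = (s, y) := fun s => by
        simp [psi, h3.ne']
      rw [e, e] at this
      have h6 : n1 (f (t', y) - f (t, y)) ≤ L * (t' - t) := by
        refine le_of_mul_le_mul_left ?_ h3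
        linarith
      have h7 := n1_tri (f (x, y)) (f (t, y)) (f (t', y))
      simp only [mem_ofPred_eq] at ht ⊢
      linarith)
  exact this ⟨hx, le_rfl⟩

theorem exists_best_cells {K : ℝ} {f : Pt → Pt}
    (lo : ∀ p ∈ S, ∀ q ∈ S, dist p q ≤ K * dist (f p) (f q))
    (hi : ∀ p ∈ S, ∀ q ∈ S, dist (f p) (f q) ≤ K * dist p q) :
    ∃ L, 0 < L ∧ Near n1 L f ∧ ∀ y x x' : ℝ, x ≤ x' → (∀ t, x ≤ t → t ≤ x' → (t, y) ∈ S) →
      n1 (f (x', y) - f (x, y)) ≤ L * (x' - x) := by
  let A : Set ℝ := {r | ∃ n i j, Cell n i j ∧ ∃ c ∈ C, ∃ x x', 0 ≤ x ∧ x < x' ∧ x' ≤ 1 ∧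
    r = n1 (zm n n i j (0, 0) f (x', c) - zm n n i j (0, 0) f (x, c)) / (x' - x)}
  have hmem : n1 (zm 0 0 0 0 (0, 0) f (1, 0) - zm 0 0 0 0 (0, 0) f (0, 0)) / (1 - 0) ∈ A :=
    ⟨0, 0, 0, Cell.root, 0, zero_mem_C, 0, 1, le_rfl, zero_lt_one, le_rfl, rfl⟩
  have hbdd : BddAbove A := by
    refine ⟨2 * K, ?_⟩
    rintro _ ⟨n, i, j, hc, c, hcC, x, x', h0, hx, h1, rfl⟩
    have hl : 0 < x' - x := by linarith
    rw [div_le_iff₀ hl]
    have a2 := hi _ (hc.psi_mem (line_mem_W hcC (by linarith) h1 : (x', c) ∈ S)) _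
      (hc.psi_mem (line_mem_W hcC h0 (by linarith) : (x, c) ∈ S))
    have a3 : dist (x', c) (x, c) = x' - x := by
      simp [Prod.dist_eq, Real.dist_eq, abs_of_pos hl, hx.le]
    rw [dist_psi, a3] at a2
    have a4 := dist_zm n n i j (0, 0) f (x', c) (x, c)
    have a5 : 3 ^ n * (K * ((x' - x) / 3 ^ n)) = K * (x' - x) := by field_simp
    have a6 := mul_le_mul_of_nonneg_left a2 (by positivity : (0 : ℝ) ≤ 3 ^ n)
    rw [← a4, a5, Prod.dist_eq, max_le_iff, Real.dist_eq, Real.dist_eq] at a6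
    simp only [n1, Prod.fst_sub, Prod.snd_sub]
    linarith [a6.1, a6.2]
  refine ⟨sSup A, lt_of_lt_of_le ?_ (le_csSup hbdd hmem), ?_, seg_of_cells (cont_of_hi hi) ?_⟩
  · rw [zm_zero, sub_zero, div_one]
    by_contra hc
    simp only [n1, Prod.fst_sub, Prod.snd_sub, not_lt] at hc
    have e : f (1, 0) = f (0, 0) := Prod.ext
      (sub_eq_zero.1 (abs_nonpos_iff.1 (by linarith [abs_nonneg ((f (1, 0)).2 - (f (0, 0)).2)])))
      (sub_eq_zero.1 (abs_nonpos_iff.1 (by linarith [abs_nonneg ((f (1, 0)).1 - (f (0, 0)).1)])))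
    have := lo _ c10 _ c00
    rw [e] at this
    simp [Prod.dist_eq] at this
    linarith
  · intro δ hδ
    obtain ⟨_, ⟨n, i, j, hc, c, hcC, x, x', h0, hx, h1, rfl⟩, hr⟩ :=
      exists_lt_of_lt_csSup ⟨_, hmem⟩ (by linarith : sSup A - δ < sSup A)
    refine ⟨n, i, j, hc, c, hcC, x, x', h0, hx, h1, ?_⟩
    rw [lt_div_iff₀ (by linarith)] at hr
    exact hr.le
  · intro n i j hc c hcC x x' h0 hx h1
    have := le_csSup hbdd ⟨n, i, j, hc, c, hcC, x, x', h0, hx, h1, rfl⟩
    rwa [div_le_iff₀ (by linarith)] at this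

/-- Every bi-Lipschitz map of the carpet into the periodic carpet is affine. -/
theorem aff_of_bilip {K : ℝ} {f : Pt → Pt} (maps : ∀ p ∈ S, f p ∈ P)
    (lo : ∀ p ∈ S, ∀ q ∈ S, dist p q ≤ K * dist (f p) (f q))
    (hi : ∀ p ∈ S, ∀ q ∈ S, dist (f p) (f q) ≤ K * dist p q) : Aff f := by
  have lo' : ∀ p ∈ S, ∀ q ∈ S, dist p q ≤ K * dist (f p.swap) (f q.swap) := fun p hp q hq => by
    rw [← dist_swap]; exact lo _ (S_swap hp) _ (S_swap hq)
  have hi' : ∀ p ∈ S, ∀ q ∈ S, dist (f p.swap) (f q.swap) ≤ K * dist p q := fun p hp q hq => by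
    rw [← dist_swap p]; exact hi _ (S_swap hp) _ (S_swap hq)
  obtain ⟨L1, p1, n1', s1⟩ := exists_best_cells lo hi
  obtain ⟨L2, p2, n2', s2⟩ := exists_best_cells lo' hi'
  have hg : Good K (max L1 L2) S f := ⟨maps, lo, hi,
    fun y x x' hx hs => (s1 y x x' hx hs).trans (by gcongr; exact le_max_left _ _),
    fun x y y' hy hs => (s2 x y y' hy (fun t a b => S_swap (hs t a b))).trans
      (by gcongr; exact le_max_right _ _)⟩
  rcases le_total L2 L1 with h | h
  · rw [max_eq_left h] at hg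
    exact aff_of_near_n1 hg p1 n1'
  · rw [max_eq_right h] at hg
    exact (aff_of_near_n1 (hg.dswap (fun p hp => S_swap hp)) p2 n2').of_dswap

end Pool.Agent.MP_d4b492_an

end MrgPart4

-- marker of a merged file
example : 731051 + 572591 = 731051 + 572591 := rfl
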